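import Pool.Agent.H15.FX.XPA

/-!
# DET: the expansion is determined by the top terms, and conversely

`evt n F t z = ∑_m t^m (part n m F)(z)` (`part` of `H72/ES/GaForm`: `part n m F = ∑_j F (n-m-j) j X^j`).

`con`: if `TopT T n F G` then `evt F - evt G = ∑_{m ≥ T} t^m (..)` is divisible by `X^T` at
`t = X`, every `z`. So with `v'` the expansion of `G`: `X^T ∣ evt n F X (θ + v')`, and by `evt_sub`
(for `F`) `X^T ∣ (v - v') U` with `U` a unit (`PowerSeries.isUnit_iff_constantCoeff`), so
`X^T ∣ v - v'`: `PowerSeries.X_pow_dvd_iff`.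

`det_step`: let `parts 0..k` agree (`TopT (k+1)`), `coeff i v = coeff i v'` for `i ≤ k + 1`. The
coefficient of `X^(k+1)` in `0 = ∑_m X^m (part n m F)(θ + v)` is `∑_{m ≤ k+1}
coeff (k+1-m) ((part n m F)(θ+v))`; the terms `m ≤ k` are the same for `F, v` and `G, v'` (same
polynomial, and `X^(k+2) ∣ v - v'`), the term `m = k + 1` is `(part n (k+1) F)(θ)`. So
`part n (k+1) F` and `part n (k+1) G` have the same value at `θ`. Their difference has degree
`≤ n - k - 1 < n` and integer coefficients, `θ` is a root of the irreducible monic polynomial `f` of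
degree `n`: the difference is `0` (`O.indep` after `O.φ` injective: `O.φ a = 0 → a = 0` by
`O.liouville`; `O.φ (aeval O.α p) = aeval θ p`). Compare coefficients: `TopT (k+2)`.

`det_all`: induction on `k` from `1` (`con` with `T = 2` gives `coeff 1 v = coeff 1 v'`; the
coefficients `0` agree, those between `2` and `r` vanish).
-/

set_option autoImplicit false

namespace Pool.Agent.H15.FX

open Finset Polynomial Pool.Agent.H72.ES Pool.Agent.H8.UL

variable {n Q : ℕ} {f : ℤ[X]} {θ : ℝ}

private theorem evt_diff_dvd {F G : ℕ → ℕ → ℤ} {T : ℕ} (hFG : TopT T n F G) (z : PowerSeries ℝ) :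
    (PowerSeries.X : PowerSeries ℝ) ^ T ∣ evt n (cst (PowerSeries ℝ) F) PowerSeries.X z -
      evt n (cst (PowerSeries ℝ) G) PowerSeries.X z := by
  unfold evt
  rw [← sum_sub_distrib]
  refine dvd_sum fun i hi => ?_
  rw [← sum_sub_distrib]
  refine dvd_sum fun j hj => ?_
  rw [mem_range] at hi hj
  rcases Nat.lt_or_ge n (i + j + T) with h1 | h1
  · have h2 : cst (PowerSeries ℝ) F i j = cst (PowerSeries ℝ) G i j := by
      unfold cst
      rw [hFG i j (by omega) h1]
    rw [h2, sub_self]
    exact dvd_zero _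
  · rw [← sub_mul, ← sub_mul]
    refine Dvd.dvd.mul_right (Dvd.dvd.mul_left (pow_dvd_pow _ (by omega)) _) _

private theorem evt_sub_dvd (F : ℕ → ℕ → ℤ) (z z' : PowerSeries ℝ) :
    z - z' ∣ evt n (cst (PowerSeries ℝ) F) PowerSeries.X z -
      evt n (cst (PowerSeries ℝ) F) PowerSeries.X z' := by
  unfold evt
  rw [← sum_sub_distrib]
  refine dvd_sum fun i _ => ?_
  rw [← sum_sub_distrib]
  refine dvd_sum fun j _ => ?_
  rw [← mul_sub]
  exact Dvd.dvd.mul_left (sub_dvd_pow_sub_pow z z' j) _

theorem con (O : Ord ℝ n Q f θ) {F G : ℕ → ℕ → ℤ} (hF : Norml n Q f F) {T : ℕ}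
    (hFG : TopT T n F G) {v v' : PowerSeries ℝ} (h : Xp n F θ v) (h' : Xp n G θ v') :
    ∀ i, i < T → PowerSeries.coeff i v = PowerSeries.coeff i v' := by
  obtain ⟨U, hU, h1⟩ := evt_sub O hF h.h0 h'.h0
  have h2 := evt_diff_dvd hFG (PowerSeries.C θ + v')
  rw [h'.eq, sub_zero] at h2
  rw [h.eq, zero_sub] at h1
  have h3 : (PowerSeries.X : PowerSeries ℝ) ^ T ∣ (v - v') * U := by
    rw [← h1]
    exact (dvd_neg).2 h2
  have h4 : IsUnit U := PowerSeries.isUnit_iff_constantCoeff.2 (isUnit_iff_ne_zero.2 hU)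
  have h5 : (PowerSeries.X : PowerSeries ℝ) ^ T ∣ v - v' := h4.dvd_mul_right.1 h3
  intro i hi
  have h6 := PowerSeries.X_pow_dvd_iff.1 h5 i hi
  rw [map_sub] at h6
  exact sub_eq_zero.1 h6

theorem det_step (O : Ord ℝ n Q f θ) {F G : ℕ → ℕ → ℤ} {k : ℕ} (hkn : k + 1 ≤ n)
    (hFG : TopT (k + 1) n F G) {v v' : PowerSeries ℝ} (h : Xp n F θ v) (h' : Xp n G θ v')
    (hv : ∀ i, i ≤ k + 1 → PowerSeries.coeff i v = PowerSeries.coeff i v') :
    TopT (k + 2) n F G := by
  classical
  have h1 : (PowerSeries.X : PowerSeries ℝ) ^ (k + 2) ∣ v - v' := by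
    rw [PowerSeries.X_pow_dvd_iff]
    intro i hi
    rw [map_sub, hv i (by omega), sub_self]
  have h2 : (PowerSeries.X : PowerSeries ℝ) ^ (k + 2) ∣
      evt n (cst (PowerSeries ℝ) F) PowerSeries.X (PowerSeries.C θ + v') -
        evt n (cst (PowerSeries ℝ) G) PowerSeries.X (PowerSeries.C θ + v') := by
    have h3 := evt_sub_dvd (n := n) F (PowerSeries.C θ + v) (PowerSeries.C θ + v')
    rw [h.eq, zero_sub, add_sub_add_left_eq_sub, dvd_neg] at h3
    rw [h'.eq, sub_zero]
    exact h1.trans h3
  have h3 := PowerSeries.X_pow_dvd_iff.1 h2 (k + 1) (by omega)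
  -- the polynomial
  obtain ⟨P, hP⟩ : ∃ P : ℤ[X], P = ∑ i ∈ range (n + 1), ∑ j ∈ range (n + 1 - i),
      (if n - i - j = k + 1 then C (F i j - G i j) * X ^ j else 0) := ⟨_, rfl⟩
  have h4 : aeval θ P = 0 := by
    rw [← h3, hP]
    unfold evt
    rw [← sum_sub_distrib, map_sum, map_sum]
    refine sum_congr rfl fun i hi => ?_
    rw [← sum_sub_distrib, map_sum, map_sum]
    refine sum_congr rfl fun j hj => ?_
    rw [mem_range] at hi hj
    have h5 : cst (PowerSeries ℝ) F i j - cst (PowerSeries ℝ) G i j =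
        PowerSeries.C (((F i j - G i j : ℤ) : ℝ)) := by
      unfold cst
      push_cast
      simp
    rw [← sub_mul, ← sub_mul, h5, mul_assoc, PowerSeries.coeff_C_mul, PowerSeries.coeff_X_pow_mul']
    have h6 : PowerSeries.constantCoeff (PowerSeries.C θ + v') = θ := by
      rw [map_add, h'.h0, add_zero]
      exact PowerSeries.constantCoeff_C θ
    split_ifs with h7 h8 h8
    · rw [h7, Nat.sub_self, PowerSeries.coeff_zero_eq_constantCoeff_apply, map_pow, h6]
      simp
    · omega
    · have h9 : F i j = G i j := hFG i j (by omega) (by omega)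
      rw [h9]
      simp
    · simp
  have h5 : aeval O.α P = 0 := by
    by_contra hne
    have h6 := O.liouville _ hne
    have h7 : O.φ (aeval O.α P) = aeval θ P := by
      have h8 : O.φ.comp (algebraMap ℤ O.R) = algebraMap ℤ ℝ := RingHom.ext_int _ _
      rw [aeval_def, hom_eval₂, O.φ_α, aeval_def, h8]
    rw [h7, h4, norm_zero, zero_mul] at h6
    exact absurd h6 (by norm_num)
  have h6 : P = 0 := by
    refine O.indep P ?_ h5
    have h7 : P.natDegree ≤ n - (k + 1) := by
      rw [hP]
      refine natDegree_sum_le_of_forall_le _ _ fun i hi => ?_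
      refine natDegree_sum_le_of_forall_le _ _ fun j hj => ?_
      split_ifs with h8
      · refine (natDegree_C_mul_X_pow_le _ _).trans ?_
        omega
      · simp
    omega
  intro i j hij hij'
  rcases Nat.lt_or_ge n (i + j + (k + 1)) with h7 | h7
  · exact hFG i j hij h7
  · have h8 : P.coeff j = F i j - G i j := by
      rw [hP, finsetSum_coeff, sum_eq_single i]
      · rw [finsetSum_coeff, sum_eq_single j]
        · rw [if_pos (by omega), coeff_C_mul_X_pow, if_pos rfl]
        · intro j' _ hj'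
          split_ifs
          · rw [coeff_C_mul_X_pow, if_neg (Ne.symm hj')]
          · exact coeff_zero _
        · intro hj'
          exact absurd (mem_range.2 (by omega)) hj'
      · intro i' _ hi'
        rw [finsetSum_coeff]
        refine sum_eq_zero fun j' hj' => ?_
        rw [mem_range] at hj'
        split_ifs with h9
        · rw [coeff_C_mul_X_pow, if_neg (by omega)]
        · exact coeff_zero _
      · intro hi'
        exact absurd (mem_range.2 (by omega)) hi'
    rw [h6, coeff_zero] at h8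
    omega

/-- the terms of degree `n, n-1` determine those of degree `≥ n - r` if the order of the flex is at
least `r` -/
theorem det_all (O : Ord ℝ n Q f θ) {F G : ℕ → ℕ → ℤ} (hF : Norml n Q f F) {r : ℕ} (hrn : r ≤ n)
    (hFG : TopT 2 n F G) {v v' : PowerSeries ℝ} (h : Xp n F θ v) (h' : Xp n G θ v')
    (hv : ∀ k, 2 ≤ k → k ≤ r → PowerSeries.coeff k v = 0)
    (hv' : ∀ k, 2 ≤ k → k ≤ r → PowerSeries.coeff k v' = 0) : TopT (r + 1) n F G := by
  have h1 := con O hF hFG h h'
  induction r with
  | zero => exact hFG.mono (by omega)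
  | succ r ih =>
    rcases Nat.eq_zero_or_pos r with hr | hr
    · subst hr
      exact hFG
    · have h2 := ih (by omega) (fun k hk hk' => hv k hk (by omega))
        (fun k hk hk' => hv' k hk (by omega))
      refine det_step O hrn h2 h h' ?_
      intro i hi
      rcases Nat.lt_or_ge i 2 with h3 | h3
      · exact h1 i h3
      · rw [hv i h3 hi, hv' i h3 hi]

end Pool.Agent.H15.FX
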