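import Pool.Agent.H15.FX.WIN
import Pool.Agent.H15.FX.DET

/-!
# CLT: the huge points of all heights near one root, flex of order `r ≥ 2`

Copy of `one_window_total`, `windows_total`, `class_total` of `H72/ES/Total.lean`.

`window_R` (= `one_window_total`): let `P0 ∈ S` have the largest `Q`; all `F P` are `Norml` with
`Q P0` (`Norml.up`), `TopT (r+3)` with `F P0`. The expansion `v0` of `F P0` (`exists_xp`) has the
same coefficients of index `< r + 3` as `v` (`con`, for `F P0` and `G`), so `Flx r v0`. `window4`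
with `X`: `bb (Q P0) ^ (100 n^3) ≤ X` from `bb (Q P0)^(600000 n^3) ≤ |x_P0| ≤ X^(1+1/(3n)) ≤ X^2`.
`near'`: as `BigAt.near'`.

`class_R` (= `class_total`): `two_point2` as there (`400000 n^2 ≤ 600000 n^3`, `600000 n^2 ≤
600000 n^3`, `n ≥ 1`), so all points lie in `[x1, x1^(2000 n))`, at most `3 n (n+9)` windows.
-/

set_option autoImplicit false

namespace Pool.Agent.H15.FX

open Finset Polynomial Pool.Agent.H72.ES Pool.Agent.H8.UL

variable {n : ℕ} {f : ℤ[X]} {θ : ℝ}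

theorem BigR.near' {r : ℕ} {G F : ℕ → ℕ → ℤ} {P : ℤ × ℤ} {Q Q' : ℕ} (h : BigR r n f G θ P Q F)
    (hQ : Q ≤ Q') (hx : bb n Q' ^ 5 ≤ |(P.1 : ℝ)|) : |(P.2 : ℝ) / P.1 - θ| ≤ 1 / bb n Q' := by
  have hn := h.norml.hn
  have hQ2 := (h.norml.up hQ).hQ
  have hb1 := one_le_bb hn hQ2
  have hmono := bb_mono (n := n) hQ
  have hb1' := one_le_bb hn h.norml.hQ
  have hx0 : 0 < |(P.1 : ℝ)| := lt_of_lt_of_le (by positivity) hx
  refine h.near.trans ?_
  rw [div_le_div_iff₀ hx0 (by linarith), one_mul]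
  calc bb n Q ^ 4 * bb n Q' ≤ bb n Q' ^ 4 * bb n Q' := by gcongr
    _ = bb n Q' ^ 5 := by ring
    _ ≤ _ := hx

theorem window_R {G : ℕ → ℕ → ℤ} (hf : Irreducible f) (hroot : aeval θ f = 0) {r : ℕ}
    (hr : 2 ≤ r) (hrn : r + 3 ≤ n) {v : PowerSeries ℝ} (hv : Xp n G θ v) (hfl : Flx r v)
    (S : Finset (ℤ × ℤ)) (hS : ∀ P ∈ S, ∃ Q F, BigR r n f G θ P Q F) (X : ℝ) (hX : 1 ≤ X)
    (h1 : ∀ P ∈ S, X ≤ |(P.1 : ℝ)|)
    (h2 : ∀ P ∈ S, |(P.1 : ℝ)| ≤ X ^ (1 + 1 / (3 * (n : ℝ)))) : S.card ≤ 4 := by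
  classical
  by_cases hne : S.Nonempty
  · choose! Q F hQF using hS
    obtain ⟨P0, hP0, hmax⟩ := S.exists_max_image Q hne
    have h0 := hQF P0 hP0
    have hN0 := h0.norml
    have hn := hN0.hn
    have hb1 := one_le_bb hn hN0.hQ
    obtain ⟨hm, hd, hc⟩ := hN0.lead_props
    obtain ⟨O⟩ := exists_ord ℝ hn hN0.hQ hm hd hc hf θ hroot
    obtain ⟨v0, hv0⟩ := exists_xp O hN0
    have hcon := con O hN0 h0.topT hv0 hv
    have hfl0 : Flx r v0 := by
      refine ⟨?_, ?_⟩
      · intro k hk hkr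
        rw [hcon k (by omega)]
        exact hfl.zero k hk hkr
      · rw [hcon (r + 1) (by omega)]
        exact hfl.ne
    have hn0 : (0 : ℝ) < n := by exact_mod_cast (by omega : 0 < n)
    have hXX : bb n (Q P0) ^ (300000 * n ^ 3) ≤ X := by
      have e1 : (bb n (Q P0) ^ (300000 * n ^ 3)) ^ 2 ≤ X ^ 2 := by
        calc (bb n (Q P0) ^ (300000 * n ^ 3)) ^ 2 = bb n (Q P0) ^ (600000 * n ^ 3) := by
              rw [← pow_mul]
              congr 1
              ring
          _ ≤ |(P0.1 : ℝ)| := h0.big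
          _ ≤ X ^ (1 + 1 / (3 * (n : ℝ))) := h2 P0 hP0
          _ ≤ X ^ (2 : ℝ) := by
              refine Real.rpow_le_rpow_of_exponent_le hX ?_
              have : 1 / (3 * (n : ℝ)) ≤ 1 := by
                rw [div_le_one (by positivity)]
                have : (1 : ℝ) ≤ n := by exact_mod_cast (by omega : 1 ≤ n)
                linarith
              linarith
          _ = X ^ 2 := by norm_cast
      exact le_of_sq_le_sq e1 (by linarith)
    have hnn : 1 ≤ n ^ 3 := Nat.one_le_pow _ _ (by omega)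
    refine window4 hN0 O hv0 hr hrn hfl0 S ?_ X
      ((pow_le_pow_right₀ hb1 (by omega)).trans hXX) h1 h2
    intro P hP
    have hP' := hQF P hP
    refine ⟨⟨F P, hP'.norml.up (hmax P hP), hP'.topT.trans h0.topT.symm, hP'.zero⟩, ?_⟩
    exact hP'.near' (hmax P hP)
      (((pow_le_pow_right₀ hb1 (by omega)).trans hXX).trans (h1 P hP))
  · rw [not_nonempty_iff_eq_empty] at hne
    rw [hne]
    simp

theorem windows_R {G : ℕ → ℕ → ℤ} (hn : 4 ≤ n) (hf : Irreducible f) (hroot : aeval θ f = 0)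
    {r : ℕ} (hr : 2 ≤ r) (hrn : r + 3 ≤ n) {v : PowerSeries ℝ} (hv : Xp n G θ v) (hfl : Flx r v)
    (m : ℕ) : ∀ (S : Finset (ℤ × ℤ)), (∀ P ∈ S, ∃ Q F, BigR r n f G θ P Q F) → ∀ X : ℝ,
    1 ≤ X → (∀ P ∈ S, X ≤ |(P.1 : ℝ)|) →
    (∀ P ∈ S, |(P.1 : ℝ)| < X ^ ((1 + 1 / (3 * (n : ℝ))) ^ m)) → S.card ≤ 4 * m := by
  induction m with
  | zero =>
    intro S _ X _ h1 h2
    have : S = ∅ := by
      apply eq_empty_of_forall_notMem
      intro P hP
      have e1 := h1 P hP
      have e2 := h2 P hP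
      simp only [pow_zero, Real.rpow_one] at e2
      linarith
    simp [this]
  | succ m ih =>
    intro S hS X hX1 h1 h2
    have hX0 : 0 < X := by linarith
    set δ : ℝ := 1 + 1 / (3 * (n : ℝ)) with hδ
    have hn0 : (0 : ℝ) < n := by exact_mod_cast (by omega : 0 < n)
    have hδ1 : 1 ≤ δ := by
      have : (0 : ℝ) ≤ 1 / (3 * (n : ℝ)) := by positivity
      linarith
    have hXδ : X ≤ X ^ δ := by
      calc X = X ^ (1 : ℝ) := (Real.rpow_one X).symm
        _ ≤ X ^ δ := Real.rpow_le_rpow_of_exponent_le hX1 hδ1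
    set S1 := S.filter (fun P => |(P.1 : ℝ)| < X ^ δ) with hS1
    set S2 := S.filter (fun P => ¬ |(P.1 : ℝ)| < X ^ δ) with hS2
    have hs1 : S1 ⊆ S := filter_subset _ _
    have hs2 : S2 ⊆ S := filter_subset _ _
    have e1 : S1.card ≤ 4 := by
      refine window_R hf hroot hr hrn hv hfl S1 (fun P hP => hS P (hs1 hP)) X hX1
        (fun P hP => h1 P (hs1 hP)) ?_
      intro P hP
      exact ((mem_filter.1 hP).2).le
    have e2 : S2.card ≤ 4 * m := by
      refine ih S2 (fun P hP => hS P (hs2 hP)) (X ^ δ) (hX1.trans hXδ) ?_ ?_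
      · intro P hP
        exact not_lt.1 (mem_filter.1 hP).2
      · intro P hP
        have := h2 P (hs2 hP)
        rw [← Real.rpow_mul hX0.le]
        have e3 : δ * δ ^ m = δ ^ (m + 1) := by ring
        rw [e3]
        exact this
    have e3 : S1.card + S2.card = S.card := by
      rw [hS1, hS2]
      exact card_filter_add_card_filter_not _
    omega

/-- the exceptional points of all heights near one root, flex of order `r` -/
theorem class_R {G : ℕ → ℕ → ℤ} (hn : 4 ≤ n) (hf : Irreducible f) (hroot : aeval θ f = 0)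
    {r : ℕ} (hr : 2 ≤ r) (hrn : r + 3 ≤ n) {v : PowerSeries ℝ} (hv : Xp n G θ v) (hfl : Flx r v)
    (S : Finset (ℤ × ℤ)) (hS : ∀ P ∈ S, ∃ Q F, BigR r n f G θ P Q F) : S.card ≤ 39 * n ^ 2 := by
  classical
  have hn23 : n ^ 2 ≤ n ^ 3 := Nat.pow_le_pow_right (by omega) (by omega)
  have hA2 : ((2000 * n : ℕ) : ℝ) ≤ (1 + 1 / (3 * (n : ℝ))) ^ (3 * n * (n + 9)) := by
    refine le_trans ?_ (two_pow_le_window (by omega) (n + 9))
    have : 2000 * n ≤ 2 ^ (n + 9) := by
      rw [pow_add]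
      have := four_n_le hn
      omega
    exact_mod_cast this
  have key : S.card ≤ 4 * (3 * n * (n + 9)) := by
    by_cases hne : S.Nonempty
    · obtain ⟨P1, hP1, hmin⟩ := S.exists_min_image (fun P => |(P.1 : ℝ)|) hne
      obtain ⟨Q1, F1, h1⟩ := hS P1 hP1
      have hb1 := one_le_bb hn h1.norml.hQ
      have hX1 : 1 ≤ |(P1.1 : ℝ)| := (one_le_pow₀ hb1).trans h1.big
      refine windows_R hn hf hroot hr hrn hv hfl _ S hS |(P1.1 : ℝ)| hX1 hmin ?_
      intro P hP
      obtain ⟨Q2, F2, h2⟩ := hS P hP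
      have hb2 := one_le_bb hn h2.norml.hQ
      have hnn : 1 ≤ n ^ 2 := Nat.one_le_pow _ _ (by omega)
      have hlt : |(P.1 : ℝ)| < |(P1.1 : ℝ)| ^ (2000 * n) := by
        by_contra hc
        push Not at hc
        obtain ⟨hm, hd, hc'⟩ := h1.norml.lead_props
        obtain ⟨O⟩ := exists_ord ℝ hn h1.norml.hQ hm hd hc' hf θ hroot
        have hx1 : bb n Q1 ^ (400000 * n ^ 2) ≤ |(P1.1 : ℝ)| :=
          (pow_le_pow_right₀ hb1 (by omega)).trans h1.big
        have hy1 := h1.near' le_rfl ((pow_le_pow_right₀ hb1 (by omega)).trans h1.big)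
        by_cases hQ : Q1 ≤ Q2
        · have hbig : bb n Q2 ^ (600000 * n ^ 2) ≤ |(P.1 : ℝ)| :=
            (pow_le_pow_right₀ hb2 (by omega)).trans h2.big
          exact two_point2 hf O hQ h1.norml h2.norml P1.1 P1.2 P.1 P.2 h1.zero h2.zero hy1
            (h2.near' le_rfl ((pow_le_pow_right₀ hb2 (by omega)).trans h2.big)) hx1 hbig hc
        · have hQ' : Q2 ≤ Q1 := by omega
          have hbig : bb n Q1 ^ (600000 * n ^ 2) ≤ |(P.1 : ℝ)| :=
            ((pow_le_pow_right₀ hb1 (by omega)).trans h1.big).trans (hmin P hP)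
          exact two_point2 hf O le_rfl h1.norml (h2.norml.up hQ') P1.1 P1.2 P.1 P.2 h1.zero
            h2.zero hy1 (h2.near' hQ' ((pow_le_pow_right₀ hb1 (by omega)).trans hbig)) hx1 hbig hc
      refine lt_of_lt_of_le hlt ?_
      rw [← Real.rpow_natCast]
      exact Real.rpow_le_rpow_of_exponent_le hX1 hA2
    · rw [not_nonempty_iff_eq_empty] at hne
      rw [hne]
      simp
  have e4 : n * 4 ≤ n ^ 2 := by nlinarith
  nlinarith

end Pool.Agent.H15.FX
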