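import Pool.Agent.H72.ES.Bridge
import Pool.Agent.H72.ES.Dens

/-!
# CNT: the number of keys, arbitrary finite sets of coefficients

`ixs D`: the monomials whose degree is in `D`, `card = ∑ d ∈ D, (d + 1)`. The map
`F ↦ (fun p : ixs D => arrM F p.1 p.2)` has image in `Fintype.piFinset fun p => A p.1 p.2` with at most
`s ^ card` elements; its fibers in `S` have at most `K` elements by hypothesis.
-/

set_option autoImplicit false

namespace Pool.Agent.H15.FX

open Finset Pool.Agent.H72.ES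

/-- the exponents with degree in `D` -/
private def ixs (D : Finset ℕ) : Finset (ℕ × ℕ) := D.biUnion fun d => antidiagonal d

private theorem mem_ixs {D : Finset ℕ} {p : ℕ × ℕ} : p ∈ ixs D ↔ p.1 + p.2 ∈ D := by
  unfold ixs
  rw [mem_biUnion]
  constructor
  · rintro ⟨d, hd, hp⟩
    rw [Finset.HasAntidiagonal.mem_antidiagonal] at hp
    rw [hp]
    exact hd
  · intro h
    exact ⟨p.1 + p.2, h, Finset.HasAntidiagonal.mem_antidiagonal.2 rfl⟩

private theorem card_ixs (D : Finset ℕ) : (ixs D).card = ∑ d ∈ D, (d + 1) := by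
  unfold ixs
  rw [card_biUnion]
  · refine sum_congr rfl fun d _ => ?_
    exact Finset.Nat.card_antidiagonal d
  · intro d _ e _ hde
    refine Finset.disjoint_left.2 fun p hp hq => ?_
    rw [Finset.HasAntidiagonal.mem_antidiagonal] at hp hq
    exact hde (hp.symm.trans hq)

theorem key_count (D : Finset ℕ) (A : ℕ → ℕ → Finset ℤ) (s K : ℕ) (hA : ∀ i j, (A i j).card ≤ s)
    (S : Finset (MvPolynomial (Fin 2) ℤ)) (hS : ∀ F ∈ S, ∀ i j, i + j ∈ D → arrM F i j ∈ A i j)
    (hK : ∀ T ⊆ S, (∀ F ∈ T, ∀ G ∈ T, ∀ i j, i + j ∈ D → arrM F i j = arrM G i j) → T.card ≤ K) :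
    S.card ≤ K * s ^ (∑ d ∈ D, (d + 1)) := by
  classical
  let r : MvPolynomial (Fin 2) ℤ → (ixs D → ℤ) := fun F p => arrM F p.1.1 p.1.2
  have h1 : S.card ≤ K * (S.image r).card := by
    refine card_le_mul_card_image _ _ ?_
    intro c hc
    refine hK _ (filter_subset _ _) ?_
    intro F hF G hG i j hij
    have h2 : r F = r G := (mem_filter.1 hF).2.trans (mem_filter.1 hG).2.symm
    exact congrFun h2 ⟨(i, j), mem_ixs.2 hij⟩
  have h4 : (S.image r).card ≤ s ^ (∑ d ∈ D, (d + 1)) := by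
    have h5 : S.image r ⊆ Fintype.piFinset fun p : ixs D => A p.1.1 p.1.2 := by
      intro c hc
      obtain ⟨F, hF, rfl⟩ := mem_image.1 hc
      rw [Fintype.mem_piFinset]
      intro p
      exact hS F hF _ _ (mem_ixs.1 p.2)
    refine (card_le_card h5).trans ?_
    rw [Fintype.card_piFinset]
    calc ∏ p : ixs D, (A p.1.1 p.1.2).card ≤ ∏ _p : ixs D, s :=
          Finset.prod_le_prod' fun p _ => hA _ _
      _ = s ^ (∑ d ∈ D, (d + 1)) := by
        rw [prod_const, card_univ, Fintype.card_coe, card_ixs]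
  exact h1.trans (Nat.mul_le_mul_left _ h4)

end Pool.Agent.H15.FX
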