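import Pool.Agent.H72.ES.Total

/-!
# MP_821da1_nt: huge integer points on curves with a flex at infinity -- definitions

Conventions of `H72/ES`: arrays `F : ℕ → ℕ → ℤ`, `ev`, `evt`, `lead`, `Norml`, `Ord`, `Branch`, `bb`.
A curve `F` (monic in `y`, irreducible leading polynomial `f`) has at each real root `θ` of `f` one
expansion `y / x = θ + v(1/x)`, `v` a real power series without constant term (`Xp`). The order of
the flex is the least `r ≥ 1` with `coeff (r+1) v ≠ 0`.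
-/

set_option autoImplicit false

namespace Pool.Agent.H15.FX

open Finset Polynomial Pool.Agent.H72.ES Pool.Agent.H8.UL

/-- agreement of the terms of degree `> n - T` -/
def TopT (T n : ℕ) (F G : ℕ → ℕ → ℤ) : Prop := ∀ i j, i + j ≤ n → n < i + j + T → F i j = G i j

theorem TopT.symm {T n : ℕ} {F G : ℕ → ℕ → ℤ} (h : TopT T n F G) : TopT T n G F :=
  fun i j h1 h2 => (h i j h1 h2).symm

theorem TopT.trans {T n : ℕ} {F G K : ℕ → ℕ → ℤ} (h : TopT T n F G) (h' : TopT T n G K) :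
    TopT T n F K := fun i j h1 h2 => (h i j h1 h2).trans (h' i j h1 h2)

theorem TopT.mono {T T' n : ℕ} {F G : ℕ → ℕ → ℤ} (h : TopT T n F G) (hT : T' ≤ T) :
    TopT T' n F G := fun i j h1 h2 => h i j h1 (by omega)

/-- `v` is the expansion at infinity with slope `θ`: `z = θ + v(t)`, `t = 1/x`, `z = y/x` -/
structure Xp (n : ℕ) (F : ℕ → ℕ → ℤ) (θ : ℝ) (v : PowerSeries ℝ) : Prop where
  h0 : PowerSeries.constantCoeff v = 0
  eq : evt n (cst (PowerSeries ℝ) F) PowerSeries.X (PowerSeries.C θ + v) = 0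

/-- the expansion has a flex of order exactly `r` -/
structure Flx (r : ℕ) (v : PowerSeries ℝ) : Prop where
  zero : ∀ k, 2 ≤ k → k ≤ r → PowerSeries.coeff k v = 0
  ne : PowerSeries.coeff (r + 1) v ≠ 0

/-- `∑_{k<r} b^(r-k) (a^(k+1) - c^(k+1))` -/
def SS (r : ℕ) (a b c : ℝ) : ℝ := ∑ k ∈ range r, b ^ (r - k) * (a ^ (k + 1) - c ^ (k + 1))

/-- `P` lies near `θ` on the curve `F` of height `≤ Q` with the terms of degree `≥ n - 2 - r` of `G`
and is huge compared with `Q` -/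
structure BigR (r n : ℕ) (f : ℤ[X]) (G : ℕ → ℕ → ℤ) (θ : ℝ) (P : ℤ × ℤ) (Q : ℕ)
    (F : ℕ → ℕ → ℤ) : Prop where
  norml : Norml n Q f F
  topT : TopT (r + 3) n F G
  zero : ev n F P.1 P.2 = 0
  near : |(P.2 : ℝ) / P.1 - θ| ≤ bb n Q ^ 4 / |(P.1 : ℝ)|
  big : bb n Q ^ (600000 * n ^ 3) ≤ |(P.1 : ℝ)|

end Pool.Agent.H15.FX
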