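import Pool.Agent.H15.FX.NRM

/-!
# FIF: all coefficients `2, .., n - 2` of the expansion vanish: at most one member for each root

Let `F, G ∈ T` (`Finset.card_le_one`). `TopT 2 n (nf n F) (nf n G)` (terms of degree `n, n - 1`), the
same `f = lf n F = lf n G`. `det_all` with `r = n - 2` (`O` from `exists_ord` with the `Q` of `F`,
`Norml.lead_props`, `Dat`): `TopT (n - 1)`, i.e. the terms of degree `≥ 2` of `nf` agree; `topT_of_nf`
for `arrM`; with the terms of degree `1, 0`: `arrM F = arrM G` (`arrM_supp` beyond degree `n`),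
`arrM_inj`.
-/

set_option autoImplicit false

namespace Pool.Agent.H15.FX

open Finset Polynomial Pool.Agent.H72.ES Pool.Agent.H8.UL

theorem fib_inf {n : ℕ} (hn : 4 ≤ n) (θ : ℝ) (T : Finset (MvPolynomial (Fin 2) ℤ))
    (hT : ∀ F ∈ T, Cnd n F ∧ Ner n F θ ∧ FlatAt n F θ)
    (hD : ∀ F ∈ T, ∀ G ∈ T, Agr {n, n - 1, 1, 0} F G) : T.card ≤ 1 := by
  refine Finset.card_le_one.2 ?_
  intro F hF G hG
  obtain ⟨hcF, ⟨H, x, y, hH, hb, hl, hz, hd⟩, ⟨v, hv, hv0⟩⟩ := hT F hF
  obtain ⟨hcG, -, ⟨w, hw, hw0⟩⟩ := hT G hG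
  have hA := hD F hF G hG
  have h2 : TopT 2 n (arrM F) (arrM G) := by
    intro i j h1 h2
    refine hA i j ?_
    rcases (by omega : i + j = n ∨ i + j = n - 1) with h | h
    · rw [h]; simp
    · rw [h]; simp
  have h3 : TopT 2 n (nf n F) (nf n G) := topT_nf (by norm_num) h2
  obtain ⟨hm, hdg, hc⟩ := hd.norml.lead_props
  obtain ⟨O⟩ := exists_ord ℝ hn hd.norml.hQ hm hdg hc hd.irr θ hd.root
  have h4 : TopT (n - 2 + 1) n (nf n F) (nf n G) :=
    det_all O hd.norml (r := n - 2) (by omega) h3 hv hw hv0 hw0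
  have ha := lead_ne_zero (by omega : 2 ≤ n) hcF.irr
  have hab : arrM F 0 n = arrM G 0 n := h2 0 n (by omega) (by omega)
  have h5 : TopT (n - 2 + 1) n (arrM F) (arrM G) := topT_of_nf ha hab h4
  refine arrM_inj ?_
  funext i j
  rcases Nat.lt_or_ge n (i + j) with h | h
  · rw [arrM_supp hcF.deg i j h, arrM_supp hcG.deg i j h]
  · rcases Nat.lt_or_ge (i + j) 2 with h' | h'
    · refine hA i j ?_
      rcases (by omega : i + j = 1 ∨ i + j = 0) with h6 | h6
      · rw [h6]; simp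
      · rw [h6]; simp
    · exact h5 i j h (by omega)

end Pool.Agent.H15.FX
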