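import Pool.Agent.H15.FX.NRM

/-!
# FON: flex order `1`: at most `39 n^2` members for each root

If `T` is empty: trivial. Fix `G ∈ T`, `a = arrM G 0 n`, the same for all members (`TopT 4`), `f = lf n G`
the same for all members. For `F ∈ T` choose `H, x, y` (`Ner`), let `P F = (x, a y)`.
`P` is injective on `T`: `P F = P F'` gives the same `x, y` (`a ≠ 0`), then `shared_point`
(as in `total_exceptions` of `H72/ES/Total`, with `max H H'`; `600 n^5 ≤ 5300000 n^6`; `Top4` and `TopT 4`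
are the same statement; `arrM_inj`, `eval_arrM`, `arrM_supp`, `leadQ_of_irreducible`). So `T.card =
(T.image P).card ≤ 39 n^2` by `class_total` with `G := nf n G`: `BigAt n f (nf n G) θ (P F) (2 H^n)
(nf n F)` from `Dat` (`topT_nf`; `bb^(600000 n^2) ≤ bb^(600000 n^3)`, `one_le_bb`).
-/

set_option autoImplicit false

namespace Pool.Agent.H15.FX

open Finset Polynomial Pool.Agent.H72.ES Pool.Agent.H8.UL

theorem fib_one {n : ℕ} (hn : 4 ≤ n) (θ : ℝ) (T : Finset (MvPolynomial (Fin 2) ℤ))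
    (hT : ∀ F ∈ T, Cnd n F ∧ Ner n F θ ∧ flexv n (nf n F) θ ≠ 0)
    (hD : ∀ F ∈ T, ∀ G ∈ T, TopT 4 n (arrM F) (arrM G)) : T.card ≤ 39 * n ^ 2 := by
  classical
  rcases T.eq_empty_or_nonempty with rfl | ⟨G, hG⟩
  · simp
  have hch : ∀ F : MvPolynomial (Fin 2) ℤ, ∃ q : ℕ × ℤ × ℤ, F ∈ T →
      (2 ≤ q.1 ∧ (∀ m, |F.coeff m| ≤ (q.1 : ℤ)) ∧
        (q.1 : ℤ) ^ (5300000 * n ^ 6) < max |q.2.1| |q.2.2| ∧
        MvPolynomial.eval ![q.2.1, q.2.2] F = 0 ∧
        Dat n F θ (2 * q.1 ^ n) (q.2.1, arrM F 0 n * q.2.2)) := by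
    intro F
    by_cases hF : F ∈ T
    · obtain ⟨H, x, y, h1, h2, h3, h4, h5⟩ := (hT F hF).2.1
      exact ⟨(H, x, y), fun _ => ⟨h1, h2, h3, h4, h5⟩⟩
    · exact ⟨(0, 0, 0), fun h => absurd h hF⟩
  choose q hq using hch
  obtain ⟨P, hP⟩ : ∃ P : MvPolynomial (Fin 2) ℤ → ℤ × ℤ,
      ∀ F, P F = ((q F).2.1, arrM F 0 n * (q F).2.2) := ⟨_, fun _ => rfl⟩
  have hGa : arrM G 0 n ≠ 0 ∧ Irreducible (leadQ n (arrM G)) :=
    (hT G hG).1.irr
  have ha : ∀ F ∈ T, arrM F 0 n = arrM G 0 n := fun F hF =>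
    hD F hF G hG 0 n (by omega) (by omega)
  have hinj : Set.InjOn P T := by
    intro F hF F' hF' he
    have hF1 : F ∈ T := hF
    have hF2 : F' ∈ T := hF'
    rw [hP, hP, ha F hF1, ha F' hF2, Prod.mk.injEq] at he
    have hx : (q F).2.1 = (q F').2.1 := he.1
    have hy : (q F).2.2 = (q F').2.2 := mul_left_cancel₀ hGa.1 he.2
    obtain ⟨hH1, hb1, hl1, hz1, -⟩ := hq F hF1
    obtain ⟨hH2, hb2, hl2, hz2, -⟩ := hq F' hF2
    have hxy : (q F).2 = (q F').2 := Prod.ext hx hy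
    have key : ∀ H : ℕ, (H : ℤ) ^ (5300000 * n ^ 6) < max |(q F).2.1| |(q F).2.2| → 2 ≤ H →
        (H : ℤ) ^ (600 * n ^ 5) < max |(q F).2.1| |(q F).2.2| := by
      intro H hH h2
      refine lt_of_le_of_lt ?_ hH
      refine pow_le_pow_right₀ (by exact_mod_cast (by omega : 1 ≤ H)) ?_
      calc 600 * n ^ 5 ≤ 5300000 * (n ^ 5 * n) := by
            refine Nat.mul_le_mul (by norm_num) (Nat.le_mul_of_pos_right _ (by omega))
        _ = 5300000 * n ^ 6 := by ring
    have h1 : arrM F = arrM F' := by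
      refine shared_point (H := max (q F).1 (q F').1) hn (le_max_of_le_left hH1) (arrM G)
        hGa.1 hGa.2 (arrM F) (arrM F')
        (fun i j _ => ((hb1 _).trans (by exact_mod_cast le_max_left _ _)))
        (fun i j _ => ((hb2 _).trans (by exact_mod_cast le_max_right _ _)))
        (hD F hF1 G hG) (hD F' hF2 G hG)
        (arrM_supp (hT F hF1).1.deg) (arrM_supp (hT F' hF2).1.deg) (q F).2 ?_ ?_ ?_
      · rcases max_choice (q F).1 (q F').1 with h | h
        · rw [h]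
          exact key (q F).1 hl1 hH1
        · rw [h]
          refine key (q F').1 ?_ hH2
          rw [hxy]
          exact hl2
      · rw [← eval_arrM (hT F hF1).1.deg]
        exact hz1
      · rw [hxy, ← eval_arrM (hT F' hF2).1.deg]
        exact hz2
    exact arrM_inj h1
  rw [← card_image_of_injOn hinj]
  have hDG := (hq G hG).2.2.2.2
  refine class_total (f := lf n G) (θ := θ) (G := nf n G) hn hDG.irr hDG.root (hT G hG).2.2 _ ?_
  intro R hR
  obtain ⟨F, hF, rfl⟩ := mem_image.1 hR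
  have hDF := (hq F hF).2.2.2.2
  have htop := topT_nf (by norm_num : 1 ≤ 4) (hD F hF G hG)
  have hlf : lf n F = lf n G := by
    unfold lf lead
    refine sum_congr rfl fun j hj => ?_
    rw [mem_range] at hj
    rw [htop (n - j) j (by omega) (by omega)]
  rw [hP]
  refine ⟨2 * (q F).1 ^ n, nf n F, ⟨hlf ▸ hDF.norml, htop, hDF.zero, hDF.near, ?_⟩⟩
  refine le_trans ?_ hDF.big
  refine pow_le_pow_right₀ (one_le_bb hn hDF.norml.hQ) ?_
  exact Nat.mul_le_mul_left _ (Nat.pow_le_pow_right (by omega) (by norm_num))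

end Pool.Agent.H15.FX
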