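import Pool.Agent.H15.FX.DET
import Pool.Agent.H72.ES.Bridge

/-!
# NRM: normalisation

`nf n F = nrm n (arrM F)` (monic in `y`), `lf n F = lead n (nf n F)`, `E n = 5300000 n^6`.
`Dat n F θ Q P`: `P` is a huge point of the normalised curve near the root `θ`.

`exists_dat`: as in `main_total`, `family_total` (`H72/ES/Total`): `Q = 2 H^n`,
`P' = (P.1, a P.2)`, `a = arrM F 0 n` (`leadQ_of_irreducible` gives `a ≠ 0` and
`Irreducible (leadQ ..)`, then `lead_nrm_irreducible`), `norml_nrm`, `ev_nrm`, `eval_arrM`,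
`far_pointB` with `B = bb ^ (600000 n^3)`, `near_improve`. The threshold:
`Q^2 bb^(600000 n^3) = Q^(2 + 4200000 n^5) ≤ H^((n+1)(2+4200000 n^5)) ≤ H^(5300000 n^6)` as
`threshold_total`.

`topT_nf`: `nrm n F i j` is `1` if `j = n` and `a^(n-1-j) F i j` else, `a = F 0 n`, the same `a` for
both (`T ≥ 1`). `topT_of_nf`: conversely divide by `a ≠ 0` (for `j = n`: `i = 0`, the value is `a`).
-/

set_option autoImplicit false

namespace Pool.Agent.H15.FX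

open Finset Polynomial Pool.Agent.H72.ES Pool.Agent.H8.UL

/-- the normalised array -/
noncomputable def nf (n : ℕ) (F : MvPolynomial (Fin 2) ℤ) : ℕ → ℕ → ℤ := nrm n (arrM F)

/-- its leading polynomial -/
noncomputable def lf (n : ℕ) (F : MvPolynomial (Fin 2) ℤ) : ℤ[X] := lead n (nf n F)

/-- the leading form is irreducible over `ℚ` (`irL_of_form`) -/
def IrL (n : ℕ) (F : MvPolynomial (Fin 2) ℤ) : Prop :=
  arrM F 0 n ≠ 0 ∧ Irreducible (leadQ n (arrM F))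

theorem irL_of_form {n : ℕ} (hn : 2 ≤ n) {F : MvPolynomial (Fin 2) ℤ}
    (h : Irreducible (MvPolynomial.map (Int.castRingHom ℚ)
      (MvPolynomial.homogeneousComponent n F))) : IrL n F := leadQ_of_irreducible hn h

/-- a zero larger than `H ^ (5300000 n^6)` for a bound `H ≥ 2` of the coefficients -/
def Hug (n : ℕ) (F : MvPolynomial (Fin 2) ℤ) : Prop :=
  ∃ H : ℕ, 2 ≤ H ∧ (∀ m, |F.coeff m| ≤ (H : ℤ)) ∧ ∃ x y : ℤ,
    (H : ℤ) ^ (5300000 * n ^ 6) < max |x| |y| ∧ MvPolynomial.eval ![x, y] F = 0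

/-- `P` is a huge zero of the normalised curve near `θ` -/
structure Dat (n : ℕ) (F : MvPolynomial (Fin 2) ℤ) (θ : ℝ) (Q : ℕ) (P : ℤ × ℤ) : Prop where
  norml : Norml n Q (lf n F) (nf n F)
  irr : Irreducible (lf n F)
  root : aeval θ (lf n F) = 0
  zero : ev n (nf n F) P.1 P.2 = 0
  near : |(P.2 : ℝ) / P.1 - θ| ≤ bb n Q ^ 4 / |(P.1 : ℝ)|
  big : bb n Q ^ (600000 * n ^ 3) ≤ |(P.1 : ℝ)|

/-- total degree at most `n`, irreducible leading form, a huge zero -/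
structure Cnd (n : ℕ) (F : MvPolynomial (Fin 2) ℤ) : Prop where
  deg : F.totalDegree ≤ n
  irr : IrL n F
  hug : Hug n F

/-- a huge zero near `θ`, with the bound `H` of the coefficients -/
def Ner (n : ℕ) (F : MvPolynomial (Fin 2) ℤ) (θ : ℝ) : Prop :=
  ∃ (H : ℕ) (x y : ℤ), 2 ≤ H ∧ (∀ m, |F.coeff m| ≤ (H : ℤ)) ∧
    (H : ℤ) ^ (5300000 * n ^ 6) < max |x| |y| ∧ MvPolynomial.eval ![x, y] F = 0 ∧
    Dat n F θ (2 * H ^ n) (x, arrM F 0 n * y)

/-- agreement of the terms whose degree is in `D` -/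
def Agr (D : Finset ℕ) (F G : MvPolynomial (Fin 2) ℤ) : Prop :=
  ∀ i j, i + j ∈ D → arrM F i j = arrM G i j

/-- flex order exactly `r` at `θ` -/
def FlxAt (n r : ℕ) (F : MvPolynomial (Fin 2) ℤ) (θ : ℝ) : Prop :=
  ∃ v, Xp n (nf n F) θ v ∧ Flx r v

/-- the coefficients `2, .., n - 2` of the expansion vanish -/
def FlatAt (n : ℕ) (F : MvPolynomial (Fin 2) ℤ) (θ : ℝ) : Prop :=
  ∃ v, Xp n (nf n F) θ v ∧ ∀ k, 2 ≤ k → k ≤ n - 2 → PowerSeries.coeff k v = 0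

private theorem nrm_thr {n H : ℕ} (hn : 4 ≤ n) (hH : 2 ≤ H) :
    (((2 * H ^ n : ℕ) : ℝ)) ^ 2 * bb n (2 * H ^ n) ^ (600000 * n ^ 3) ≤
      (H : ℝ) ^ (5300000 * n ^ 6) := by
  have hHR : (1 : ℝ) ≤ H := by exact_mod_cast (by omega : 1 ≤ H)
  have hQH : ((2 * H ^ n : ℕ) : ℝ) ≤ (H : ℝ) ^ (n + 1) := by
    push_cast
    have : (2 : ℝ) ≤ H := by exact_mod_cast hH
    calc 2 * (H : ℝ) ^ n ≤ H * (H : ℝ) ^ n := by gcongr
      _ = (H : ℝ) ^ (n + 1) := by ring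
  unfold bb
  set Q : ℝ := ((2 * H ^ n : ℕ) : ℝ) with hQ
  have hQ0 : (0 : ℝ) ≤ Q := Nat.cast_nonneg _
  calc Q ^ 2 * (Q ^ (7 * n ^ 2)) ^ (600000 * n ^ 3) = Q ^ (2 + 4200000 * n ^ 5) := by
        rw [← pow_mul, ← pow_add]
        congr 1
        ring
    _ ≤ ((H : ℝ) ^ (n + 1)) ^ (2 + 4200000 * n ^ 5) := pow_le_pow_left₀ hQ0 hQH _
    _ = (H : ℝ) ^ ((n + 1) * (2 + 4200000 * n ^ 5)) := by rw [← pow_mul]
    _ ≤ (H : ℝ) ^ (5300000 * n ^ 6) := by
        refine pow_le_pow_right₀ hHR ?_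
        have h3 : 4 * (n + 1) ≤ 5 * n := by omega
        have h4 : 2 + 4200000 * n ^ 5 ≤ 4200001 * n ^ 5 := by
          have : 2 ≤ n ^ 5 := by
            calc 2 ≤ 4 ^ 5 := by norm_num
              _ ≤ n ^ 5 := Nat.pow_le_pow_left hn 5
          omega
        have h5 : 4 * ((n + 1) * (2 + 4200000 * n ^ 5)) ≤ 4 * (5300000 * n ^ 6) := by
          calc 4 * ((n + 1) * (2 + 4200000 * n ^ 5)) =
                (4 * (n + 1)) * (2 + 4200000 * n ^ 5) := by ring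
            _ ≤ (5 * n) * (4200001 * n ^ 5) := Nat.mul_le_mul h3 h4
            _ = 21000005 * n ^ 6 := by ring
            _ ≤ 21200000 * n ^ 6 := Nat.mul_le_mul_right _ (by norm_num)
            _ = 4 * (5300000 * n ^ 6) := by ring
        omega

theorem exists_dat {n : ℕ} (hn : 4 ≤ n) (F : MvPolynomial (Fin 2) ℤ) (hd : F.totalDegree ≤ n)
    (hirr : IrL n F) (hb : Hug n F) :
    ∃ (H : ℕ) (x y : ℤ) (θ : ℝ), 2 ≤ H ∧ (∀ m, |F.coeff m| ≤ (H : ℤ)) ∧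
      (H : ℤ) ^ (5300000 * n ^ 6) < max |x| |y| ∧ MvPolynomial.eval ![x, y] F = 0 ∧
      Dat n F θ (2 * H ^ n) (x, arrM F 0 n * y) := by
  obtain ⟨ha, hirr'⟩ := hirr
  obtain ⟨H, hH, hc, x, y, hbig, h0⟩ := hb
  have hN : Norml n (2 * H ^ n) (lf n F) (nf n F) :=
    norml_nrm hn hH (fun _ _ _ _ => rfl) (fun i j _ => hc _)
  have hir : Irreducible (lf n F) := lead_nrm_irreducible (by omega : 1 ≤ n) (arrM F) ha hirr'
  have hz : ev n (nf n F) x (arrM F 0 n * y) = 0 := by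
    have h1 := ev_nrm (by omega : 1 ≤ n) (arrM F) x y
    rw [← eval_arrM hd, h0, mul_zero] at h1
    exact h1
  have hmax : max |x| |y| ≤ max |x| |arrM F 0 n * y| := by
    refine max_le_max le_rfl ?_
    rw [abs_mul]
    have : 1 ≤ |arrM F 0 n| := Int.one_le_abs ha
    nlinarith [abs_nonneg y]
  have hb1 := one_le_bb hn hN.hQ
  have hB : bb n (2 * H ^ n) ^ (n + 3) ≤ bb n (2 * H ^ n) ^ (600000 * n ^ 3) := by
    refine pow_le_pow_right₀ hb1 ?_
    have h1 : n ≤ n ^ 3 := Nat.le_self_pow (by norm_num) n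
    omega
  have hthr : (((2 * H ^ n : ℕ) : ℝ)) ^ 2 * bb n (2 * H ^ n) ^ (600000 * n ^ 3) ≤
      ((max |x| |arrM F 0 n * y| : ℤ) : ℝ) := by
    have h2 : (((H : ℤ) ^ (5300000 * n ^ 6) : ℤ) : ℝ) ≤ ((max |x| |arrM F 0 n * y| : ℤ) : ℝ) := by
      exact_mod_cast (hbig.le.trans hmax)
    refine le_trans (nrm_thr hn hH) ?_
    push_cast at h2 ⊢
    exact h2
  obtain ⟨hx, θ, hθ, hnear⟩ := far_pointB hN hir x (arrM F 0 n * y) (by rw [hz]; simp) _ hB hthr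
  obtain ⟨hm', hd', hc'⟩ := hN.lead_props
  obtain ⟨O⟩ := exists_ord ℝ hn hN.hQ hm' hd' hc' hir θ hθ
  have h20 : bb n (2 * H ^ n) ^ 20 ≤ |(x : ℝ)| := by
    refine (pow_le_pow_right₀ hb1 ?_).trans hx
    have h1 : 1 ≤ n ^ 3 := Nat.one_le_pow _ _ (by omega)
    omega
  exact ⟨H, x, y, θ, hH, hc, hbig, h0, hN, hir, hθ, hz,
    near_improve hN O x (arrM F 0 n * y) h20 hnear hz, hx⟩

theorem lead_ne_zero {n : ℕ} (_hn : 2 ≤ n) {F : MvPolynomial (Fin 2) ℤ} (hirr : IrL n F) :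
    arrM F 0 n ≠ 0 := hirr.1

theorem topT_nf {T n : ℕ} (hT : 1 ≤ T) {F G : MvPolynomial (Fin 2) ℤ}
    (h : TopT T n (arrM F) (arrM G)) : TopT T n (nf n F) (nf n G) := by
  intro i j hij hT'
  have h0 : arrM F 0 n = arrM G 0 n := h 0 n (by omega) (by omega)
  unfold nf
  by_cases hj : j = n
  · simp [nrm, hj]
  · simp only [nrm, hj, if_false]
    rw [h0, h i j hij hT']

theorem topT_of_nf {T n : ℕ} {F G : MvPolynomial (Fin 2) ℤ}
    (ha : arrM F 0 n ≠ 0) (hab : arrM F 0 n = arrM G 0 n)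
    (h : TopT T n (nf n F) (nf n G)) : TopT T n (arrM F) (arrM G) := by
  intro i j hij hT'
  by_cases hj : j = n
  · have hi : i = 0 := by omega
    rw [hi, hj]
    exact hab
  · have h1 := h i j hij hT'
    unfold nf at h1
    simp only [nrm, hj, if_false] at h1
    rw [← hab] at h1
    exact mul_left_cancel₀ (pow_ne_zero _ ha) h1

end Pool.Agent.H15.FX
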