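import Pool.Agent.H15.FX.CLT
import Pool.Agent.H15.FX.NRM

/-!
# FRR: flex order `r ≥ 2`: at most `39 n^2` members for each root

As in `FON`, with `class_R` (`BigR` from `Dat`). Fix `G ∈ T`, `f = lf n G` (the same for all members).
For `F ∈ T`: `TopT 2 n (nf n F) (nf n G)` (terms of degree `n, n - 1`, `topT_nf`), so by `det_all`
(`r ≤ n`; `O` from `exists_ord` with the `Q` of `F`; the expansions of `FlxAt`, `Flx.zero`)
`TopT (r+1) n (nf n F) (nf n G)`, `topT_of_nf` gives it for `arrM`, together with the terms of degree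
`n - 1 - r`, `n - 2 - r`: `TopT (r+3) n (arrM F) (arrM G)`, and so for `nf`. The expansion of `G` at
`θ` is the one of `FlxAt n r G θ`. `shared_point` (only needs `Top4`, `4 ≤ r + 3`) for the
injectivity of `F ↦ P F`.
-/

set_option autoImplicit false

namespace Pool.Agent.H15.FX

open Finset Polynomial Pool.Agent.H72.ES Pool.Agent.H8.UL

theorem fib_R {n r : ℕ} (hr : 2 ≤ r) (hrn : r + 3 ≤ n) (θ : ℝ)
    (T : Finset (MvPolynomial (Fin 2) ℤ))
    (hT : ∀ F ∈ T, Cnd n F ∧ Ner n F θ ∧ FlxAt n r F θ)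
    (hD : ∀ F ∈ T, ∀ G ∈ T, Agr {n, n - 1, n - 1 - r, n - 2 - r} F G) : T.card ≤ 39 * n ^ 2 := by
  classical
  have hn : 4 ≤ n := by omega
  rcases T.eq_empty_or_nonempty with hTe | ⟨G, hG⟩
  · rw [hTe]; simp
  -- all members agree in the terms of degree `≥ n - 2 - r`
  have htop : ∀ F ∈ T, ∀ F' ∈ T, TopT (r + 3) n (arrM F) (arrM F') := by
    intro F hF F' hF'
    obtain ⟨hcF, ⟨H, x, y, hH, hb, hl, hz, hd⟩, ⟨v, hv, hv0⟩⟩ := hT F hF
    obtain ⟨hcG, -, ⟨w, hw, hw0⟩⟩ := hT F' hF'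
    have hA := hD F hF F' hF'
    have h2 : TopT 2 n (arrM F) (arrM F') := by
      intro i j h1 h2
      refine hA i j ?_
      rcases (by omega : i + j = n ∨ i + j = n - 1) with h | h
      · rw [h]; simp
      · rw [h]; simp
    have h3 : TopT 2 n (nf n F) (nf n F') := topT_nf (by norm_num) h2
    obtain ⟨hm, hdg, hc⟩ := hd.norml.lead_props
    obtain ⟨O⟩ := exists_ord ℝ hn hd.norml.hQ hm hdg hc hd.irr θ hd.root
    have h4 : TopT (r + 1) n (nf n F) (nf n F') :=
      det_all O hd.norml (r := r) (by omega) h3 hv hw hv0.zero hw0.zero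
    have ha := lead_ne_zero (by omega : 2 ≤ n) hcF.irr
    have hab : arrM F 0 n = arrM F' 0 n := h2 0 n (by omega) (by omega)
    have h5 : TopT (r + 1) n (arrM F) (arrM F') := topT_of_nf ha hab h4
    intro i j h6 h7
    rcases Nat.lt_or_ge n (i + j + (r + 1)) with h | h
    · exact h5 i j h6 h
    · refine hA i j ?_
      rcases (by omega : i + j = n - 1 - r ∨ i + j = n - 2 - r) with h8 | h8
      · rw [h8]; simp
      · rw [h8]; simp
  obtain ⟨hcG, ⟨HG, xG, yG, hHG, hbG, hlG, hzG, hdG⟩, ⟨v, hv, hfl⟩⟩ := hT G hG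
  have ha : arrM G 0 n ≠ 0 := lead_ne_zero (by omega : 2 ≤ n) hcG.irr
  have hirr' := hcG.irr.2
  have hchoice : ∀ F : MvPolynomial (Fin 2) ℤ, ∃ q : ℕ × ℤ × ℤ, F ∈ T → 2 ≤ q.1 ∧
      (∀ m, |F.coeff m| ≤ (q.1 : ℤ)) ∧
      (q.1 : ℤ) ^ (5300000 * n ^ 6) < max |q.2.1| |q.2.2| ∧
      MvPolynomial.eval ![q.2.1, q.2.2] F = 0 ∧
      Dat n F θ (2 * q.1 ^ n) (q.2.1, arrM F 0 n * q.2.2) := by
    intro F
    by_cases hF : F ∈ T
    · obtain ⟨-, ⟨H, x, y, hH, hb, hl, hz, hd⟩, -⟩ := hT F hF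
      exact ⟨(H, x, y), fun _ => ⟨hH, hb, hl, hz, hd⟩⟩
    · exact ⟨(0, 0, 0), fun h => absurd h hF⟩
  choose q hq using hchoice
  have hlead : ∀ F ∈ T, arrM F 0 n = arrM G 0 n := fun F hF =>
    htop F hF G hG 0 n (by omega) (by omega)
  have htopnf : ∀ F ∈ T, TopT (r + 3) n (nf n F) (nf n G) := fun F hF =>
    topT_nf (by omega) (htop F hF G hG)
  have hlf : ∀ F ∈ T, lf n F = lf n G := by
    intro F hF
    unfold lf lead
    refine Finset.sum_congr rfl ?_
    intro j hj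
    have hj' : j ≤ n := by
      have := Finset.mem_range.1 hj
      omega
    rw [htopnf F hF (n - j) j (by omega) (by omega)]
  have hinj : Set.InjOn (fun F : MvPolynomial (Fin 2) ℤ =>
      (((q F).2.1, arrM F 0 n * (q F).2.2) : ℤ × ℤ)) T := by
    intro F hF F' hF' hFF'
    have hF1 : F ∈ T := hF
    have hF2 : F' ∈ T := hF'
    simp only [Prod.mk.injEq] at hFF'
    obtain ⟨e1, e2⟩ := hFF'
    rw [hlead F hF1, hlead F' hF2] at e2
    have e3 : (q F).2.2 = (q F').2.2 := mul_left_cancel₀ ha e2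
    obtain ⟨hH1, hb1, hl1, hz1, -⟩ := hq F hF1
    obtain ⟨hH2, hb2, hl2, hz2, -⟩ := hq F' hF2
    have key : ∀ H : ℕ, (H : ℤ) ^ (5300000 * n ^ 6) < max |(q F).2.1| |(q F).2.2| → 2 ≤ H →
        (H : ℤ) ^ (600 * n ^ 5) < max |(q F).2.1| |(q F).2.2| := by
      intro H hH h2
      refine lt_of_le_of_lt ?_ hH
      refine pow_le_pow_right₀ (by exact_mod_cast (by omega : 1 ≤ H)) ?_
      exact Nat.mul_le_mul (by norm_num) (Nat.pow_le_pow_right (by omega) (by norm_num))
    have ht4 : ∀ F ∈ T, Top4 n (arrM F) (arrM G) := by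
      intro F hF i j h1 h2
      exact htop F hF G hG i j h1 (by omega)
    refine arrM_inj ?_
    refine shared_point (H := max (q F).1 (q F').1) hn (le_max_of_le_left hH1) (arrM G) ha hirr'
        (arrM F) (arrM F')
        (fun i j _ => ((hb1 _).trans (by exact_mod_cast le_max_left (q F).1 (q F').1)))
        (fun i j _ => ((hb2 _).trans (by exact_mod_cast le_max_right (q F).1 (q F').1)))
        (ht4 F hF1) (ht4 F' hF2)
        (arrM_supp (hT F hF1).1.deg) (arrM_supp (hT F' hF2).1.deg) (q F).2 ?_ ?_ ?_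
    · rcases max_choice (q F).1 (q F').1 with h | h
      · rw [h]
        exact key _ hl1 hH1
      · rw [h]
        refine key _ ?_ hH2
        rw [e1, e3]
        exact hl2
    · rw [← eval_arrM (hT F hF1).1.deg]
      exact hz1
    · rw [e1, e3, ← eval_arrM (hT F' hF2).1.deg]
      exact hz2
  rw [← card_image_of_injOn hinj]
  refine class_R (G := nf n G) hn hdG.irr hdG.root hr hrn hv hfl _ ?_
  intro P hP
  obtain ⟨F, hF, rfl⟩ := mem_image.1 hP
  obtain ⟨hH, hb, hl, hz, hd⟩ := hq F hF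
  refine ⟨2 * (q F).1 ^ n, nf n F, ?_, htopnf F hF, hd.zero, hd.near, hd.big⟩
  rw [← hlf F hF]
  exact hd.norml

end Pool.Agent.H15.FX
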