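import Pool.Agent.H15.FX.FSP
import Pool.Agent.H15.FX.FON
import Pool.Agent.H15.FX.FRR
import Pool.Agent.H15.FX.FIF
import Pool.Agent.H15.FX.CNT

/-!
# FIN: curves with irreducible leading form: the exceptional set has dimension `4n - 2`

For all finite sets `A i j` of at most `s` integers, at most `39 n^4 s^(4n-2)` polynomials `F` of total
degree `≤ n`, coefficients in the `A i j`, have a leading form of degree `n` irreducible over `ℚ` and an
integer zero larger than `H^(5300000 n^6)`, `H ≥ 2` a bound of the coefficients of `F`.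

`cases_order`: `Dat` gives `Norml`, `exists_ord` (`Norml.lead_props`) an `O`, `exists_branch`,
`exists_xp` an expansion `v`. `coeff 2 v = κ φ(w_2)/κ^4` (`xp_coeff`), `φ w_2 = - flexv n (nf n F) θ` (see the
proof of `ga_lower`, `gaForm_coeffs`): so `flexv = 0` gives `coeff 2 v = 0`. If all `coeff k v`,
`2 ≤ k ≤ n - 2`, vanish: `FlatAt`. Otherwise the least `k` with `coeff k v ≠ 0` is `≥ 3`, `r = k - 1`.

`irr_count`: every `F ∈ S` has a root `θ` with `Ner n F θ` (`exists_dat`). `S ⊆ S1 ∪ ⋃_{2≤r≤n-3} S_r ∪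
S0` by `cases_order` (filters with `∃ θ, Ner n F θ ∧ ..`). `key_count` with `D = {n, n-1, n-2, n-3}`,
`{n, n-1, n-1-r, n-2-r}`, `{n, n-1, 1, 0}`: exponents `4n-2`, `4n-2r ≤ 4n-2`, `2n+4 ≤ 4n-2`; fibers by
`fib_split` and `fib_one` (`TopT 4` from `Agr`), `fib_R`, `fib_inf`: `39 n^3`, `39 n^3`, `n`. Sum:
`39 n^3 + (n-4) 39 n^3 + n ≤ 39 n^4`.
-/

set_option autoImplicit false

namespace Pool.Agent.H15.FX

open Finset Polynomial Pool.Agent.H72.ES Pool.Agent.H8.UL

/-- the classification of one member -/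
theorem cases_order {n : ℕ} (hn : 4 ≤ n) {F : MvPolynomial (Fin 2) ℤ} {θ : ℝ} (h : Ner n F θ) :
    flexv n (nf n F) θ ≠ 0 ∨ (∃ r, 2 ≤ r ∧ r + 3 ≤ n ∧ FlxAt n r F θ) ∨ FlatAt n F θ := by
  classical
  obtain ⟨H, x, y, -, -, -, -, hD⟩ := h
  obtain ⟨hm, hd, hc⟩ := hD.norml.lead_props
  obtain ⟨O⟩ := exists_ord ℝ hn hD.norml.hQ hm hd hc hD.irr θ hD.root
  obtain ⟨br⟩ := exists_branch O hD.norml
  obtain ⟨v, hv⟩ := exists_xp O hD.norml
  by_cases hfl : flexv n (nf n F) θ = 0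
  swap
  · exact Or.inl hfl
  right
  have h2 : PowerSeries.coeff 2 v = 0 := by
    rw [xp_coeff hD.norml br hv 2]
    have hφw : O.φ (PowerSeries.coeff 2 br.w) = -flexv n (nf n F) θ := by
      rw [gaForm_coeffs O hD.norml br]
      have h01 : O.φ O.κ = tc n (nf n F) θ 0 1 := by
        have : tc n (nf n F) O.α 0 1 = O.κ := by rw [tc_zero_one, hD.norml.lead_eq]; rfl
        rw [← this, tc_map, O.φ_α]
      simp only [map_neg, map_add, map_sub, map_mul, map_pow, h01, tc_map, O.φ_α]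
      unfold flexv
      ring
    rw [hφw, hfl, neg_zero, zero_mul, mul_zero]
  by_cases hall : ∀ k, 2 ≤ k → k ≤ n - 2 → PowerSeries.coeff k v = 0
  · exact Or.inr ⟨v, hv, hall⟩
  left
  have hex : ∃ k, 2 ≤ k ∧ k ≤ n - 2 ∧ PowerSeries.coeff k v ≠ 0 := by
    by_contra hcon
    apply hall
    intro k h3 h4
    by_contra h5
    exact hcon ⟨k, h3, h4, h5⟩
  obtain ⟨h3, h4, h5⟩ := Nat.find_spec hex
  have hmin : ∀ j, 2 ≤ j → j < Nat.find hex → PowerSeries.coeff j v = 0 := by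
    intro j hj2 hj
    by_contra hcon
    exact Nat.find_min hex hj ⟨hj2, by omega, hcon⟩
  generalize Nat.find hex = k at h3 h4 h5 hmin
  have hk3 : 3 ≤ k := by
    rcases Nat.lt_or_ge k 3 with h6 | h6
    · have : k = 2 := by omega
      subst this
      exact absurd h2 h5
    · exact h6
  refine ⟨k - 1, by omega, by omega, v, hv, ?_, ?_⟩
  · intro j hj2 hj
    exact hmin j hj2 (by omega)
  · rw [show k - 1 + 1 = k by omega]
    exact h5

/-- one class: the keys of the degrees in `D` -/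
private theorem class_count {n : ℕ} (hn : 4 ≤ n) (D : Finset ℕ) (hnD : n ∈ D)
    (hDn : ∀ d ∈ D, d ≤ n)
    (R : MvPolynomial (Fin 2) ℤ → ℝ → Prop) (K e : ℕ) (hDe : ∑ d ∈ D, (d + 1) ≤ e)
    (A : ℕ → ℕ → Finset ℤ) (s : ℕ) (hA : ∀ i j, (A i j).card ≤ s) (hs : 1 ≤ s)
    (S : Finset (MvPolynomial (Fin 2) ℤ))
    (hS : ∀ F ∈ S, (Cnd n F ∧ ∃ θ, Ner n F θ ∧ R F θ) ∧ ∀ i j, i + j ≤ n → arrM F i j ∈ A i j)
    (hK : ∀ (θ : ℝ) (T : Finset (MvPolynomial (Fin 2) ℤ)), (∀ F ∈ T, Cnd n F ∧ Ner n F θ ∧ R F θ) →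
      (∀ F ∈ T, ∀ G ∈ T, Agr D F G) → T.card ≤ K) :
    S.card ≤ n * K * s ^ e := by
  refine (key_count D A s (n * K) hA S (fun F hF i j hij => (hS F hF).2 i j (hDn _ hij)) ?_).trans
    (Nat.mul_le_mul_left _ (Nat.pow_le_pow_right hs hDe))
  intro T hTS hT
  refine fib_split hn K R T (fun F hF => (hS F (hTS hF)).1) ?_ ?_
  · intro F hF G hG i j hij
    rw [mem_singleton] at hij
    exact hT F hF G hG i j (hij ▸ hnD)
  · intro θ T' hT' hR
    refine hK θ T' (fun F hF => ⟨(hS F (hTS (hT' hF))).1.1, hR F hF⟩) ?_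
    intro F hF G hG i j hij
    exact hT F (hT' hF) G (hT' hG) i j hij

/-- arbitrary finite sets `A i j` of at most `s` coefficients -/
theorem irr_count {n : ℕ} (hn : 4 ≤ n) (A : ℕ → ℕ → Finset ℤ) (s : ℕ)
    (hA : ∀ i j, (A i j).card ≤ s) (S : Finset (MvPolynomial (Fin 2) ℤ))
    (hS : ∀ F ∈ S, Cnd n F ∧ ∀ i j, i + j ≤ n → arrM F i j ∈ A i j) :
    S.card ≤ 39 * n ^ 4 * s ^ (4 * n - 2) := by
  classical
  rcases Nat.eq_zero_or_pos s with hs0 | hs
  · have hemp : S = ∅ := by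
      apply eq_empty_of_forall_notMem
      intro F hF
      have h1 := (hS F hF).2 0 0 (by omega)
      have h2 := hA 0 0
      rw [hs0] at h2
      have h3 : A 0 0 = ∅ := card_eq_zero.1 (by omega)
      rw [h3] at h1
      exact absurd h1 (notMem_empty _)
    rw [hemp, card_empty]
    exact Nat.zero_le _
  set M : ℕ := s ^ (4 * n - 2) with hM
  -- order one
  have h1 : (S.filter fun F => ∃ θ, Ner n F θ ∧ flexv n (nf n F) θ ≠ 0).card ≤
      n * (39 * n ^ 2) * M := by
    refine class_count hn {n, n - 1, n - 2, n - 3} (by simp) (by simp only [mem_insert, mem_singleton]; omega) (fun F θ => flexv n (nf n F) θ ≠ 0)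
      (39 * n ^ 2) (4 * n - 2) ?_ A s hA hs _ ?_ ?_
    · rw [sum_insert (by simp only [mem_insert, mem_singleton]; omega),
        sum_insert (by simp only [mem_insert, mem_singleton]; omega),
        sum_insert (by simp only [mem_singleton]; omega), sum_singleton]
      omega
    · intro F hF
      rw [mem_filter] at hF
      exact ⟨⟨(hS F hF.1).1, hF.2⟩, (hS F hF.1).2⟩
    · intro θ T hT hD
      refine fib_one hn θ T hT ?_
      intro F hF G hG i j hij hij'
      refine hD F hF G hG i j ?_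
      simp only [mem_insert, mem_singleton]
      omega
  -- order r
  have h2 : ∀ r ∈ Icc 2 (n - 3), (S.filter fun F => ∃ θ, Ner n F θ ∧ FlxAt n r F θ).card ≤
      n * (39 * n ^ 2) * M := by
    intro r hr
    rw [mem_Icc] at hr
    refine class_count hn {n, n - 1, n - 1 - r, n - 2 - r} (by simp) (by simp only [mem_insert, mem_singleton]; omega) (fun F θ => FlxAt n r F θ)
      (39 * n ^ 2) (4 * n - 2) ?_ A s hA hs _ ?_ ?_
    · rw [sum_insert (by simp only [mem_insert, mem_singleton]; omega),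
        sum_insert (by simp only [mem_insert, mem_singleton]; omega),
        sum_insert (by simp only [mem_singleton]; omega), sum_singleton]
      omega
    · intro F hF
      rw [mem_filter] at hF
      exact ⟨⟨(hS F hF.1).1, hF.2⟩, (hS F hF.1).2⟩
    · intro θ T hT hD
      exact fib_R hr.1 (by omega) θ T hT hD
  -- flat
  have h3 : (S.filter fun F => ∃ θ, Ner n F θ ∧ FlatAt n F θ).card ≤ n * 1 * M := by
    refine class_count hn {n, n - 1, 1, 0} (by simp) (by simp only [mem_insert, mem_singleton]; omega) (fun F θ => FlatAt n F θ)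
      1 (4 * n - 2) ?_ A s hA hs _ ?_ ?_
    · rw [sum_insert (by simp only [mem_insert, mem_singleton]; omega),
        sum_insert (by simp only [mem_insert, mem_singleton]; omega),
        sum_insert (by simp only [mem_singleton]; omega), sum_singleton]
      omega
    · intro F hF
      rw [mem_filter] at hF
      exact ⟨⟨(hS F hF.1).1, hF.2⟩, (hS F hF.1).2⟩
    · intro θ T hT hD
      exact fib_inf hn θ T hT hD
  -- the cover
  have hsub : S ⊆ (S.filter fun F => ∃ θ, Ner n F θ ∧ flexv n (nf n F) θ ≠ 0) ∪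
      ((Icc 2 (n - 3)).biUnion fun r => S.filter fun F => ∃ θ, Ner n F θ ∧ FlxAt n r F θ) ∪
      (S.filter fun F => ∃ θ, Ner n F θ ∧ FlatAt n F θ) := by
    intro F hF
    obtain ⟨H, x, y, θ, hN⟩ := exists_dat hn F (hS F hF).1.deg (hS F hF).1.irr (hS F hF).1.hug
    have hNer : Ner n F θ := ⟨H, x, y, hN⟩
    rw [mem_union, mem_union]
    rcases cases_order hn hNer with h | ⟨r, hr1, hr2, hr3⟩ | h
    · exact Or.inl (Or.inl (mem_filter.2 ⟨hF, θ, hNer, h⟩))
    · refine Or.inl (Or.inr (mem_biUnion.2 ⟨r, mem_Icc.2 ⟨hr1, by omega⟩,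
        mem_filter.2 ⟨hF, θ, hNer, hr3⟩⟩))
    · exact Or.inr (mem_filter.2 ⟨hF, θ, hNer, h⟩)
  have h4 : ((Icc 2 (n - 3)).biUnion fun r =>
      S.filter fun F => ∃ θ, Ner n F θ ∧ FlxAt n r F θ).card ≤ (n - 4) * (n * (39 * n ^ 2) * M) := by
    refine card_biUnion_le.trans ((sum_le_sum h2).trans ?_)
    rw [sum_const, Nat.card_Icc, smul_eq_mul]
    exact Nat.mul_le_mul_right _ (by omega)
  have h5 := (card_le_card hsub).trans ((card_union_le _ _).trans
    (Nat.add_le_add ((card_union_le _ _).trans (Nat.add_le_add h1 h4)) h3))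
  refine h5.trans ?_
  obtain ⟨m, rfl⟩ : ∃ m, n = m + 4 := ⟨n - 4, by omega⟩
  rw [show m + 4 - 4 = m by omega]
  have h6 : (m + 4) * (39 * (m + 4) ^ 2) + m * ((m + 4) * (39 * (m + 4) ^ 2)) + (m + 4) * 1 ≤
      39 * (m + 4) ^ 4 := by
    nlinarith [Nat.zero_le m, Nat.zero_le (m ^ 2), Nat.zero_le (m ^ 3)]
  calc (m + 4) * (39 * (m + 4) ^ 2) * M + m * ((m + 4) * (39 * (m + 4) ^ 2) * M) + (m + 4) * 1 * M
      = ((m + 4) * (39 * (m + 4) ^ 2) + m * ((m + 4) * (39 * (m + 4) ^ 2)) + (m + 4) * 1) * M := by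
        ring
    _ ≤ 39 * (m + 4) ^ 4 * M := Nat.mul_le_mul_right _ h6

end Pool.Agent.H15.FX
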