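import Pool.Agent.H15.FX.NRM

/-!
# FSP: split by the root at infinity

All members have the same `lf n F =: f` (`lf n F` only depends on the terms of degree `n`: `nrm` of a
term of degree `n` involves that term and `arrM F 0 n`). If `S` is empty: trivial. The real roots of
`f` (not `0`: irreducible) are at most `n` (`Polynomial.card_roots'`, `f` monic of degree `n`,
`Norml.lead_props`), see `family_total` in `H72/ES/Total`. `S ⊆ rts.biUnion fun θ => S.filter
(fun F => Ner n F θ ∧ R F θ)` (classical), each part `≤ K`.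
-/

set_option autoImplicit false

namespace Pool.Agent.H15.FX

open Finset Polynomial Pool.Agent.H72.ES Pool.Agent.H8.UL

theorem fib_split {n : ℕ} (hn : 4 ≤ n) (K : ℕ) (R : MvPolynomial (Fin 2) ℤ → ℝ → Prop)
    (S : Finset (MvPolynomial (Fin 2) ℤ)) (hS : ∀ F ∈ S, Cnd n F ∧ ∃ θ, Ner n F θ ∧ R F θ)
    (hD : ∀ F ∈ S, ∀ G ∈ S, Agr {n} F G)
    (hK : ∀ (θ : ℝ) (T : Finset (MvPolynomial (Fin 2) ℤ)), T ⊆ S →
      (∀ F ∈ T, Ner n F θ ∧ R F θ) → T.card ≤ K) : S.card ≤ n * K := by
  classical
  by_cases hne : S.Nonempty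
  · obtain ⟨F0, hF0⟩ := hne
    have hlf : ∀ F ∈ S, lf n F = lf n F0 := by
      intro F hF
      have hag := hD F hF F0 hF0
      have ha : arrM F 0 n = arrM F0 0 n := hag 0 n (by simp)
      unfold lf nf lead
      refine sum_congr rfl fun j hj => ?_
      have hj' : j ≤ n := Nat.lt_succ_iff.1 (mem_range.1 hj)
      have h1 : nrm n (arrM F) (n - j) j = nrm n (arrM F0) (n - j) j := by
        unfold nrm
        rw [ha, hag (n - j) j (by rw [mem_singleton]; omega)]
      rw [h1]
    obtain ⟨-, θ0, ⟨H0, x0, y0, -, -, -, -, hdat0⟩, -⟩ := hS F0 hF0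
    obtain ⟨hm, hd, hc⟩ := hdat0.norml.lead_props
    set f := lf n F0 with hf
    set rts : Finset ℝ := (f.map (Int.castRingHom ℝ)).roots.toFinset with hrts
    have hmR : (f.map (Int.castRingHom ℝ)).Monic := hm.map _
    have hcard : rts.card ≤ n := by
      calc rts.card ≤ Multiset.card (f.map (Int.castRingHom ℝ)).roots :=
            Multiset.toFinset_card_le _
        _ ≤ (f.map (Int.castRingHom ℝ)).natDegree := Polynomial.card_roots' _
        _ = n := by rw [hm.natDegree_map, hd]
    have hmem : ∀ θ : ℝ, aeval θ f = 0 → θ ∈ rts := by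
      intro θ hθ
      rw [hrts, Multiset.mem_toFinset, mem_roots hmR.ne_zero, IsRoot.def, eval_map,
        ← algebraMap_int_eq, ← aeval_def]
      exact hθ
    have hsub : S ⊆ rts.biUnion fun θ => S.filter (fun F => Ner n F θ ∧ R F θ) := by
      intro F hF
      obtain ⟨-, θ, hner, hR⟩ := hS F hF
      refine mem_biUnion.2 ⟨θ, ?_, mem_filter.2 ⟨hF, hner, hR⟩⟩
      obtain ⟨H, x, y, -, -, -, -, hdat⟩ := hner
      apply hmem
      rw [← hlf F hF]
      exact hdat.root
    calc S.card ≤ ∑ θ ∈ rts, (S.filter (fun F => Ner n F θ ∧ R F θ)).card :=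
          (card_le_card hsub).trans card_biUnion_le
      _ ≤ ∑ θ ∈ rts, K := sum_le_sum fun θ _ =>
          hK θ _ (filter_subset _ _) (fun F hF => (mem_filter.1 hF).2)
      _ = rts.card * K := by rw [sum_const, smul_eq_mul]
      _ ≤ n * K := Nat.mul_le_mul_right _ hcard
  · rw [not_nonempty_iff_eq_empty] at hne
    rw [hne]
    simp

end Pool.Agent.H15.FX
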