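import Pool.Agent.H15.FX.Defs

/-!
# SUM: second differences of `x^(-r)`

`a = 1/x1 > b = 1/x2 > c = 1/x3 > 0`. `slope_diff`: `b^r - a^r = -(a-b) ∑_{k<r} a^k b^(r-1-k)`
(`Commute.geom_sum₂_mul`), `x2 - x1 = (a - b)/(a b)`: the slope between `x1` and `x2` is
`-∑_{k<r} a^(k+1) b^(r-k)`, the one between `x2` and `x3` is `-∑_{k<r} c^(k+1) b^(r-k)` (after
reversing the sum, `Finset.sum_range_reflect`). Their difference is `SS r a b c`.

`SS_lower`: all terms are nonnegative, the term `k = 0` is `b^r (a - c)`.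

`SS_succ`: `SS (r+1) = ∑_{k<r} b * (b^(r-k) (..)) + b (a^(r+1) - c^(r+1))`, and
`a^(r+1) - c^(r+1) = (a^r - c^r)(a + c) - a c (a^(r-1) - c^(r-1)) ≤ 2 a (a^r - c^r)`,
`b (a^r - c^r)` is the term `k = r-1` of `SS r`: `SS (r+1) ≤ b SS r + 2 a SS r ≤ 3 a SS r`.
-/

set_option autoImplicit false

namespace Pool.Agent.H15.FX

open Finset

private theorem slope_aux (r : ℕ) {x y : ℝ} (hx : 0 < x) (hy : 0 < y) (hxy : x ≠ y) :
    ((1 / y) ^ r - (1 / x) ^ r) / (y - x) =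
      -∑ k ∈ range r, (1 / y) ^ (r - k) * (1 / x) ^ (k + 1) := by
  have h1 : y - x ≠ 0 := sub_ne_zero.mpr (Ne.symm hxy)
  rw [div_eq_iff h1]
  have h2 : ∑ k ∈ range r, (1 / y) ^ (r - k) * (1 / x) ^ (k + 1) =
      (1 / x) * (1 / y) * ∑ k ∈ range r, (1 / x) ^ k * (1 / y) ^ (r - 1 - k) := by
    rw [Finset.mul_sum]
    refine Finset.sum_congr rfl fun k hk => ?_
    have hk' := Finset.mem_range.1 hk
    have h3 : r - k = (r - 1 - k) + 1 := by omega
    rw [h3, pow_succ, pow_succ]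
    ring
  have h4 : (1 / x) * (1 / y) * (y - x) = 1 / x - 1 / y := by
    field_simp
  have h5 := geom_sum₂_mul (1 / x) (1 / y) r
  rw [h2]
  calc (1 / y) ^ r - (1 / x) ^ r = -((1 / x) ^ r - (1 / y) ^ r) := by ring
    _ = -((∑ k ∈ range r, (1 / x) ^ k * (1 / y) ^ (r - 1 - k)) * (1 / x - 1 / y)) := by rw [h5]
    _ = -((∑ k ∈ range r, (1 / x) ^ k * (1 / y) ^ (r - 1 - k)) *
          ((1 / x) * (1 / y) * (y - x))) := by rw [h4]
    _ = -((1 / x) * (1 / y) * ∑ k ∈ range r, (1 / x) ^ k * (1 / y) ^ (r - 1 - k)) *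
          (y - x) := by ring

theorem slope_diff (r : ℕ) {x1 x2 x3 : ℝ} (h1 : 0 < x1) (h2 : x1 < x2) (h3 : x2 < x3) :
    ((1 / x3) ^ r - (1 / x2) ^ r) / (x3 - x2) - ((1 / x2) ^ r - (1 / x1) ^ r) / (x2 - x1) =
      SS r (1 / x1) (1 / x2) (1 / x3) := by
  have hx2 : 0 < x2 := h1.trans h2
  have hx3 : 0 < x3 := hx2.trans h3
  have h4 : ((1 / x3) ^ r - (1 / x2) ^ r) / (x3 - x2) =
      ((1 / x2) ^ r - (1 / x3) ^ r) / (x2 - x3) := by
    rw [← neg_sub ((1 / x2) ^ r) ((1 / x3) ^ r), ← neg_sub x2 x3, neg_div_neg_eq]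
  rw [h4, slope_aux r hx3 hx2 h3.ne', slope_aux r h1 hx2 h2.ne, SS]
  rw [neg_sub_neg, ← Finset.sum_sub_distrib]
  refine Finset.sum_congr rfl fun k _ => ?_
  ring

private theorem SS_nonneg {a b c : ℝ} (hc : 0 < c) (hb : c < b) (ha : b < a) (r k : ℕ) :
    0 ≤ b ^ (r - k) * (a ^ (k + 1) - c ^ (k + 1)) := by
  have h1 : c ^ (k + 1) ≤ a ^ (k + 1) := pow_le_pow_left₀ hc.le (hb.trans ha).le _
  have h2 : 0 < b := hc.trans hb
  exact mul_nonneg (pow_pos h2 _).le (sub_nonneg.mpr h1)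

theorem SS_lower {r : ℕ} (hr : 1 ≤ r) {a b c : ℝ} (hc : 0 < c) (hb : c < b) (ha : b < a) :
    b ^ r * (a - c) ≤ SS r a b c := by
  have h1 := Finset.single_le_sum (f := fun k => b ^ (r - k) * (a ^ (k + 1) - c ^ (k + 1)))
    (fun k _ => SS_nonneg hc hb ha r k) (Finset.mem_range.2 (show 0 < r by omega))
  simp only [Nat.sub_zero, zero_add, pow_one] at h1
  exact h1

theorem SS_succ {r : ℕ} (hr : 1 ≤ r) {a b c : ℝ} (hc : 0 < c) (hb : c < b) (ha : b < a) :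
    SS (r + 1) a b c ≤ 3 * a * SS r a b c := by
  obtain ⟨s, rfl⟩ : ∃ s, r = s + 1 := ⟨r - 1, by omega⟩
  have hb0 : 0 < b := hc.trans hb
  have ha0 : 0 < a := hb0.trans ha
  have hS0 : 0 ≤ SS (s + 1) a b c := Finset.sum_nonneg fun k _ => SS_nonneg hc hb ha (s + 1) k
  have h1 : SS (s + 1 + 1) a b c = b * SS (s + 1) a b c +
      b * (a ^ (s + 1 + 1) - c ^ (s + 1 + 1)) := by
    rw [SS, Finset.sum_range_succ, SS, Finset.mul_sum]
    congr 1
    · refine Finset.sum_congr rfl fun k hk => ?_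
      have hk' := Finset.mem_range.1 hk
      have h3 : s + 1 + 1 - k = (s + 1 - k) + 1 := by omega
      rw [h3, pow_succ]
      ring
    · have h3 : s + 1 + 1 - (s + 1) = 1 := by omega
      rw [h3, pow_one]
  have h2 : b * (a ^ (s + 1) - c ^ (s + 1)) ≤ SS (s + 1) a b c := by
    have h3 := Finset.single_le_sum
      (f := fun k => b ^ (s + 1 - k) * (a ^ (k + 1) - c ^ (k + 1)))
      (fun k _ => SS_nonneg hc hb ha (s + 1) k) (Finset.mem_range.2 (show s < s + 1 by omega))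
    have h4 : s + 1 - s = 1 := by omega
    simp only [h4, pow_one] at h3
    exact h3
  have h5 : a ^ (s + 1 + 1) - c ^ (s + 1 + 1) ≤ 2 * a * (a ^ (s + 1) - c ^ (s + 1)) := by
    have h6 : c ^ s ≤ a ^ s := pow_le_pow_left₀ hc.le (hb.trans ha).le _
    have h7 : c ^ (s + 1) ≤ a ^ (s + 1) := pow_le_pow_left₀ hc.le (hb.trans ha).le _
    have h8 : 2 * a * (a ^ (s + 1) - c ^ (s + 1)) - (a ^ (s + 1 + 1) - c ^ (s + 1 + 1)) =
        (a - c) * (a ^ (s + 1) - c ^ (s + 1)) + a * c * (a ^ s - c ^ s) := by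
      ring
    have h9 : 0 ≤ (a - c) * (a ^ (s + 1) - c ^ (s + 1)) :=
      mul_nonneg (by linarith) (sub_nonneg.mpr h7)
    have h10 : 0 ≤ a * c * (a ^ s - c ^ s) :=
      mul_nonneg (mul_pos ha0 hc).le (sub_nonneg.mpr h6)
    linarith
  have h11 : b * (a ^ (s + 1 + 1) - c ^ (s + 1 + 1)) ≤ 2 * a * SS (s + 1) a b c := by
    calc b * (a ^ (s + 1 + 1) - c ^ (s + 1 + 1))
        ≤ b * (2 * a * (a ^ (s + 1) - c ^ (s + 1))) := mul_le_mul_of_nonneg_left h5 hb0.le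
      _ = 2 * a * (b * (a ^ (s + 1) - c ^ (s + 1))) := by ring
      _ ≤ 2 * a * SS (s + 1) a b c := mul_le_mul_of_nonneg_left h2 (by positivity)
  have h12 : b * SS (s + 1) a b c ≤ a * SS (s + 1) a b c := mul_le_mul_of_nonneg_right ha.le hS0
  rw [h1]
  linarith

end Pool.Agent.H15.FX
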