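import Pool.Agent.H15.FX.SUM

/-!
# TFI: the final inequality

With `a_i = 1/x_i`, `S_k = SS k a_1 a_2 a_3` and `slope_diff r`, `slope_diff (r+1)`, the hypothesis
`hsl` (equal slopes of `c/x^r + d/x^(r+1) + e`) reads `c S_r + d S_(r+1) + (e3-e2)/(x3-x2) -
(e2-e1)/(x2-x1) = 0`. The last two terms are at most `2 M/(X^(r+2) L)` each, `M = b^(4n+4)`.
`S_(r+1) ≤ 3 a_1 S_r ≤ (3/X) S_r` (`SS_succ`), `|d| 3/X ≤ |c|/2` (`6 b^(4n) b^(3n²) ≤ X` and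
`hlow`), so `(|c|/2) S_r ≤ 4 M/(X^(r+2) L)`. `S_r ≥ a_2^r (a_1 - a_3) = (x3-x1)/(x2^r x1 x3) ≥
L/Y^(r+2)` (`SS_lower`). So `|c| L² X^(r+2) ≤ 8 M Y^(r+2)`.

Raise to the power `3n`: `|c|^(3n) L^(6n) X^(3n(r+2)) ≤ 8^(3n) M^(3n) Y^(3n(r+2))`, and
`Y^(3n(r+2)) = X^((3n+1)(r+2))` (`hY`). So `|c|^(3n) L^(6n) ≤ 8^(3n) M^(3n) X^(r+2)`.
`|c|^(3n) b^(9n³) ≥ 1`, `X^(6r) ≤ b^(36n+36) L^(6n)` (6th power of `hL`), so
`X^(6r) ≤ b^(36n+36) b^(9n³) b^(3n) b^(3n(4n+4)) X^(r+2)`, i.e. (`6r - (r+2) = 5r - 2 ≥ 8`)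
`X^8 ≤ b^(9n³+12n²+51n+36) ≤ b^(16n³)` (`n ≥ 4`), but `X^8 ≥ b^(800n³)` and `b > 1`: contradiction.
-/

set_option autoImplicit false

namespace Pool.Agent.H15.FX

open Finset

/-- the equation between the three slopes -/
private theorem fin3_eq {r : ℕ} {c d x1 x2 x3 e1 e2 e3 : ℝ} (h1 : 0 < x1) (h12 : x1 < x2)
    (h23 : x2 < x3)
    (hsl : ((c / x3 ^ r + d / x3 ^ (r + 1) + e3) - (c / x2 ^ r + d / x2 ^ (r + 1) + e2)) /
        (x3 - x2) =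
      ((c / x2 ^ r + d / x2 ^ (r + 1) + e2) - (c / x1 ^ r + d / x1 ^ (r + 1) + e1)) /
        (x2 - x1)) :
    c * SS r (1 / x1) (1 / x2) (1 / x3) + d * SS (r + 1) (1 / x1) (1 / x2) (1 / x3) +
      ((e3 - e2) / (x3 - x2) - (e2 - e1) / (x2 - x1)) = 0 := by
  rw [← slope_diff r h1 h12 h23, ← slope_diff (r + 1) h1 h12 h23]
  have e0 : ∀ (z w : ℝ) (k : ℕ), w / z ^ k = w * (1 / z) ^ k := by
    intro z w k
    rw [one_div, inv_pow, div_eq_mul_inv]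
  rw [e0 x3 c r, e0 x3 d (r + 1), e0 x2 c r, e0 x2 d (r + 1), e0 x1 c r, e0 x1 d (r + 1)] at hsl
  have h3 : ∀ (u v e u' v' e' z : ℝ), ((u + v + e) - (u' + v' + e')) / z =
      (u - u') / z + (v - v') / z + (e - e') / z := by
    intro u v e u' v' e' z
    rw [← add_div, ← add_div]
    congr 1
    ring
  rw [h3, h3] at hsl
  have h4 : ∀ (w p q z : ℝ), (w * p - w * q) / z = w * ((p - q) / z) := by
    intro w p q z
    rw [← mul_sub, mul_div_assoc]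
  rw [h4, h4, h4, h4] at hsl
  linarith

/-- the first consequence -/
private theorem fin3_first {r : ℕ} (hr : 2 ≤ r) {m X Y L c d x1 x2 x3 e1 e2 e3 : ℝ}
    (hX0 : 0 < X) (h1 : X ≤ x1) (h12 : x1 < x2) (h23 : x2 < x3)
    (h3 : x3 ≤ Y) (hL0 : 0 < L) (hL1 : L ≤ x2 - x1) (hL2 : L ≤ x3 - x2)
    (hcd : 6 * |d| ≤ |c| * X) (he1 : |e1| ≤ m) (he2 : |e2| ≤ m) (he3 : |e3| ≤ m)
    (heq : c * SS r (1 / x1) (1 / x2) (1 / x3) + d * SS (r + 1) (1 / x1) (1 / x2) (1 / x3) +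
      ((e3 - e2) / (x3 - x2) - (e2 - e1) / (x2 - x1)) = 0) :
    |c| * L ^ 2 ≤ 8 * m * Y ^ (r + 2) := by
  have hx1 : 0 < x1 := lt_of_lt_of_le hX0 h1
  have hx2 : 0 < x2 := hx1.trans h12
  have hx3 : 0 < x3 := hx2.trans h23
  have hY0 : 0 < Y := lt_of_lt_of_le hx3 h3
  have ha12 : 1 / x2 < 1 / x1 := one_div_lt_one_div_of_lt hx1 h12
  have ha23 : 1 / x3 < 1 / x2 := one_div_lt_one_div_of_lt hx2 h23
  have ha3 : 0 < 1 / x3 := one_div_pos.mpr hx3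
  obtain ⟨S, hS⟩ : ∃ S, S = SS r (1 / x1) (1 / x2) (1 / x3) := ⟨_, rfl⟩
  obtain ⟨S', hS'⟩ : ∃ S', S' = SS (r + 1) (1 / x1) (1 / x2) (1 / x3) := ⟨_, rfl⟩
  have hlow := SS_lower (r := r) (by omega) ha3 ha23 ha12
  have hlow' := SS_lower (r := r + 1) (by omega) ha3 ha23 ha12
  have hsucc := SS_succ (r := r) (by omega) ha3 ha23 ha12
  rw [← hS] at heq hlow hsucc
  rw [← hS'] at heq hlow' hsucc
  have hm : 0 ≤ m := (abs_nonneg e1).trans he1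
  -- positivity
  have hd13 : 0 < 1 / x1 - 1 / x3 := by linarith
  have hS0 : 0 < S := lt_of_lt_of_le (mul_pos (pow_pos (one_div_pos.mpr hx2) r) hd13) hlow
  have hS0' : 0 < S' :=
    lt_of_lt_of_le (mul_pos (pow_pos (one_div_pos.mpr hx2) (r + 1)) hd13) hlow'
  -- the error term
  have hE : |(e3 - e2) / (x3 - x2) - (e2 - e1) / (x2 - x1)| ≤ 4 * m / L := by
    have q1 : |(e3 - e2) / (x3 - x2)| ≤ 2 * m / L := by
      rw [abs_div, abs_of_pos (show 0 < x3 - x2 by linarith)]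
      have q2 : |e3 - e2| ≤ 2 * m := by
        have := abs_sub e3 e2
        linarith
      exact div_le_div₀ (by linarith) q2 hL0 hL2
    have q3 : |(e2 - e1) / (x2 - x1)| ≤ 2 * m / L := by
      rw [abs_div, abs_of_pos (show 0 < x2 - x1 by linarith)]
      have q2 : |e2 - e1| ≤ 2 * m := by
        have := abs_sub e2 e1
        linarith
      exact div_le_div₀ (by linarith) q2 hL0 hL1
    have q4 := abs_sub ((e3 - e2) / (x3 - x2)) ((e2 - e1) / (x2 - x1))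
    have q5 : 4 * m / L = 2 * m / L + 2 * m / L := by ring
    linarith
  -- the second term
  have hdS : |d| * S' ≤ |c| / 2 * S := by
    have q1 : S' ≤ 3 * (1 / X) * S := by
      refine hsucc.trans ?_
      have q2 : 1 / x1 ≤ 1 / X := one_div_le_one_div_of_le hX0 h1
      have q3 : 3 * (1 / x1) ≤ 3 * (1 / X) := by linarith
      exact mul_le_mul_of_nonneg_right q3 hS0.le
    have q2 : |d| * (3 * (1 / X)) ≤ |c| / 2 := by
      have q3 : |d| * (3 * (1 / X)) = 6 * |d| / (2 * X) := by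
        field_simp
        ring
      rw [q3, div_le_div_iff₀ (by positivity) (by norm_num)]
      linarith
    calc |d| * S' ≤ |d| * (3 * (1 / X) * S) := mul_le_mul_of_nonneg_left q1 (abs_nonneg d)
      _ = (|d| * (3 * (1 / X))) * S := by ring
      _ ≤ |c| / 2 * S := mul_le_mul_of_nonneg_right q2 hS0.le
  have hcS : |c| * S ≤ 8 * m / L := by
    have q1 : c * S = -(d * S' + ((e3 - e2) / (x3 - x2) - (e2 - e1) / (x2 - x1))) := by linarith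
    have q2 : |c| * S = |c * S| := by rw [abs_mul, abs_of_pos hS0]
    have q3 : |c * S| ≤ |d| * S' + 4 * m / L := by
      rw [q1, abs_neg]
      refine (abs_add_le _ _).trans ?_
      rw [abs_mul, abs_of_pos hS0']
      linarith
    have q4 : |c| * S ≤ |c| / 2 * S + 4 * m / L := by
      rw [q2]
      linarith
    have q5 : |c| * S = |c| / 2 * S + |c| / 2 * S := by ring
    have q6 : 8 * m / L = 4 * m / L + 4 * m / L := by ring
    linarith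
  -- the lower bound
  have hSl : L / Y ^ (r + 2) ≤ S := by
    refine le_trans ?_ hlow
    have q1 : (1 / x2) ^ r * (1 / x1 - 1 / x3) = (x3 - x1) / (x2 ^ r * (x1 * x3)) := by
      rw [one_div_pow]
      field_simp
    rw [q1]
    have q2 : x2 ^ r * (x1 * x3) ≤ Y ^ (r + 2) := by
      have q3 : x2 ^ r ≤ Y ^ r := pow_le_pow_left₀ hx2.le (by linarith) r
      have q4 : x1 * x3 ≤ Y * Y := mul_le_mul (by linarith) h3 hx3.le hY0.le
      calc x2 ^ r * (x1 * x3) ≤ Y ^ r * (Y * Y) :=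
            mul_le_mul q3 q4 (by positivity) (by positivity)
        _ = Y ^ (r + 2) := by ring
    exact div_le_div₀ (by linarith) (by linarith) (by positivity) q2
  -- the end
  have hY2 : 0 < Y ^ (r + 2) := pow_pos hY0 _
  have q1 : |c| * (L / Y ^ (r + 2)) ≤ 8 * m / L :=
    (mul_le_mul_of_nonneg_left hSl (abs_nonneg c)).trans hcS
  have q2 : |c| * (L / Y ^ (r + 2)) = |c| * L / Y ^ (r + 2) := by rw [mul_div_assoc]
  rw [q2, div_le_div_iff₀ hY2 hL0] at q1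
  calc |c| * L ^ 2 = |c| * L * L := by ring
    _ ≤ 8 * m * Y ^ (r + 2) := q1

/-- the power estimates -/
private theorem fin3_last {n r : ℕ} (hn : 4 ≤ n) (hr : 2 ≤ r) {b X Y L a : ℝ}
    (hb : 1000 ≤ b) (hX : b ^ (100 * n ^ 3) ≤ X) (hY0 : 0 < Y)
    (hY : Y ^ (3 * n) = X ^ (3 * n + 1)) (hL0 : 0 < L) (ha : 0 ≤ a)
    (hL : X ^ r ≤ b ^ (6 * n + 6) * L ^ n) (hlow : 1 ≤ a * b ^ (3 * n ^ 2))
    (hmain : a * L ^ 2 ≤ 8 * (b ^ (4 * n + 4) / X ^ (r + 2)) * Y ^ (r + 2)) : False := by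
  have hb0 : 0 < b := by linarith
  have hb1 : 1 ≤ b := by linarith
  have hX1 : 1 ≤ X := (one_le_pow₀ hb1).trans hX
  have hX0 : 0 < X := by linarith
  -- first step
  have s1 : a * L ^ 2 * X ^ (r + 2) ≤ 8 * b ^ (4 * n + 4) * Y ^ (r + 2) := by
    have q1 : 0 < X ^ (r + 2) := pow_pos hX0 _
    have q2 := mul_le_mul_of_nonneg_right hmain q1.le
    have q3 : 8 * (b ^ (4 * n + 4) / X ^ (r + 2)) * Y ^ (r + 2) * X ^ (r + 2) =
        8 * b ^ (4 * n + 4) * Y ^ (r + 2) := by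
      field_simp
    rw [q3] at q2
    exact q2
  -- power 3 n
  have s2 : a ^ (3 * n) * L ^ (6 * n) * (X ^ (r + 2)) ^ (3 * n) ≤
      8 ^ (3 * n) * b ^ ((4 * n + 4) * (3 * n)) * (X ^ (r + 2) * (X ^ (r + 2)) ^ (3 * n)) := by
    have q1 : 0 ≤ a * L ^ 2 * X ^ (r + 2) := by positivity
    have q2 := pow_le_pow_left₀ q1 s1 (3 * n)
    have q3 : (a * L ^ 2 * X ^ (r + 2)) ^ (3 * n) =
        a ^ (3 * n) * L ^ (6 * n) * (X ^ (r + 2)) ^ (3 * n) := by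
      rw [mul_pow, mul_pow, ← pow_mul L 2 (3 * n)]
      congr 3
      ring
    have q4 : (8 * b ^ (4 * n + 4) * Y ^ (r + 2)) ^ (3 * n) =
        8 ^ (3 * n) * b ^ ((4 * n + 4) * (3 * n)) *
          (X ^ (r + 2) * (X ^ (r + 2)) ^ (3 * n)) := by
      have q5 : (Y ^ (r + 2)) ^ (3 * n) = (X ^ (r + 2)) * (X ^ (r + 2)) ^ (3 * n) := by
        rw [← pow_mul, mul_comm (r + 2) (3 * n), pow_mul, hY, ← pow_mul, ← pow_mul, ← pow_add]
        congr 1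
        ring
      rw [mul_pow, mul_pow, q5, ← pow_mul]
    rw [q3, q4] at q2
    exact q2
  have s3 : a ^ (3 * n) * L ^ (6 * n) ≤
      8 ^ (3 * n) * b ^ ((4 * n + 4) * (3 * n)) * X ^ (r + 2) := by
    have q1 : 0 < (X ^ (r + 2)) ^ (3 * n) := pow_pos (pow_pos hX0 _) _
    refine le_of_mul_le_mul_right ?_ q1
    calc a ^ (3 * n) * L ^ (6 * n) * (X ^ (r + 2)) ^ (3 * n)
        ≤ 8 ^ (3 * n) * b ^ ((4 * n + 4) * (3 * n)) *
          (X ^ (r + 2) * (X ^ (r + 2)) ^ (3 * n)) := s2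
      _ = 8 ^ (3 * n) * b ^ ((4 * n + 4) * (3 * n)) * X ^ (r + 2) *
          (X ^ (r + 2)) ^ (3 * n) := by ring
  -- the power 6
  have s4 : X ^ (6 * r) ≤ b ^ ((6 * n + 6) * 6) * L ^ (6 * n) := by
    have q1 := pow_le_pow_left₀ (pow_nonneg hX0.le r) hL 6
    have q2 : (X ^ r) ^ 6 = X ^ (6 * r) := by
      rw [← pow_mul, mul_comm]
    have q3 : (b ^ (6 * n + 6) * L ^ n) ^ 6 = b ^ ((6 * n + 6) * 6) * L ^ (6 * n) := by
      rw [mul_pow, ← pow_mul, ← pow_mul, mul_comm n 6]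
    rw [q2, q3] at q1
    exact q1
  have s5 : 1 ≤ a ^ (3 * n) * b ^ (3 * n ^ 2 * (3 * n)) := by
    have q1 : 1 ≤ (a * b ^ (3 * n ^ 2)) ^ (3 * n) := one_le_pow₀ hlow
    rw [mul_pow, ← pow_mul] at q1
    exact q1
  have h8 : (8 : ℝ) ^ (3 * n) ≤ b ^ (3 * n) := pow_le_pow_left₀ (by norm_num) (by linarith) _
  have s6 : X ^ (6 * r) ≤ b ^ (9 * n ^ 3 + 12 * n ^ 2 + 51 * n + 36) * X ^ (r + 2) := by
    calc X ^ (6 * r) ≤ b ^ ((6 * n + 6) * 6) * L ^ (6 * n) := s4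
      _ ≤ b ^ ((6 * n + 6) * 6) * L ^ (6 * n) * (a ^ (3 * n) * b ^ (3 * n ^ 2 * (3 * n))) :=
          le_mul_of_one_le_right (by positivity) s5
      _ = b ^ ((6 * n + 6) * 6) * b ^ (3 * n ^ 2 * (3 * n)) * (a ^ (3 * n) * L ^ (6 * n)) := by
          ring
      _ ≤ b ^ ((6 * n + 6) * 6) * b ^ (3 * n ^ 2 * (3 * n)) *
          (8 ^ (3 * n) * b ^ ((4 * n + 4) * (3 * n)) * X ^ (r + 2)) :=
          mul_le_mul_of_nonneg_left s3 (by positivity)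
      _ ≤ b ^ ((6 * n + 6) * 6) * b ^ (3 * n ^ 2 * (3 * n)) *
          (b ^ (3 * n) * b ^ ((4 * n + 4) * (3 * n)) * X ^ (r + 2)) := by
          refine mul_le_mul_of_nonneg_left ?_ (by positivity)
          refine mul_le_mul_of_nonneg_right ?_ (by positivity)
          exact mul_le_mul_of_nonneg_right h8 (by positivity)
      _ = b ^ (9 * n ^ 3 + 12 * n ^ 2 + 51 * n + 36) * X ^ (r + 2) := by
          rw [← pow_add, ← mul_assoc, ← mul_assoc, ← pow_add, ← pow_add]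
          congr 2
          ring
  have s7 : X ^ (6 * r) = X ^ (5 * r - 2) * X ^ (r + 2) := by
    rw [← pow_add]
    congr 1
    omega
  have s8 : X ^ (5 * r - 2) ≤ b ^ (9 * n ^ 3 + 12 * n ^ 2 + 51 * n + 36) := by
    rw [s7] at s6
    exact le_of_mul_le_mul_right s6 (pow_pos hX0 _)
  have s9 : X ^ 8 ≤ X ^ (5 * r - 2) := pow_le_pow_right₀ hX1 (by omega)
  have s10 : b ^ (100 * n ^ 3 * 8) ≤ X ^ 8 := by
    rw [pow_mul]
    exact pow_le_pow_left₀ (by positivity) hX 8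
  have s11 : b ^ (100 * n ^ 3 * 8) ≤ b ^ (9 * n ^ 3 + 12 * n ^ 2 + 51 * n + 36) :=
    (s10.trans s9).trans s8
  have s12 : 100 * n ^ 3 * 8 ≤ 9 * n ^ 3 + 12 * n ^ 2 + 51 * n + 36 :=
    (pow_le_pow_iff_right₀ (by linarith)).1 s11
  have s13 : n ^ 2 ≤ n ^ 3 := Nat.pow_le_pow_right (by omega) (by norm_num)
  have s14 : n ≤ n ^ 3 := Nat.le_self_pow (by norm_num) n
  have s15 : 1 ≤ n ^ 3 := Nat.one_le_pow _ _ (by omega)
  omega

theorem fin3 {n r : ℕ} (hn : 4 ≤ n) (hr : 2 ≤ r) {b X Y L c d x1 x2 x3 e1 e2 e3 : ℝ}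
    (hb : 1000 ≤ b) (hX : b ^ (100 * n ^ 3) ≤ X) (hY0 : 0 < Y)
    (hY : Y ^ (3 * n) = X ^ (3 * n + 1)) (h1 : X ≤ x1) (h12 : x1 < x2) (h23 : x2 < x3)
    (h3 : x3 ≤ Y) (hL0 : 0 < L) (hL1 : L ≤ x2 - x1) (hL2 : L ≤ x3 - x2)
    (hL : X ^ r ≤ b ^ (6 * n + 6) * L ^ n) (hlow : 1 ≤ |c| * b ^ (3 * n ^ 2))
    (hd : |d| ≤ b ^ (4 * n)) (he1 : |e1| ≤ b ^ (4 * n + 4) / X ^ (r + 2))
    (he2 : |e2| ≤ b ^ (4 * n + 4) / X ^ (r + 2)) (he3 : |e3| ≤ b ^ (4 * n + 4) / X ^ (r + 2))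
    (hsl : ((c / x3 ^ r + d / x3 ^ (r + 1) + e3) - (c / x2 ^ r + d / x2 ^ (r + 1) + e2)) /
        (x3 - x2) =
      ((c / x2 ^ r + d / x2 ^ (r + 1) + e2) - (c / x1 ^ r + d / x1 ^ (r + 1) + e1)) /
        (x2 - x1)) : False := by
  have hb1 : 1 ≤ b := by linarith
  have hX1 : 1 ≤ X := (one_le_pow₀ hb1).trans hX
  have hX0 : 0 < X := by linarith
  have hx1 : 0 < x1 := lt_of_lt_of_le hX0 h1
  have hcd : 6 * |d| ≤ |c| * X := by
    have q1 : b ^ (4 * n + 1) * b ^ (3 * n ^ 2) ≤ X := by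
      refine le_trans ?_ hX
      rw [← pow_add]
      refine pow_le_pow_right₀ hb1 ?_
      have s13 : n ^ 2 ≤ n ^ 3 := Nat.pow_le_pow_right (by omega) (by norm_num)
      have s14 : n ≤ n ^ 3 := Nat.le_self_pow (by norm_num) n
      have s15 : 1 ≤ n ^ 3 := Nat.one_le_pow _ _ (by omega)
      omega
    calc 6 * |d| ≤ b * b ^ (4 * n) := by
          have q2 : (0 : ℝ) ≤ b ^ (4 * n) := by positivity
          calc 6 * |d| ≤ 6 * b ^ (4 * n) := by linarith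
            _ ≤ b * b ^ (4 * n) := mul_le_mul_of_nonneg_right (by linarith) q2
      _ = b ^ (4 * n + 1) := by rw [pow_succ, mul_comm]
      _ ≤ b ^ (4 * n + 1) * (|c| * b ^ (3 * n ^ 2)) :=
          le_mul_of_one_le_right (by positivity) hlow
      _ = |c| * (b ^ (4 * n + 1) * b ^ (3 * n ^ 2)) := by ring
      _ ≤ |c| * X := mul_le_mul_of_nonneg_left q1 (abs_nonneg c)
  have heq := fin3_eq hx1 h12 h23 hsl
  have hmain := fin3_first hr hX0 h1 h12 h23 h3 hL0 hL1 hL2 hcd he1 he2 he3 heq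
  exact fin3_last hn hr hb hX hY0 hY hL0 (abs_nonneg c) hL hlow hmain

end Pool.Agent.H15.FX
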