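import Pool.Agent.H15.FX.Defs

/-!
# TGP: spacing of two points near the same line of slope `θ`

`a = (x2-x1) α - (y2-y1) = aeval O.α (C (x2-x1) * X - C (y2-y1)) ∈ O.R` is not `0`: `O.indep`
(degree `1 < n`, and the polynomial is not `0` because `x2 ≠ x1`). `O.φ a = (x2-x1) θ - (y2-y1) =
u1 - u2`, `|φ a| ≤ 2 U` (`O.φ_α`). `ν a ≤ ν((x2-x1) α) + ν(y2-y1) ≤ |x2-x1| ν α + |y2-y1|`
(`O.ν_add`, `O.ν_neg`, `O.ν_mul`, `O.ν_int`), `ν α ≤ n Q ≤ b`, `|θ| = |φ α| ≤ ν α ≤ b`,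
`|y2-y1| ≤ |θ| |x2-x1| + 2U ≤ b L + 1 ≤ 2 b L`, `L = |x2-x1| ≥ 1`: `ν a ≤ 3 b L`.
`O.liouville a : 1 ≤ |φ a| (Q^(4n) (ν a)^n)`, `Q^(4n) ≤ b` (`Qpow_le_bb`).
-/

set_option autoImplicit false

namespace Pool.Agent.H15.FX

open Finset Polynomial Pool.Agent.H72.ES Pool.Agent.H8.UL

variable {n Q : ℕ} {f : ℤ[X]} {θ : ℝ}

theorem spacing (hn : 4 ≤ n) (hQ : 2 ^ n ≤ Q) (O : Ord ℝ n Q f θ) (c0 U : ℝ) (hU : 2 * U ≤ 1)
    (x1 y1 x2 y2 : ℤ) (hne : x1 ≠ x2) (h1 : |(y1 : ℝ) - θ * x1 - c0| ≤ U)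
    (h2 : |(y2 : ℝ) - θ * x2 - c0| ≤ U) :
    1 ≤ 2 * U * (bb n Q * (3 * bb n Q * |(x2 : ℝ) - x1|) ^ n) := by
  have hb0 := bb_pos hn hQ
  have hb1 := one_le_bb hn hQ
  have hQ1 := one_le_QR hn hQ
  set a : O.R := aeval O.α (C (x2 - x1) * X - C (y2 - y1) : ℤ[X]) with ha
  have hd : (x2 - x1 : ℤ) ≠ 0 := sub_ne_zero.2 hne.symm
  have ha0 : a ≠ 0 := by
    intro h0
    have hdeg : (C (x2 - x1) * X - C (y2 - y1) : ℤ[X]).natDegree < n := by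
      refine lt_of_le_of_lt (b := 1) ?_ (by omega)
      compute_degree
    have h3 := O.indep _ hdeg h0
    have h4 := congrArg (fun p : ℤ[X] => p.coeff 1) h3
    simp only [coeff_sub, coeff_C_mul, coeff_X_one, coeff_C_succ, coeff_zero] at h4
    apply hd
    linarith
  have ha1 : a = ((x2 - x1 : ℤ) : O.R) * O.α + -((y2 - y1 : ℤ) : O.R) := by
    rw [ha, map_sub, map_mul, aeval_X, aeval_C, aeval_C]
    simp only [algebraMap_int_eq, eq_intCast]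
    ring
  have hφ : O.φ a = ((x2 : ℝ) - x1) * θ - ((y2 : ℝ) - y1) := by
    rw [ha1, map_add, map_mul, map_neg, map_intCast, map_intCast, O.φ_α]
    push_cast
    ring
  have hφ2 : |O.φ a| ≤ 2 * U := by
    have e : O.φ a = ((y1 : ℝ) - θ * x1 - c0) - ((y2 : ℝ) - θ * x2 - c0) := by
      rw [hφ]; ring
    rw [e]
    refine (abs_sub _ _).trans ?_
    linarith
  have hα : O.ν O.α ≤ bb n Q := by
    refine O.ν_α.trans ((nQ_le hn hQ).trans ?_)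
    exact Qpow_le_bb hn hQ (by nlinarith)
  have hθ : |θ| ≤ bb n Q := by
    have := O.φ_le O.α
    rw [O.φ_α, Real.norm_eq_abs] at this
    exact this.trans hα
  have hL : (1 : ℝ) ≤ |(x2 : ℝ) - x1| := by
    have : (1 : ℤ) ≤ |x2 - x1| := Int.one_le_abs hd
    have h5 : ((1 : ℤ) : ℝ) ≤ ((|x2 - x1| : ℤ) : ℝ) := by exact_mod_cast this
    push_cast at h5
    exact h5
  set L : ℝ := |(x2 : ℝ) - x1| with hLd
  have hy : |(y2 : ℝ) - y1| ≤ 2 * bb n Q * L := by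
    have e : (y2 : ℝ) - y1 = ((x2 : ℝ) - x1) * θ - O.φ a := by rw [hφ]; ring
    rw [e]
    refine (abs_sub _ _).trans ?_
    rw [abs_mul]
    have h6 : |(x2 : ℝ) - x1| * |θ| ≤ L * bb n Q :=
      mul_le_mul_of_nonneg_left hθ (abs_nonneg _)
    have h7 : (1 : ℝ) ≤ bb n Q * L := by nlinarith
    have h8 : |O.φ a| ≤ 1 := hφ2.trans hU
    nlinarith
  have hν : O.ν a ≤ 3 * bb n Q * L := by
    rw [ha1]
    refine (O.ν_add _ _).trans ?_
    rw [O.ν_neg]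
    have h9 : O.ν (((x2 - x1 : ℤ) : O.R) * O.α) ≤ L * bb n Q := by
      refine (O.ν_mul _ _).trans ?_
      refine mul_le_mul ?_ hα (O.ν_nonneg _) (abs_nonneg _)
      refine (O.ν_int _).trans (le_of_eq ?_)
      push_cast
      rfl
    have h10 : O.ν ((y2 - y1 : ℤ) : O.R) ≤ 2 * bb n Q * L := by
      refine (O.ν_int _).trans ?_
      push_cast
      exact hy
    linarith
  have hl := O.liouville a ha0
  rw [Real.norm_eq_abs] at hl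
  have hQ4 : (Q : ℝ) ^ (4 * n) ≤ bb n Q := Qpow_le_bb hn hQ (by nlinarith)
  refine hl.trans ?_
  have hU0 : 0 ≤ 2 * U := (abs_nonneg _).trans hφ2
  refine mul_le_mul hφ2 ?_ (mul_nonneg (by positivity) (pow_nonneg (O.ν_nonneg _) _)) hU0
  exact mul_le_mul hQ4 (pow_le_pow_left₀ (O.ν_nonneg _) hν n) (pow_nonneg (O.ν_nonneg _) _) hb0.le

end Pool.Agent.H15.FX
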