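import Pool.Agent.H15.FX.TGP
import Pool.Agent.H15.FX.TFI

/-!
# THR: three points of one window near a flex

Write `b = bb n Q ≥ 1000` (`thousand_le_bb`), `Y = X^(1+1/(3n))`, `(x_i, y_i) = p i`, all
`x_i ≥ X > 0`, `u_i = y_i - θ x_i - c0 = c/x_i^r + d/x_i^(r+1) + e_i`, `|e_i| ≤ b^(4n+4)/X^(r+2)`,
`|u_i| ≤ 3 b^(4n+4) / X^r` (`≤ 3 b^(4n+4)/X^2`).

(1) The `x_i` are distinct: `x_i = x_j` gives `|y_i - y_j| = |u_i - u_j| < 1`, so `p i = p j`. Order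
them: `x1 < x2 < x3` (permute the three points; the statement is symmetric).

(2) They are collinear: the integer `D = (x2-x1)(y3-y2) - (x3-x2)(y2-y1)` is
`(x2-x1)(u3-u2) - (x3-x2)(u2-u1)`, `|D| ≤ 2 Y * 6 b^(4n+4)/X^2 * .. < 1` (`Y ≤ X^(3/2)`: from
`Y^3 = X^3 X^(1/n)`; `Y^2 ≤ X^3`, and `X ≥ b^(100 n^3)`), so `D = 0`, i.e. the slopes of `u` between
`x1, x2` and between `x2, x3` are equal.

(3) Spacing: `L = x2 - x1 ≥ 1` or `x3 - x2`. `a = (x2-x1) α - (y2-y1) ∈ O.R` is not `0`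
(`O.indep`, degree `1 < n`; `aeval O.α (C (x2-x1) * X - C (y2-y1))`). `φ a = -(u2-u1)`,
`|φ a| ≤ 6 b^(4n+4)/X^r`, `ν a ≤ L ν α + |y2-y1|`, `ν α ≤ n Q ≤ b` (`O.ν_α`), `|θ| ≤ b`,
`|y2-y1| ≤ |θ| L + 1`: `ν a ≤ 3 b L`. `O.liouville`: `1 ≤ |φ a| Q^(4n) (ν a)^n ≤
6 b^(4n+4) X^(-r) b (3 b L)^n`, so `X^r ≤ b^(6n+6) L^n` (`6 ≤ b`, `3 ≤ b`). The same for
`x3 - x2`. Let `L` be the smaller one: `X^(2r) ≤ b^(12n+12) L^(2n)`.

(4) `0 = c S_r + d S_(r+1) + (e32 - e21)` with `S_k = SS k (1/x1) (1/x2) (1/x3)` (`slope_diff`),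
`|e32|, |e21| ≤ 2 b^(4n+4) X^(-r-2)/L`. `S_(r+1) ≤ (3/X) S_r` (`SS_succ`), `|d| 3/X ≤ |c|/2`
(`X ≥ 6 b^(4n+3n^2)`, `hlow`), so `(|c|/2) S_r ≤ 4 b^(4n+4) X^(-r-2)/L`; `S_r ≥ (1/x2)^r
(1/x1 - 1/x3) = (x3-x1)/(x2^r x1 x3) ≥ L/Y^(r+2)` (`SS_lower`). Hence
`|c| L^2 ≤ 8 b^(4n+4) (Y/X)^(r+2)`. Cube and take the `n`-th power, `(Y/X)^(3n) = X`:
`|c|^(3n) L^(6n) ≤ 8^(3n) b^(3n(4n+4)) X^(r+2)`. With `|c|^(3n) ≥ b^(-9n^3)` and
`L^(6n) ≥ X^(6r) b^(-36n-36)`: `X^(6r) ≤ b^(9n^3+36n+36+12n^2+12n+3n) X^(r+2)`, `5r-2 ≥ 8`: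
`X^8 ≤ b^(16 n^3)` for `n ≥ 4`. Contradiction to `X ≥ b^(100 n^3)`.
-/

set_option autoImplicit false

namespace Pool.Agent.H15.FX

open Finset Polynomial Pool.Agent.H72.ES Pool.Agent.H8.UL

variable {n Q : ℕ} {f : ℤ[X]} {θ : ℝ}

private theorem thr_big {n : ℕ} (hn : 4 ≤ n) {b X : ℝ} (hb : 1000 ≤ b)
    (hX : b ^ (100 * n ^ 3) ≤ X) : 144 * b ^ (8 * n + 8) < X := by
  have hb1 : (1 : ℝ) ≤ b := by linarith
  have hb0 : (0 : ℝ) < b := by linarith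
  have h3 : n * n ^ 2 = n ^ 3 := by ring
  have h4 : 4 * n ≤ n ^ 2 := by nlinarith
  have h5 : 16 * n ≤ n ^ 3 := by nlinarith
  have h1 : 144 * b ^ (8 * n + 8) < b ^ (8 * n + 9) := by
    rw [pow_succ b (8 * n + 8)]
    have : 0 < b ^ (8 * n + 8) := by positivity
    nlinarith
  refine h1.trans_le (le_trans ?_ hX)
  exact pow_le_pow_right₀ hb1 (by omega)

private theorem thr_u {n r : ℕ} (hrn : r + 3 ≤ n) {b X x c d e : ℝ} (hb : 1000 ≤ b)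
    (hX1 : 1 ≤ X) (hx : X ≤ x) (hc : |c| ≤ b ^ (4 * n)) (hd : |d| ≤ b ^ (4 * n))
    (he : |e| ≤ b ^ (4 * n + 4) / X ^ (r + 2)) :
    |c / x ^ r + d / x ^ (r + 1) + e| ≤ 3 * b ^ (4 * n + 4) / X ^ r := by
  have hb1 : (1 : ℝ) ≤ b := by linarith
  have hX0 : (0 : ℝ) < X := by linarith
  have hx0 : 0 < x := by linarith
  have hM : b ^ (4 * n) ≤ b ^ (4 * n + 4) := pow_le_pow_right₀ hb1 (by omega)
  have hMp : (0 : ℝ) ≤ b ^ (4 * n + 4) := by positivity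
  have key : ∀ (k : ℕ) (z : ℝ), r ≤ k → |z| ≤ b ^ (4 * n + 4) →
      |z / x ^ k| ≤ b ^ (4 * n + 4) / X ^ r := by
    intro k z hk hz
    rw [abs_div, abs_of_pos (by positivity : 0 < x ^ k)]
    have h1 : X ^ r ≤ x ^ k := by
      calc X ^ r ≤ X ^ k := pow_le_pow_right₀ hX1 hk
        _ ≤ x ^ k := pow_le_pow_left₀ hX0.le hx k
    exact div_le_div₀ hMp hz (by positivity) h1
  have h1 := key r c le_rfl (hc.trans hM)
  have h2 := key (r + 1) d (by omega) (hd.trans hM)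
  have h3 : |e| ≤ b ^ (4 * n + 4) / X ^ r := by
    refine he.trans ?_
    exact div_le_div_of_nonneg_left hMp (by positivity) (pow_le_pow_right₀ hX1 (by omega))
  calc |c / x ^ r + d / x ^ (r + 1) + e| ≤ |c / x ^ r| + |d / x ^ (r + 1)| + |e| :=
        abs_add_three _ _ _
    _ ≤ b ^ (4 * n + 4) / X ^ r + b ^ (4 * n + 4) / X ^ r + b ^ (4 * n + 4) / X ^ r := by
        linarith
    _ = 3 * b ^ (4 * n + 4) / X ^ r := by ring

private theorem thr_space {n r : ℕ} {b X L : ℝ} (hb : 1000 ≤ b) (hX1 : 1 ≤ X) (hL : 0 ≤ L)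
    (h : 1 ≤ 2 * (3 * b ^ (4 * n + 4) / X ^ r) * (b * (3 * b * L) ^ n)) :
    X ^ r ≤ b ^ (6 * n + 6) * L ^ n := by
  have hb0 : (0 : ℝ) < b := by linarith
  have hX0 : (0 : ℝ) < X := by linarith
  have hXr : 0 < X ^ r := by positivity
  have e1 : 2 * (3 * b ^ (4 * n + 4) / X ^ r) * (b * (3 * b * L) ^ n) =
      (6 * b ^ (4 * n + 4) * (b * (3 * b * L) ^ n)) / X ^ r := by
    field_simp
    ring
  rw [e1, le_div_iff₀ hXr, one_mul] at h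
  refine h.trans ?_
  have h2 : (3 * b * L) ^ n ≤ (b * b * L) ^ n := by
    refine pow_le_pow_left₀ (by positivity) ?_ n
    gcongr
    linarith
  calc 6 * b ^ (4 * n + 4) * (b * (3 * b * L) ^ n) ≤
        b * b ^ (4 * n + 4) * (b * (b * b * L) ^ n) := by
        gcongr
        linarith
    _ = b ^ (6 * n + 6) * L ^ n := by
        rw [mul_pow, mul_pow]
        ring

/-- three points in increasing order -/
private theorem three_ord (hn : 4 ≤ n) (hQ : 2 ^ n ≤ Q) (O : Ord ℝ n Q f θ) {r : ℕ} (hr : 2 ≤ r)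
    (hrn : r + 3 ≤ n) (c0 c d : ℝ) (hc : |c| ≤ bb n Q ^ (4 * n)) (hd : |d| ≤ bb n Q ^ (4 * n))
    (hlow : 1 ≤ |c| * bb n Q ^ (3 * n ^ 2)) (X : ℝ) (hX : bb n Q ^ (100 * n ^ 3) ≤ X)
    (x1 y1 x2 y2 x3 y3 : ℤ) (h12 : x1 < x2) (h23 : x2 < x3) (h1 : X ≤ (x1 : ℝ))
    (h3 : (x3 : ℝ) ≤ X ^ (1 + 1 / (3 * (n : ℝ))))
    (hu1 : |(y1 : ℝ) - θ * x1 - c0| ≤ 3 * bb n Q ^ (4 * n + 4) / X ^ r)
    (hu2 : |(y2 : ℝ) - θ * x2 - c0| ≤ 3 * bb n Q ^ (4 * n + 4) / X ^ r)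
    (hu3 : |(y3 : ℝ) - θ * x3 - c0| ≤ 3 * bb n Q ^ (4 * n + 4) / X ^ r)
    (he1 : |(y1 : ℝ) - (θ * x1 + c0 + c / (x1 : ℝ) ^ r + d / (x1 : ℝ) ^ (r + 1))| ≤
      bb n Q ^ (4 * n + 4) / X ^ (r + 2))
    (he2 : |(y2 : ℝ) - (θ * x2 + c0 + c / (x2 : ℝ) ^ r + d / (x2 : ℝ) ^ (r + 1))| ≤
      bb n Q ^ (4 * n + 4) / X ^ (r + 2))
    (he3 : |(y3 : ℝ) - (θ * x3 + c0 + c / (x3 : ℝ) ^ r + d / (x3 : ℝ) ^ (r + 1))| ≤
      bb n Q ^ (4 * n + 4) / X ^ (r + 2))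
    (hU4 : 4 * X ^ (1 + 1 / (3 * (n : ℝ))) * (3 * bb n Q ^ (4 * n + 4) / X ^ r) < 1)
    (hU2 : 2 * (3 * bb n Q ^ (4 * n + 4) / X ^ r) ≤ 1) : False := by
  have hb : (1000 : ℝ) ≤ bb n Q := thousand_le_bb hn hQ
  set b := bb n Q with hbd
  have hb1 : (1 : ℝ) ≤ b := by linarith
  have hX1 : 1 ≤ X := (one_le_pow₀ hb1).trans hX
  have hX0 : 0 < X := by linarith
  set Y := X ^ (1 + 1 / (3 * (n : ℝ))) with hYd
  have hY0 : 0 < Y := Real.rpow_pos_of_pos hX0 _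
  set U := 3 * b ^ (4 * n + 4) / X ^ r with hUd
  have hU0 : 0 ≤ U := by positivity
  have hn0 : (0 : ℝ) < n := by exact_mod_cast (by omega : 0 < n)
  have h12' : (x1 : ℝ) < x2 := by exact_mod_cast h12
  have h23' : (x2 : ℝ) < x3 := by exact_mod_cast h23
  have hx1 : (0 : ℝ) < x1 := by linarith
  -- collinear
  have hD : (x2 - x1) * (y3 - y2) - (x3 - x2) * (y2 - y1) = 0 := by
    have e : (((x2 - x1) * (y3 - y2) - (x3 - x2) * (y2 - y1) : ℤ) : ℝ) =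
        ((x2 : ℝ) - x1) * ((y3 - θ * x3 - c0) - (y2 - θ * x2 - c0)) -
          ((x3 : ℝ) - x2) * ((y2 - θ * x2 - c0) - (y1 - θ * x1 - c0)) := by
      push_cast
      ring
    have e2 : |(((x2 - x1) * (y3 - y2) - (x3 - x2) * (y2 - y1) : ℤ) : ℝ)| < 1 := by
      rw [e]
      have a1 : |((x2 : ℝ) - x1) * ((y3 - θ * x3 - c0) - (y2 - θ * x2 - c0))| ≤ Y * (2 * U) := by
        rw [abs_mul]
        refine mul_le_mul ?_ ?_ (abs_nonneg _) hY0.le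
        · rw [abs_of_pos (by linarith)]
          linarith
        · refine (abs_sub _ _).trans ?_
          linarith
      have a2 : |((x3 : ℝ) - x2) * ((y2 - θ * x2 - c0) - (y1 - θ * x1 - c0))| ≤ Y * (2 * U) := by
        rw [abs_mul]
        refine mul_le_mul ?_ ?_ (abs_nonneg _) hY0.le
        · rw [abs_of_pos (by linarith)]
          linarith
        · refine (abs_sub _ _).trans ?_
          linarith
      refine lt_of_le_of_lt (abs_sub _ _) ?_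
      have a3 : Y * (2 * U) + Y * (2 * U) = 4 * Y * U := by ring
      linarith
    have e3 : |(x2 - x1) * (y3 - y2) - (x3 - x2) * (y2 - y1)| < 1 := by
      exact_mod_cast e2
    exact Int.abs_lt_one_iff.1 e3
  have hD' : ((x2 : ℝ) - x1) * (y3 - y2) - (x3 - x2) * (y2 - y1) = 0 := by exact_mod_cast hD
  have s1 := spacing hn hQ O c0 U hU2 x1 y1 x2 y2 h12.ne hu1 hu2
  have s2 := spacing hn hQ O c0 U hU2 x2 y2 x3 y3 h23.ne hu2 hu3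
  rw [abs_of_pos (by linarith)] at s1 s2
  have t1 := thr_space hb hX1 (by linarith : 0 ≤ (x2 : ℝ) - x1) s1
  have t2 := thr_space hb hX1 (by linarith : 0 ≤ (x3 : ℝ) - x2) s2
  have hYpow : Y ^ (3 * n) = X ^ (3 * n + 1) := by
    rw [hYd, ← Real.rpow_natCast, ← Real.rpow_mul hX0.le, ← Real.rpow_natCast]
    congr 1
    push_cast
    field_simp
  refine fin3 (n := n) (r := r) (b := b) (X := X) (Y := Y) (L := min ((x2 : ℝ) - x1) (x3 - x2))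
    (c := c) (d := d) (x1 := x1) (x2 := x2) (x3 := x3)
    (e1 := (y1 : ℝ) - (θ * x1 + c0 + c / (x1 : ℝ) ^ r + d / (x1 : ℝ) ^ (r + 1)))
    (e2 := (y2 : ℝ) - (θ * x2 + c0 + c / (x2 : ℝ) ^ r + d / (x2 : ℝ) ^ (r + 1)))
    (e3 := (y3 : ℝ) - (θ * x3 + c0 + c / (x3 : ℝ) ^ r + d / (x3 : ℝ) ^ (r + 1)))
    hn hr hb hX hY0 hYpow h1 h12' h23' h3 (lt_min (by linarith) (by linarith)) (min_le_left _ _)
    (min_le_right _ _) ?_ hlow hd he1 he2 he3 ?_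
  · rcases min_choice ((x2 : ℝ) - x1) (x3 - x2) with h | h
    · rw [h]; exact t1
    · rw [h]; exact t2
  · have e4 : (c / (x3 : ℝ) ^ r + d / (x3 : ℝ) ^ (r + 1) +
        ((y3 : ℝ) - (θ * x3 + c0 + c / (x3 : ℝ) ^ r + d / (x3 : ℝ) ^ (r + 1)))) -
        (c / (x2 : ℝ) ^ r + d / (x2 : ℝ) ^ (r + 1) +
        ((y2 : ℝ) - (θ * x2 + c0 + c / (x2 : ℝ) ^ r + d / (x2 : ℝ) ^ (r + 1)))) =
        ((y3 : ℝ) - y2) - θ * (x3 - x2) := by ring
    have e5 : (c / (x2 : ℝ) ^ r + d / (x2 : ℝ) ^ (r + 1) +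
        ((y2 : ℝ) - (θ * x2 + c0 + c / (x2 : ℝ) ^ r + d / (x2 : ℝ) ^ (r + 1)))) -
        (c / (x1 : ℝ) ^ r + d / (x1 : ℝ) ^ (r + 1) +
        ((y1 : ℝ) - (θ * x1 + c0 + c / (x1 : ℝ) ^ r + d / (x1 : ℝ) ^ (r + 1)))) =
        ((y2 : ℝ) - y1) - θ * (x2 - x1) := by ring
    rw [e4, e5, div_eq_div_iff (by linarith) (by linarith)]
    linear_combination hD'

theorem three (hn : 4 ≤ n) (hQ : 2 ^ n ≤ Q) (O : Ord ℝ n Q f θ) {r : ℕ} (hr : 2 ≤ r)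
    (hrn : r + 3 ≤ n) (c0 c d : ℝ) (hc : |c| ≤ bb n Q ^ (4 * n)) (hd : |d| ≤ bb n Q ^ (4 * n))
    (hlow : 1 ≤ |c| * bb n Q ^ (3 * n ^ 2)) (X : ℝ) (hX : bb n Q ^ (100 * n ^ 3) ≤ X)
    (p : Fin 3 → ℤ × ℤ) (hp : Function.Injective p) (h1 : ∀ i, X ≤ ((p i).1 : ℝ))
    (h2 : ∀ i, ((p i).1 : ℝ) ≤ X ^ (1 + 1 / (3 * (n : ℝ))))
    (h3 : ∀ i, |((p i).2 : ℝ) - (θ * (p i).1 + c0 + c / ((p i).1 : ℝ) ^ r +
      d / ((p i).1 : ℝ) ^ (r + 1))| ≤ bb n Q ^ (4 * r + 16) / ((p i).1 : ℝ) ^ (r + 2)) : False := by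
  have hb : (1000 : ℝ) ≤ bb n Q := thousand_le_bb hn hQ
  have hb1 : (1 : ℝ) ≤ bb n Q := by linarith
  have hX1 : 1 ≤ X := (one_le_pow₀ hb1).trans hX
  have hX0 : 0 < X := by linarith
  have hbig := thr_big hn hb hX
  -- the errors
  have he : ∀ i, |((p i).2 : ℝ) - (θ * (p i).1 + c0 + c / ((p i).1 : ℝ) ^ r +
      d / ((p i).1 : ℝ) ^ (r + 1))| ≤ bb n Q ^ (4 * n + 4) / X ^ (r + 2) := by
    intro i
    refine (h3 i).trans ?_
    refine div_le_div₀ (by positivity) (pow_le_pow_right₀ hb1 (by omega)) (by positivity) ?_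
    exact pow_le_pow_left₀ hX0.le (h1 i) _
  have hu : ∀ i, |((p i).2 : ℝ) - θ * (p i).1 - c0| ≤ 3 * bb n Q ^ (4 * n + 4) / X ^ r := by
    intro i
    have h4 := thr_u hrn hb hX1 (h1 i) hc hd (he i)
    have e : c / ((p i).1 : ℝ) ^ r + d / ((p i).1 : ℝ) ^ (r + 1) +
        (((p i).2 : ℝ) - (θ * (p i).1 + c0 + c / ((p i).1 : ℝ) ^ r +
        d / ((p i).1 : ℝ) ^ (r + 1))) = ((p i).2 : ℝ) - θ * (p i).1 - c0 := by ring
    rwa [e] at h4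
  set b := bb n Q with hbd
  set U := 3 * b ^ (4 * n + 4) / X ^ r with hUd
  have hM : (0 : ℝ) ≤ b ^ (4 * n + 4) := by positivity
  have hUX : U ≤ 3 * b ^ (4 * n + 4) / X ^ 2 :=
    div_le_div_of_nonneg_left (by positivity) (by positivity) (pow_le_pow_right₀ hX1 hr)
  have hU0 : 0 ≤ U := by positivity
  set Y := X ^ (1 + 1 / (3 * (n : ℝ))) with hYd
  have hY0 : 0 < Y := Real.rpow_pos_of_pos hX0 _
  have hY2 : Y ^ 2 ≤ X ^ 3 := by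
    rw [hYd, ← Real.rpow_natCast, ← Real.rpow_mul hX0.le, ← Real.rpow_natCast]
    refine Real.rpow_le_rpow_of_exponent_le hX1 ?_
    have hn1 : (1 : ℝ) ≤ n := by exact_mod_cast (by omega : 1 ≤ n)
    have : 1 / (3 * (n : ℝ)) ≤ 1 / 3 := by
      apply one_div_le_one_div_of_le <;> linarith
    push_cast
    linarith
  have hXY : X ≤ Y := by
    calc X = X ^ (1 : ℝ) := (Real.rpow_one X).symm
      _ ≤ Y := by
        rw [hYd]
        refine Real.rpow_le_rpow_of_exponent_le hX1 ?_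
        have : (0 : ℝ) ≤ 1 / (3 * (n : ℝ)) := by positivity
        linarith
  have hU4 : 4 * Y * U < 1 := by
    have h4 : 4 * Y * U ≤ 4 * Y * (3 * b ^ (4 * n + 4) / X ^ 2) := by gcongr
    refine h4.trans_lt ?_
    have h5 : (4 * Y * (3 * b ^ (4 * n + 4) / X ^ 2)) ^ 2 < 1 := by
      have e : (4 * Y * (3 * b ^ (4 * n + 4) / X ^ 2)) ^ 2 =
          144 * b ^ (8 * n + 8) * Y ^ 2 / X ^ 4 := by
        have e' : b ^ (8 * n + 8) = (b ^ (4 * n + 4)) ^ 2 := by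
          rw [← pow_mul]
          congr 1
          ring
        rw [e']
        field_simp
        ring
      rw [e, div_lt_one (by positivity)]
      calc 144 * b ^ (8 * n + 8) * Y ^ 2 ≤ 144 * b ^ (8 * n + 8) * X ^ 3 := by gcongr
        _ < X * X ^ 3 := by gcongr
        _ = X ^ 4 := by ring
    have h6 : 0 ≤ 4 * Y * (3 * b ^ (4 * n + 4) / X ^ 2) := by positivity
    nlinarith
  have hU2 : 2 * U ≤ 1 := by
    have : 1 ≤ Y := hX1.trans hXY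
    nlinarith
  -- the abscissas are distinct
  have hinj : Function.Injective fun i => (p i).1 := by
    intro i j hij
    apply hp
    have hij' : (p i).1 = (p j).1 := hij
    refine Prod.ext hij' ?_
    have h4 := hu i
    have h5 := hu j
    rw [hij'] at h4
    have e : (((p i).2 - (p j).2 : ℤ) : ℝ) =
        (((p i).2 : ℝ) - θ * (p j).1 - c0) - (((p j).2 : ℝ) - θ * (p j).1 - c0) := by
      push_cast
      ring
    have h6 : |(((p i).2 - (p j).2 : ℤ) : ℝ)| < 1 := by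
      rw [e]
      refine lt_of_le_of_lt (abs_sub _ _) ?_
      have : 2 * U < 1 := by
        have : 1 ≤ Y := hX1.trans hXY
        nlinarith
      linarith
    have h7 : |(p i).2 - (p j).2| < 1 := by exact_mod_cast h6
    have h8 := Int.abs_lt_one_iff.1 h7
    omega
  set σ := Tuple.sort fun i => (p i).1 with hσ
  have hm : StrictMono ((fun i => (p i).1) ∘ σ) :=
    (Tuple.monotone_sort _).strictMono_of_injective (hinj.comp σ.injective)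
  have h01 : (p (σ 0)).1 < (p (σ 1)).1 := hm (by decide : (0 : Fin 3) < 1)
  have h12 : (p (σ 1)).1 < (p (σ 2)).1 := hm (by decide : (1 : Fin 3) < 2)
  exact three_ord hn hQ O hr hrn c0 c d hc hd hlow X hX (p (σ 0)).1 (p (σ 0)).2 (p (σ 1)).1
    (p (σ 1)).2 (p (σ 2)).1 (p (σ 2)).2 h01 h12 (h1 _) (h2 _) (hu _) (hu _) (hu _) (he _) (he _)
    (he _) hU4 hU2

end Pool.Agent.H15.FX
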