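import Pool.Agent.H15.FX.FIN
import Pool.Agent.H47.SP.CLS
import Pool.Agent.H47.SP.RNC

/-!
# TOP: leading forms that are not a constant times a proper power

`nonpow`: for `n ≥ 3` there are `E`, `C` such that for all finite sets `A i j` of at most `s` integers at
most `C s^(4n-2)` polynomials `F` of total degree `≤ n`, coefficients in the `A i j`, irreducible over
`ℚ`, leading form not of the shape `c q^j`, `j ≥ 2`, have an integer zero larger than `H^E`, `H ≥ 2` a
bound of the coefficients of `F`.
-/

set_option autoImplicit false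

namespace Pool.Agent.H15.FX

open Finset Polynomial Pool.Agent.H72.ES Pool.Agent.H47.SP

/-- the leading form is not a constant times a proper power -/
def NonPow (F : MvPolynomial (Fin 2) ℤ) : Prop :=
  ∀ (q : MvPolynomial (Fin 2) ℤ) (c : ℤ) (j : ℕ), 2 ≤ j →
    MvPolynomial.homogeneousComponent F.totalDegree F ≠ MvPolynomial.C c * q ^ j

/-- an integer zero larger than `H ^ E`, `H ≥ 2` a bound of the coefficients -/
def BigE (E : ℕ) (F : MvPolynomial (Fin 2) ℤ) : Prop :=
  ∃ H : ℕ, 2 ≤ H ∧ (∀ m, |F.coeff m| ≤ (H : ℤ)) ∧ ∃ x y : ℤ,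
    (H : ℤ) ^ E < max |x| |y| ∧ MvPolynomial.eval ![x, y] F = 0

/-- the swap of the variables -/
noncomputable def sw : MvPolynomial (Fin 2) ℤ ≃ₐ[ℤ] MvPolynomial (Fin 2) ℤ :=
  MvPolynomial.renameEquiv ℤ (Equiv.swap (0 : Fin 2) 1)

theorem ld_homog (m : ℕ) (F : MvPolynomial (Fin 2) ℤ) :
    (ld m F).homogenize m = sw (MvPolynomial.homogeneousComponent m F) := by
  set L := MvPolynomial.homogeneousComponent m F with hL
  have hLhom : L.IsHomogeneous m := MvPolynomial.homogeneousComponent_isHomogeneous m F
  have hLdeg : L.totalDegree ≤ m := hLhom.totalDegree_le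
  have hLarr : ∀ i j, arrM L i j = if i + j = m then arrM F i j else 0 := by
    intro i j
    simp only [arrM, hL]
    rw [MvPolynomial.coeff_homogeneousComponent, ex_deg, ex_zero, ex_one]
  have hσhom : (sw L).IsHomogeneous m := by
    have := hLhom.rename_isHomogeneous (f := (Equiv.swap (0 : Fin 2) 1))
    exact this
  refine homogenize_eq_of_isHomogeneous hσhom ?_
  have h1 : MvPolynomial.aeval ![(X : ℤ[X]), 1] (sw L) = MvPolynomial.aeval ![(1 : ℤ[X]), X] L := by
    unfold sw
    simp only [MvPolynomial.renameEquiv_apply, MvPolynomial.aeval_rename]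
    congr 1
    ext i
    fin_cases i <;> simp
  rw [h1]
  have h2 : MvPolynomial.aeval ![(1 : ℤ[X]), X] L =
      MvPolynomial.eval₂ (Int.castRingHom ℤ[X]) ![(1 : ℤ[X]), X] L := by
    rw [MvPolynomial.aeval_def]
    congr 1
  rw [h2, eval₂_arrM hLdeg, ev_zero_left]
  · unfold ld lead
    refine sum_congr rfl fun j hj => ?_
    simp only [mem_range] at hj
    simp only [cst]
    rw [hLarr, if_pos (by omega)]
    simp
  · intro i j hij
    simp only [cst]
    rw [hLarr, if_neg hij]
    simp

theorem homog_pow (p : ℤ[X]) (e : ℕ) (he : p.natDegree ≤ e) (j : ℕ) :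
    (p ^ j).homogenize (j * e) = p.homogenize e ^ j := by
  induction j with
  | zero =>
    rw [pow_zero, pow_zero, zero_mul, homogenize_one, pow_zero]
  | succ j ih =>
    rw [pow_succ, pow_succ, add_mul, one_mul, homogenize_mul _ _ _ he, ih]
    exact (natDegree_pow_le).trans (Nat.mul_le_mul_left _ he)

/-- a leading polynomial which is a constant or a constant times a proper power -/
theorem not_nonPow {F : MvPolynomial (Fin 2) ℤ} (hm : 2 ≤ F.totalDegree)
    (h : (ld F.totalDegree F).natDegree = 0 ∨
      ((ld F.totalDegree F).natDegree = F.totalDegree ∧ Pow (ld F.totalDegree F))) :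
    ¬ NonPow F := by
  intro hN
  obtain ⟨m, hmd⟩ : ∃ m, m = F.totalDegree := ⟨_, rfl⟩
  have hL := ld_homog m F
  unfold NonPow at hN
  rw [← hmd] at h hm hN
  rcases h with h | ⟨h, a, p, j, hj, hp⟩
  · rw [eq_C_of_natDegree_eq_zero h, homogenize_C] at hL
    have h1 : MvPolynomial.homogeneousComponent m F =
        sw.symm (MvPolynomial.C ((ld m F).coeff 0) * MvPolynomial.X 1 ^ m) := by
      rw [hL]
      exact (sw.symm_apply_apply _).symm
    refine hN (sw.symm (MvPolynomial.X 1)) ((ld m F).coeff 0) m hm ?_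
    rw [h1, map_mul, map_pow]
    congr 1
    exact sw.symm.commutes _
  · have ha : a ≠ 0 := by
      rintro rfl
      rw [hp] at h
      simp at h
      omega
    have hdeg : m = j * p.natDegree := by
      rw [← h, hp, natDegree_C_mul ha, natDegree_pow]
    rw [hp, homogenize_C_mul, hdeg, homog_pow p p.natDegree le_rfl j] at hL
    have h1 : MvPolynomial.homogeneousComponent m F =
        sw.symm (MvPolynomial.C a * p.homogenize p.natDegree ^ j) := by
      rw [hL, ← hdeg]
      exact (sw.symm_apply_apply _).symm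
    refine hN (sw.symm (p.homogenize p.natDegree)) a j hj ?_
    rw [h1, map_mul, map_pow]
    congr 1
    exact sw.symm.commutes _

/-- a leading polynomial of full degree which is irreducible -/
theorem irL_of {m : ℕ} {F : MvPolynomial (Fin 2) ℤ} (h0 : 1 ≤ m) (hd : (ld m F).natDegree = m)
    (hi : Irreducible ((ld m F).map (Int.castRingHom ℚ))) : IrL m F := by
  refine ⟨?_, ?_⟩
  · intro h
    have h1 := ld_coeff F m le_rfl
    rw [Nat.sub_self, h] at h1
    have h2 : (ld m F).leadingCoeff = 0 := by
      rw [leadingCoeff, hd]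
      exact h1
    rw [leadingCoeff_eq_zero] at h2
    rw [h2, natDegree_zero] at hd
    omega
  · rw [ld_leadQ]
    exact hi

theorem nonpow (n : ℕ) (hn : 3 ≤ n) : ∃ E C : ℕ, ∀ (A : ℕ → ℕ → Finset ℤ) (s : ℕ),
    (∀ i j, (A i j).card ≤ s) → ∀ S : Finset (MvPolynomial (Fin 2) ℤ),
    (∀ F ∈ S, F.totalDegree ≤ n ∧ (∀ i j, i + j ≤ n → arrM F i j ∈ A i j) ∧ IrrQ F ∧ NonPow F ∧
      BigE E F) → S.card ≤ C * s ^ (4 * n - 2) := by
  classical
  choose K hK using run_split
  set E := (range (n + 1)).sup K + 5300000 * n ^ 6 with hE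
  refine ⟨E, (n + 1) * (39 * n ^ 4), fun A s hA S hS => ?_⟩
  rcases Nat.eq_zero_or_pos s with hs | hs
  · have hemp : S = ∅ := by
      apply eq_empty_of_forall_notMem
      intro F hF
      have h1 := (hS F hF).2.1 0 0 (by omega)
      have h2 := hA 0 0
      rw [hs] at h2
      have h3 : A 0 0 = ∅ := card_eq_zero.1 (by omega)
      rw [h3] at h1
      exact absurd h1 (notMem_empty _)
    rw [hemp]
    simp
  have hn4 : 1 ≤ 39 * n ^ 4 := by
    have : 1 ≤ n ^ 4 := Nat.one_le_pow _ _ (by omega)
    omega
  have hpart : ∀ m ∈ range (n + 1), (S.filter fun F => F.totalDegree = m).card ≤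
      39 * n ^ 4 * s ^ (4 * n - 2) := by
    intro m hm
    have hmn : m ≤ n := by
      have := mem_range.1 hm
      omega
    rcases Nat.lt_or_ge m 4 with h4 | h4
    · have h1 := key_count {0, 1, 2, 3} A s 1 hA (S.filter fun F => F.totalDegree = m) ?_ ?_
      · have e : ∑ d ∈ ({0, 1, 2, 3} : Finset ℕ), (d + 1) = 10 := by decide
        rw [e, one_mul] at h1
        refine h1.trans ?_
        calc s ^ 10 ≤ s ^ (4 * n - 2) := Nat.pow_le_pow_right hs (by omega)
          _ = 1 * s ^ (4 * n - 2) := (one_mul _).symm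
          _ ≤ _ := Nat.mul_le_mul_right _ hn4
      · intro F hF i j hij
        refine (hS F (mem_filter.1 hF).1).2.1 i j ?_
        simp only [mem_insert, mem_singleton] at hij
        omega
      · intro T hT hag
        rw [card_le_one]
        intro F hF G hG
        apply arrM_inj
        funext i j
        have hFd := (mem_filter.1 (hT hF)).2
        have hGd := (mem_filter.1 (hT hG)).2
        by_cases h : i + j ≤ 3
        · refine hag F hF G hG i j ?_
          simp only [mem_insert, mem_singleton]
          omega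
        · rw [arrM_supp (n := 3) (by omega) i j (by omega),
            arrM_supp (n := 3) (by omega) i j (by omega)]
    · have hmem : ∀ F ∈ S.filter (fun F => F.totalDegree = m), Cnd m F ∧
          ∀ i j, i + j ≤ m → arrM F i j ∈ A i j := by
        intro F hF
        obtain ⟨hFS, hFd⟩ := mem_filter.1 hF
        obtain ⟨h1, h2, h3, h5, H, hH, hb, x, y, hxy, h0⟩ := hS F hFS
        have hKm : K m ≤ E := by
          have : K m ≤ (range (n + 1)).sup K := le_sup (f := K) hm
          omega
        have hH1 : (1 : ℤ) ≤ H := by exact_mod_cast (by omega : 1 ≤ H)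
        have hbox : InBox m H F := ⟨hFd.le, hb⟩
        refine ⟨⟨hFd.le, ?_, H, hH, hb, x, y, ?_, h0⟩, fun i j hij => h2 i j (by omega)⟩
        · have hnn : ¬ ((ld F.totalDegree F).natDegree = 0 ∨
              ((ld F.totalDegree F).natDegree = F.totalDegree ∧ Pow (ld F.totalDegree F))) :=
            fun h => not_nonPow (by omega) h h5
          rw [hFd] at hnn
          rcases cls (by omega : 1 ≤ m) (ld m F) (ld_deg F) with h | h | ⟨h, h' | h'⟩
          · exact absurd (Or.inl h) hnn
          · exfalso
            have h6 := hK m H F hH hbox h3 h x y h0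
            have h7 : (H : ℤ) ^ K m ≤ (H : ℤ) ^ E := pow_le_pow_right₀ hH1 hKm
            exact absurd (hxy.trans_le (h6.trans h7)) (lt_irrefl _)
          · exact irL_of (by omega) h h'
          · exact absurd (Or.inr ⟨h, h'⟩) hnn
        · refine lt_of_le_of_lt ?_ hxy
          refine pow_le_pow_right₀ hH1 ?_
          have : m ^ 6 ≤ n ^ 6 := Nat.pow_le_pow_left hmn 6
          omega
      have h1 := irr_count h4 A s hA _ hmem
      refine h1.trans ?_
      have h2 : m ^ 4 ≤ n ^ 4 := Nat.pow_le_pow_left hmn 4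
      exact Nat.mul_le_mul (Nat.mul_le_mul_left _ h2) (Nat.pow_le_pow_right hs (by omega))
  have hsub : S ⊆ (range (n + 1)).biUnion fun m => S.filter fun F => F.totalDegree = m := by
    intro F hF
    rw [mem_biUnion]
    refine ⟨F.totalDegree, ?_, mem_filter.2 ⟨hF, rfl⟩⟩
    rw [mem_range]
    have := (hS F hF).1
    omega
  calc S.card ≤ _ := card_le_card hsub
    _ ≤ ∑ m ∈ range (n + 1), (S.filter fun F => F.totalDegree = m).card := card_biUnion_le
    _ ≤ ∑ m ∈ range (n + 1), 39 * n ^ 4 * s ^ (4 * n - 2) := sum_le_sum hpart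
    _ = (n + 1) * (39 * n ^ 4) * s ^ (4 * n - 2) := by
      rw [sum_const, card_range, smul_eq_mul]
      ring

end Pool.Agent.H15.FX
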