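import Pool.Agent.H15.FX.XPA

/-!
# XPC: bounds for the coefficients of the expansion

`br := exists_branch O hG`, `xp_coeff hG br hv`.

`coeff_upper`: `exp_phi_coeff`: `|φ w_(k+1)| b ≤ b^(2k+2)`, so `≤ b^(2k+1)`; `1/|κ| ≤ b`
(`exp_kappa`); `coeff (k+1) v = φ(w_(k+1)) / κ^(2k+1)`: at most `b^(2k+1) b^(2k+1)`.

`coeff_lower`: `w := coeff (r+1) br.w ≠ 0`, `O.liouville w : 1 ≤ |φ w| Q^(4n) ν(w)^n`,
`ν w ≤ b^(2r+1)` (`br.bd (r+1)`, `coeff_le_wn`, as in `ga_lower`), `Q^(4n) ≤ b`, `|κ| ≤ ν κ ≤ b`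
(`kappa_bound`): `1 ≤ |coeff (r+1) v| |κ|^(2r+1) b b^((2r+1)n) ≤ |coeff| b^((2r+1)(n+1)+1)`, and
`(2r+1)(n+1)+1 ≤ 3 n²` for `r ≤ n`, `n ≥ 4`: `(2n+1)(n+1)+1 = 2n²+3n+2 ≤ 3n²`.
-/

set_option autoImplicit false

namespace Pool.Agent.H15.FX

open Finset Polynomial Pool.Agent.H72.ES Pool.Agent.H8.UL

variable {n Q : ℕ} {f : ℤ[X]} {θ : ℝ}

theorem xpc_pow (K A : ℝ) (hK : K ≠ 0) (k : ℕ) :
    K * (A * (1 / K ^ 2) ^ (k + 1)) = A * (1 / K) ^ (2 * k + 1) := by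
  have h : (1 / K ^ 2) ^ (k + 1) = (1 / K) ^ (2 * k + 1) * (1 / K) := by
    rw [← pow_succ, show (1 / K ^ 2) = (1 / K) ^ 2 by rw [one_div_pow], ← pow_mul]
    congr 1
  rw [h]
  have h1 : K * (1 / K) = 1 := mul_one_div_cancel hK
  linear_combination A * (1 / K) ^ (2 * k + 1) * h1

theorem xpc_pow2 (K A : ℝ) (hK : K ≠ 0) (k : ℕ) :
    A = K * (A * (1 / K ^ 2) ^ (k + 1)) * K ^ (2 * k + 1) := by
  rw [xpc_pow K A hK k, mul_assoc, ← mul_pow, one_div_mul_cancel hK, one_pow, mul_one]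

theorem coeff_upper (O : Ord ℝ n Q f θ) {G : ℕ → ℕ → ℤ} (hG : Norml n Q f G)
    {v : PowerSeries ℝ} (hv : Xp n G θ v) (k : ℕ) :
    |PowerSeries.coeff (k + 1) v| ≤ bb n Q ^ (4 * k + 2) := by
  obtain ⟨br⟩ := exists_branch O hG
  have hb := bb_pos hG.hn hG.hQ
  obtain ⟨hk0, hk⟩ := exp_kappa (O := O) hG
  have hk' : 0 ≤ 1 / |O.φ O.κ| := by positivity
  have h1 : |O.φ (PowerSeries.coeff (k + 1) br.w)| ≤ bb n Q ^ (2 * k + 1) := by
    have := exp_phi_coeff hG br (k + 1)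
    refine le_of_mul_le_mul_right (this.trans_eq ?_) hb
    ring
  rw [xp_coeff hG br hv (k + 1)]
  have e : |O.φ O.κ * (O.φ (PowerSeries.coeff (k + 1) br.w) * (1 / O.φ O.κ ^ 2) ^ (k + 1))| =
      |O.φ (PowerSeries.coeff (k + 1) br.w)| * (1 / |O.φ O.κ|) ^ (2 * k + 1) := by
    rw [abs_mul, abs_mul, abs_pow, abs_div, abs_one, abs_pow]
    exact xpc_pow _ _ hk0.ne' k
  rw [e]
  calc |O.φ (PowerSeries.coeff (k + 1) br.w)| * (1 / |O.φ O.κ|) ^ (2 * k + 1)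
      ≤ bb n Q ^ (2 * k + 1) * bb n Q ^ (2 * k + 1) :=
        mul_le_mul h1 (pow_le_pow_left₀ hk' hk _) (by positivity) (by positivity)
    _ = bb n Q ^ (4 * k + 2) := by rw [← pow_add]; congr 1; ring

theorem coeff_lower (O : Ord ℝ n Q f θ) {G : ℕ → ℕ → ℤ} (hG : Norml n Q f G)
    {v : PowerSeries ℝ} (hv : Xp n G θ v) (r : ℕ) (hr : r ≤ n)
    (h : PowerSeries.coeff (r + 1) v ≠ 0) :
    1 ≤ |PowerSeries.coeff (r + 1) v| * bb n Q ^ (3 * n ^ 2) := by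
  obtain ⟨br⟩ := exists_branch O hG
  have hn := hG.hn
  have hQ := hG.hQ
  have hb0 := bb_pos hn hQ
  have hb1 := one_le_bb hn hQ
  have hQ1 := one_le_QR hn hQ
  obtain ⟨hκ0, -⟩ := exp_kappa (O := O) hG
  have hc := xp_coeff hG br hv (r + 1)
  set w : O.R := PowerSeries.coeff (r + 1) br.w with hw
  have hw0 : w ≠ 0 := by
    intro h0
    apply h
    rw [hc, h0, map_zero, zero_mul, mul_zero]
  have hν : O.ν w ≤ bb n Q ^ (2 * r + 1) := by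
    have h1 := coeff_le_wn O.subMul (by positivity : (0 : ℝ) ≤ 1 / bb n Q ^ 2)
      (le_refl (r + 1)) br.w
    have h2 := h1.trans (br.bd (r + 1))
    rw [← hw] at h2
    rw [one_div_pow, mul_one_div, ← pow_mul, div_le_div_iff₀ (by positivity) hb0, one_mul] at h2
    refine le_of_mul_le_mul_right (h2.trans_eq ?_) hb0
    ring
  have hl := O.liouville w hw0
  rw [Real.norm_eq_abs] at hl
  have hQ4 : (Q : ℝ) ^ (4 * n) ≤ bb n Q := Qpow_le_bb hn hQ (by nlinarith)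
  have hνn : O.ν w ^ n ≤ bb n Q ^ ((2 * r + 1) * n) := by
    rw [pow_mul]
    exact pow_le_pow_left₀ (O.ν_nonneg _) hν n
  have hl2 : 1 ≤ |O.φ w| * bb n Q ^ ((2 * r + 1) * n + 1) := by
    refine hl.trans (mul_le_mul_of_nonneg_left ?_ (abs_nonneg _))
    rw [pow_succ, mul_comm]
    exact mul_le_mul hνn hQ4 (by positivity) (by positivity)
  have hκ : |O.φ O.κ| ≤ bb n Q := by
    have := (O.φ_le O.κ).trans (kappa_bound O hG)
    rw [Real.norm_eq_abs] at this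
    exact this.trans (Qpow_le_bb hn hQ (by nlinarith))
  have hφ : |O.φ w| = |PowerSeries.coeff (r + 1) v| * |O.φ O.κ| ^ (2 * r + 1) := by
    rw [hc, abs_mul, abs_mul, abs_pow, abs_div, abs_one, abs_pow]
    exact xpc_pow2 _ _ hκ0.ne' r
  rw [hφ] at hl2
  have hexp : (2 * r + 1) + ((2 * r + 1) * n + 1) ≤ 3 * n ^ 2 := by
    have h1 : (2 * r + 1) * n ≤ (2 * n + 1) * n := Nat.mul_le_mul_right _ (by omega)
    nlinarith
  calc 1 ≤ |PowerSeries.coeff (r + 1) v| * |O.φ O.κ| ^ (2 * r + 1) *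
        bb n Q ^ ((2 * r + 1) * n + 1) := hl2
    _ ≤ |PowerSeries.coeff (r + 1) v| * bb n Q ^ (2 * r + 1) *
        bb n Q ^ ((2 * r + 1) * n + 1) := by
        refine mul_le_mul_of_nonneg_right ?_ (by positivity)
        exact mul_le_mul_of_nonneg_left (pow_le_pow_left₀ (abs_nonneg _) hκ _) (abs_nonneg _)
    _ = |PowerSeries.coeff (r + 1) v| * bb n Q ^ ((2 * r + 1) + ((2 * r + 1) * n + 1)) := by
        rw [mul_assoc, ← pow_add]
    _ ≤ |PowerSeries.coeff (r + 1) v| * bb n Q ^ (3 * n ^ 2) :=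
        mul_le_mul_of_nonneg_left (bbpow_mono hn hQ hexp) (abs_nonneg _)

end Pool.Agent.H15.FX
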