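import Pool.Agent.H15.FX.XPB
import Pool.Agent.H15.FX.XPC
import Pool.Agent.H15.FX.THR

/-!
# WIN: at most four huge points in one window

If `S.card ≥ 5`, at least three points of `S` have `x > 0` or at least three have `x < 0`
(`x ≠ 0`). First case: `three` with `c0 = coeff 1 v`, `c = coeff (r+1) v`, `d = coeff (r+2) v`,
`expandR` for `h3` (`|x| = x`), `coeff_upper` (`4 r + 2, 4 (r+1) + 2 ≤ 4 n`), `coeff_lower`
(`r ≤ n`). Second case: the points `(-x, -y)`, `x' = -x`, `y' = -y`: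
`|y' - (θ x' - c0 + c'/x'^r + d'/x'^(r+1))| = |y - (θ x + c0 + c/x^r + d/x^(r+1))|` with
`c' = (-1)^(r+1) c`, `d' = (-1)^(r+2) d` (`x'^r = (-1)^r x^r`).
-/

set_option autoImplicit false

namespace Pool.Agent.H15.FX

open Finset Polynomial Pool.Agent.H72.ES Pool.Agent.H8.UL

variable {n Q : ℕ} {f : ℤ[X]} {θ : ℝ}

/-- three points with positive abscissas -/
private theorem win_pos {G : ℕ → ℕ → ℤ} (hN : Norml n Q f G) (O : Ord ℝ n Q f θ)
    {v : PowerSeries ℝ} (hv : Xp n G θ v) {r : ℕ} (hr : 2 ≤ r) (hrn : r + 3 ≤ n) (hfl : Flx r v)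
    (ε : ℤ) (hε : ε = 1 ∨ ε = -1) (p : Fin 3 → ℤ × ℤ) (hp : Function.Injective p)
    (hS : ∀ i, (∃ F, Norml n Q f F ∧ TopT (r + 3) n F G ∧ ev n F (p i).1 (p i).2 = 0) ∧
      |((p i).2 : ℝ) / (p i).1 - θ| ≤ 1 / bb n Q)
    (X : ℝ) (hX : bb n Q ^ (100 * n ^ 3) ≤ X) (h1 : ∀ i, X ≤ |((p i).1 : ℝ)|)
    (h2 : ∀ i, |((p i).1 : ℝ)| ≤ X ^ (1 + 1 / (3 * (n : ℝ)))) (hpos : ∀ i, 0 < ε * (p i).1) :
    False := by
  have hb1 := one_le_bb hN.hn hN.hQ
  have hn := hN.hn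
  have hX1 : 1 ≤ X := (one_le_pow₀ hb1).trans hX
  have hc := coeff_upper O hN hv r
  have hd := coeff_upper O hN hv (r + 1)
  have hlow := coeff_lower O hN hv r (by omega) hfl.ne
  have h5X : bb n Q ^ 5 ≤ X := by
    refine le_trans (pow_le_pow_right₀ hb1 ?_) hX
    have : 1 ≤ n ^ 3 := Nat.one_le_pow _ _ (by omega)
    omega
  have hexp : ∀ i, |((p i).2 : ℝ) - (θ * (p i).1 + PowerSeries.coeff 1 v +
      PowerSeries.coeff (r + 1) v / ((p i).1 : ℝ) ^ r +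
      PowerSeries.coeff (r + 2) v / ((p i).1 : ℝ) ^ (r + 1))| ≤
      bb n Q ^ (4 * r + 16) / |((p i).1 : ℝ)| ^ (r + 2) := by
    intro i
    obtain ⟨⟨F, hF, hFG, h0⟩, hnear⟩ := hS i
    exact expandR O hF hN hr hrn hFG hv hfl.zero (p i).1 (p i).2 (h5X.trans (h1 i)) hnear h0
  have hεε : ε * ε = 1 := by rcases hε with h | h <;> subst h <;> norm_num
  have hεR : (ε : ℝ) * ε = 1 := by exact_mod_cast hεε
  have habsε : |(ε : ℝ)| = 1 := by rcases hε with h | h <;> subst h <;> simp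
  have habs : ∀ i, |((p i).1 : ℝ)| = ((ε * (p i).1 : ℤ) : ℝ) := by
    intro i
    have h3 : (0 : ℝ) < ((ε * (p i).1 : ℤ) : ℝ) := by exact_mod_cast hpos i
    rw [← abs_of_pos h3]
    push_cast
    rw [abs_mul, habsε, one_mul]
  have hbp : ∀ k, 4 * k + 2 ≤ 4 * n → bb n Q ^ (4 * k + 2) ≤ bb n Q ^ (4 * n) := fun k hk =>
    pow_le_pow_right₀ hb1 hk
  have hεpow : ∀ k : ℕ, |(ε : ℝ) ^ k| = 1 := fun k => by rw [abs_pow, habsε, one_pow]
  refine three hN.hn hN.hQ O hr hrn (ε * PowerSeries.coeff 1 v)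
    (ε ^ (r + 1) * PowerSeries.coeff (r + 1) v) (ε ^ (r + 2) * PowerSeries.coeff (r + 2) v)
    ?_ ?_ ?_ X hX (fun i => (ε * (p i).1, ε * (p i).2)) ?_ ?_ ?_ ?_
  · rw [abs_mul, hεpow, one_mul]
    exact hc.trans (hbp r (by omega))
  · rw [abs_mul, hεpow, one_mul]
    exact hd.trans (hbp (r + 1) (by omega))
  · rw [abs_mul, hεpow, one_mul]
    exact hlow
  · intro i j hij
    simp only [Prod.mk.injEq] at hij
    apply hp
    refine Prod.ext ?_ ?_
    · have := congrArg (fun z => ε * z) hij.1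
      simp only [← mul_assoc, hεε, one_mul] at this
      exact this
    · have := congrArg (fun z => ε * z) hij.2
      simp only [← mul_assoc, hεε, one_mul] at this
      exact this
  · intro i
    simp only
    rw [← habs i]
    exact h1 i
  · intro i
    simp only
    rw [← habs i]
    exact h2 i
  · intro i
    simp only
    rw [← habs i]
    have hx0 : ((p i).1 : ℝ) ≠ 0 := by
      have h3 := hpos i
      have h4 : (p i).1 ≠ 0 := by
        intro h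
        rw [h] at h3
        simp at h3
      exact_mod_cast h4
    refine le_trans (le_of_eq ?_) (hexp i)
    have e1 : |((p i).1 : ℝ)| = (ε : ℝ) * (p i).1 := by
      rw [habs i]
      push_cast
      ring
    have hε0 : (ε : ℝ) ≠ 0 := by
      intro h
      rw [h] at hεR
      norm_num at hεR
    have e2 : ∀ k : ℕ, (ε : ℝ) ^ (k + 1) / ((ε : ℝ) * (p i).1) ^ k = ε / ((p i).1 : ℝ) ^ k := by
      intro k
      rw [mul_pow, pow_succ]
      field_simp
    have e3 : ((ε * (p i).2 : ℤ) : ℝ) - (θ * |((p i).1 : ℝ)| + ε * PowerSeries.coeff 1 v +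
        ε ^ (r + 1) * PowerSeries.coeff (r + 1) v / |((p i).1 : ℝ)| ^ r +
        ε ^ (r + 2) * PowerSeries.coeff (r + 2) v / |((p i).1 : ℝ)| ^ (r + 1)) =
        ε * (((p i).2 : ℝ) - (θ * (p i).1 + PowerSeries.coeff 1 v +
        PowerSeries.coeff (r + 1) v / ((p i).1 : ℝ) ^ r +
        PowerSeries.coeff (r + 2) v / ((p i).1 : ℝ) ^ (r + 1))) := by
      rw [e1]
      have e4 : (ε : ℝ) ^ (r + 1) * PowerSeries.coeff (r + 1) v / ((ε : ℝ) * (p i).1) ^ r =
          PowerSeries.coeff (r + 1) v * (ε / ((p i).1 : ℝ) ^ r) := by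
        rw [← e2 r]
        ring
      have e5 : (ε : ℝ) ^ (r + 2) * PowerSeries.coeff (r + 2) v / ((ε : ℝ) * (p i).1) ^ (r + 1) =
          PowerSeries.coeff (r + 2) v * (ε / ((p i).1 : ℝ) ^ (r + 1)) := by
        rw [← e2 (r + 1)]
        ring
      rw [e4, e5]
      push_cast
      ring
    rw [e3, abs_mul, habsε, one_mul]

theorem window4 {G : ℕ → ℕ → ℤ} (hN : Norml n Q f G) (O : Ord ℝ n Q f θ) {v : PowerSeries ℝ}
    (hv : Xp n G θ v) {r : ℕ} (hr : 2 ≤ r) (hrn : r + 3 ≤ n) (hfl : Flx r v)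
    (S : Finset (ℤ × ℤ))
    (hS : ∀ P ∈ S, (∃ F, Norml n Q f F ∧ TopT (r + 3) n F G ∧ ev n F P.1 P.2 = 0) ∧
      |(P.2 : ℝ) / P.1 - θ| ≤ 1 / bb n Q)
    (X : ℝ) (hX : bb n Q ^ (100 * n ^ 3) ≤ X) (h1 : ∀ P ∈ S, X ≤ |(P.1 : ℝ)|)
    (h2 : ∀ P ∈ S, |(P.1 : ℝ)| ≤ X ^ (1 + 1 / (3 * (n : ℝ)))) : S.card ≤ 4 := by
  classical
  have hb1 := one_le_bb hN.hn hN.hQ
  have hX1 : 1 ≤ X := (one_le_pow₀ hb1).trans hX
  have part : ∀ (ε : ℤ), (ε = 1 ∨ ε = -1) → (S.filter fun P => 0 < ε * P.1).card ≤ 2 := by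
    intro ε hε
    by_contra hc
    push Not at hc
    obtain ⟨T, hTS, hT⟩ := Finset.exists_subset_card_eq
      (s := S.filter fun P => 0 < ε * P.1) (n := 3) (Nat.succ_le_of_lt hc)
    set e := T.equivFinOfCardEq hT with he
    have hm : ∀ i, (e.symm i).1 ∈ S ∧ 0 < ε * (e.symm i).1.1 := fun i =>
      mem_filter.1 (hTS (e.symm i).2)
    refine win_pos hN O hv hr hrn hfl ε hε (fun i => (e.symm i).1) ?_ (fun i => hS _ (hm i).1)
      X hX (fun i => h1 _ (hm i).1) (fun i => h2 _ (hm i).1) (fun i => (hm i).2)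
    intro i j hij
    exact e.symm.injective (Subtype.ext hij)
  have hsub : S ⊆ (S.filter fun P => 0 < (1 : ℤ) * P.1) ∪ S.filter fun P => 0 < (-1 : ℤ) * P.1 := by
    intro P hP
    have h3 := h1 P hP
    have h4 : P.1 ≠ 0 := by
      intro h
      rw [h] at h3
      simp at h3
      linarith
    rw [mem_union, mem_filter, mem_filter]
    rcases lt_or_gt_of_ne h4 with h5 | h5
    · right
      exact ⟨hP, by linarith⟩
    · left
      exact ⟨hP, by linarith⟩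
  calc S.card ≤ _ := card_le_card hsub
    _ ≤ _ := card_union_le _ _
    _ ≤ 2 + 2 := Nat.add_le_add (part 1 (Or.inl rfl)) (part (-1) (Or.inr rfl))
    _ = 4 := rfl

end Pool.Agent.H15.FX
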