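import Pool.Agent.H15.FX.Defs

/-!
# XPA: existence and uniqueness of the expansion

`xp_uniq`: `f'(θ) = O.φ O.κ ≠ 0` (`exp_kappa`). `evt n c X z` is a polynomial in `z` with
coefficients in `ℝ⟦X⟧`: `evt n c X z = ∑_j b_j z^j`, so `0 = evt(θ + v) - evt(θ + v') =
(v - v') U`, `U = ∑_j b_j ∑_{i<j} (θ+v)^i (θ+v')^(j-1-i)` (`Commute.geom_sum₂_mul` /
`sub_dvd_eval_sub`), and the constant coefficient of `U` is `∑_j c(n-j, j) j θ^(j-1) = f'(θ) ≠ 0`:
`U` is not zero, so `v = v'` (`PowerSeries ℝ` is a domain). One may also argue by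
`Polynomial.eval` of `P = ∑_j C b_j Y^j ∈ ℝ⟦X⟧[Y]`.

`xp_branch`: `v = C κ * rescale (1/κ²) (map φ w)`, `κ = O.φ O.κ`. Apply `PowerSeries.map O.φ` and
then `PowerSeries.rescale (1/κ²)` to `br.eq`; both are ring homs, `evt_map`, `cst_map` of
`H72/ES` move them inside `evt`; `rescale a X = C a * X` (`PowerSeries.rescale_X`),
`rescale a (C b) = C b`. `map φ (C κ ^ 2 * X)` rescaled is `C κ² * (C (1/κ²) * X) = X`.
-/

set_option autoImplicit false

namespace Pool.Agent.H15.FX

open Finset Polynomial Pool.Agent.H72.ES Pool.Agent.H8.UL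

variable {n Q : ℕ} {f : ℤ[X]} {θ : ℝ}

/-- `evt(θ+v) - evt(θ+v') = (v - v') U`, the constant coefficient of `U` is not zero -/
theorem evt_sub (O : Ord ℝ n Q f θ) {F : ℕ → ℕ → ℤ} (hF : Norml n Q f F) {v v' : PowerSeries ℝ}
    (h0 : PowerSeries.constantCoeff v = 0) (h0' : PowerSeries.constantCoeff v' = 0) :
    ∃ U : PowerSeries ℝ, PowerSeries.constantCoeff U ≠ 0 ∧
      evt n (cst (PowerSeries ℝ) F) PowerSeries.X (PowerSeries.C θ + v) -
        evt n (cst (PowerSeries ℝ) F) PowerSeries.X (PowerSeries.C θ + v') = (v - v') * U := by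
  have hz : PowerSeries.constantCoeff (PowerSeries.C θ + v) = θ := by
    rw [map_add, PowerSeries.constantCoeff_C, h0, add_zero]
  have hz' : PowerSeries.constantCoeff (PowerSeries.C θ + v') = θ := by
    rw [map_add, PowerSeries.constantCoeff_C, h0', add_zero]
  have hzz : (PowerSeries.C θ + v) - (PowerSeries.C θ + v') = v - v' := by ring
  generalize PowerSeries.C θ + v = z at hz hzz ⊢
  generalize PowerSeries.C θ + v' = z' at hz' hzz ⊢
  refine ⟨∑ i ∈ range (n + 1), ∑ j ∈ range (n + 1 - i), cst (PowerSeries ℝ) F i j *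
    PowerSeries.X ^ (n - i - j) * ∑ l ∈ range j, z ^ l * z' ^ (j - 1 - l), ?_, ?_⟩
  · have key : PowerSeries.constantCoeff (∑ i ∈ range (n + 1), ∑ j ∈ range (n + 1 - i),
        cst (PowerSeries ℝ) F i j *
        PowerSeries.X ^ (n - i - j) * ∑ l ∈ range j, z ^ l * z' ^ (j - 1 - l)) = O.φ O.κ := by
      have e1 : O.φ O.κ = ∑ j ∈ range (n + 1), (F (n - j) j : ℝ) * ((j : ℝ) * θ ^ (j - 1)) := by
        have hd : derivative f = ∑ j ∈ range (n + 1), C (F (n - j) j * (j : ℤ)) * X ^ (j - 1) := by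
          rw [← hF.lead_eq]
          unfold lead
          rw [Polynomial.derivative_sum]
          refine sum_congr rfl fun j _ => ?_
          rw [Polynomial.derivative_C_mul_X_pow]
        unfold Ord.κ
        rw [hd, map_sum, map_sum]
        refine sum_congr rfl fun j _ => ?_
        rw [map_mul, Polynomial.aeval_C, map_pow,
          Polynomial.aeval_X, map_mul, map_pow, O.φ_α]
        simp only [algebraMap_int_eq, eq_intCast, map_intCast, map_mul, Int.cast_mul,
          Int.cast_natCast, map_natCast]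
        ring
      rw [e1, map_sum, ← Finset.sum_flip (n := n)
        (fun j => (F (n - j) j : ℝ) * ((j : ℝ) * θ ^ (j - 1)))]
      refine sum_congr rfl fun i hi => ?_
      have hi' : i ≤ n := by
        have := mem_range.1 hi
        omega
      rw [map_sum, sum_eq_single (n - i)]
      · have e2 : n - (n - i) = i := by omega
        have e3 : n - i - (n - i) = 0 := by omega
        rw [e2, e3, pow_zero, mul_one, map_mul, map_sum]
        have e4 : PowerSeries.constantCoeff (cst (PowerSeries ℝ) F i (n - i)) =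
            (F i (n - i) : ℝ) := by
          unfold cst
          rw [map_intCast]
        rw [e4]
        congr 1
        rw [sum_congr rfl (g := fun _ => θ ^ (n - i - 1)), sum_const, card_range, nsmul_eq_mul]
        intro l hl
        have hl' := mem_range.1 hl
        rw [map_mul, map_pow, map_pow, hz, hz', ← pow_add]
        congr 1
        omega
      · intro j hj hne
        have hj' := mem_range.1 hj
        rw [map_mul, map_mul, map_pow, PowerSeries.constantCoeff_X, zero_pow (by omega),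
          mul_zero, zero_mul]
      · intro h
        exact absurd (mem_range.2 (by omega)) h
    rw [key]
    exact abs_pos.1 (exp_kappa (O := O) hF).1
  · unfold evt
    rw [← sum_sub_distrib, mul_sum]
    refine sum_congr rfl fun i _ => ?_
    rw [← sum_sub_distrib, mul_sum]
    refine sum_congr rfl fun j _ => ?_
    have h1 := (Commute.all z z').geom_sum₂_mul j
    rw [← hzz]
    linear_combination (-(cst (PowerSeries ℝ) F i j * PowerSeries.X ^ (n - i - j))) * h1

theorem xp_uniq (O : Ord ℝ n Q f θ) {F : ℕ → ℕ → ℤ} (hF : Norml n Q f F) {v v' : PowerSeries ℝ}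
    (h : Xp n F θ v) (h' : Xp n F θ v') : v = v' := by
  obtain ⟨U, hU, h1⟩ := evt_sub O hF h.h0 h'.h0
  rw [h.eq, h'.eq, sub_zero] at h1
  rcases mul_eq_zero.1 h1.symm with h2 | h2
  · exact sub_eq_zero.1 h2
  · rw [h2, map_zero] at hU
    exact absurd rfl hU

theorem xp_branch {O : Ord ℝ n Q f θ} {F : ℕ → ℕ → ℤ} (hF : Norml n Q f F) (br : Branch O F) :
    ∃ v : PowerSeries ℝ, Xp n F θ v ∧ ∀ k, PowerSeries.coeff k v =
      O.φ O.κ * (O.φ (PowerSeries.coeff k br.w) * (1 / O.φ O.κ ^ 2) ^ k) := by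
  have hk : O.φ O.κ ≠ 0 := abs_pos.1 (exp_kappa (O := O) hF).1
  refine ⟨PowerSeries.C (O.φ O.κ) * PowerSeries.rescale (1 / O.φ O.κ ^ 2)
    (PowerSeries.map O.φ br.w), ⟨?_, ?_⟩, ?_⟩
  · rw [map_mul, ← PowerSeries.coeff_zero_eq_constantCoeff_apply (PowerSeries.rescale _ _),
      PowerSeries.coeff_rescale, PowerSeries.coeff_map, PowerSeries.coeff_zero_eq_constantCoeff_apply,
      br.h0, map_zero, mul_zero, mul_zero]
  · have h1 := congrArg (fun p => PowerSeries.rescale (1 / O.φ O.κ ^ 2)
      (PowerSeries.map O.φ p)) br.eq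
    simp only [map_zero] at h1
    rw [evt_map, cst_map, evt_map, cst_map] at h1
    simp only [map_mul, map_pow, map_add, PowerSeries.map_C, PowerSeries.map_X, O.φ_α] at h1
    rw [PowerSeries.rescale_X] at h1
    have hC : ∀ c : ℝ, PowerSeries.rescale (1 / O.φ O.κ ^ 2) (PowerSeries.C c) =
        PowerSeries.C c := by
      intro c
      ext m
      rw [PowerSeries.coeff_rescale, PowerSeries.coeff_C]
      split_ifs with hm
      · rw [hm, pow_zero, one_mul]
      · rw [mul_zero]
    rw [hC, hC, ← mul_assoc, ← map_pow, ← map_mul] at h1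
    have e : O.φ O.κ ^ 2 * (1 / O.φ O.κ ^ 2) = 1 := by
      field_simp
    rw [e, map_one, one_mul] at h1
    exact h1
  · intro k
    rw [PowerSeries.coeff_C_mul, PowerSeries.coeff_rescale, PowerSeries.coeff_map]
    ring

/-- the coefficients of any expansion in terms of any branch -/
theorem xp_coeff {O : Ord ℝ n Q f θ} {F : ℕ → ℕ → ℤ} (hF : Norml n Q f F) (br : Branch O F)
    {v : PowerSeries ℝ} (h : Xp n F θ v) (k : ℕ) : PowerSeries.coeff k v =
      O.φ O.κ * (O.φ (PowerSeries.coeff k br.w) * (1 / O.φ O.κ ^ 2) ^ k) := by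
  obtain ⟨v', h1, h2⟩ := xp_branch hF br
  rw [xp_uniq O hF h h1]
  exact h2 k

theorem exists_xp (O : Ord ℝ n Q f θ) {F : ℕ → ℕ → ℤ} (hF : Norml n Q f F) :
    ∃ v : PowerSeries ℝ, Xp n F θ v := by
  obtain ⟨br⟩ := exists_branch O hF
  obtain ⟨v, hv, -⟩ := xp_branch hF br
  exact ⟨v, hv⟩

end Pool.Agent.H15.FX
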