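import Pool.Agent.H15.FX.XPA

/-!
# XPB: the expansion of integer points

`ev_small_topT`: copy of `ev_small_of_top4` (`H72/ES/ExpandG`) with `T` instead of `4` (terms with
`n < i + j + T` cancel, the others have `i + j ≤ n - T`).

`expandT`: copy of `expand4g`: `exp_main hG br x y hx hy T (bb * |x|^(n-T)) hEq`, with
`br := exists_branch O hG` and `xp_coeff` (`coeff i v (1/x)^i = κ φ(w_i) (1/κ² * (1/x))^i`).
`|x| * (2 b (b |x|^(n-T) / |x|^n + b (b^4/|x|)^T)) = (2 b² + 2 b^(4T+2)) / |x|^(T-1) ≤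
b^(4T+4) / |x|^(T-1)` (`4 ≤ b`).
-/

set_option autoImplicit false

namespace Pool.Agent.H15.FX

open Finset Polynomial Pool.Agent.H72.ES Pool.Agent.H8.UL

variable {n Q : ℕ} {f : ℤ[X]} {θ : ℝ}

theorem ev_small_topT (O : Ord ℝ n Q f θ) {F G : ℕ → ℕ → ℤ} (hF : Norml n Q f F)
    (hG : Norml n Q f G) {T : ℕ} (hT : T ≤ n) (hFG : TopT T n F G) (x y : ℤ) (hx : x ≠ 0)
    (hy : |(y : ℝ) / x - θ| ≤ 1 / bb n Q) (h0 : ev n F x y = 0) :
    |((ev n G x y : ℤ) : ℝ)| ≤ bb n Q * |(x : ℝ)| ^ (n - T) := by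
  have hn := hF.hn
  have hslope := slope_of_near O hF x y hx hy
  have hQ1 := one_le_QR hF.hn hF.hQ
  have hQ16 := sixteen_leR hF.hn hF.hQ
  have hx1 : 1 ≤ |(x : ℝ)| := by
    have : 1 ≤ |x| := Int.one_le_abs hx
    exact_mod_cast this
  have h1 : ((ev n G x y : ℤ) : ℝ) = ∑ i ∈ range (n + 1), ∑ j ∈ range (n + 1 - i),
      ((G i j - F i j : ℤ) : ℝ) * (x : ℝ) ^ i * (y : ℝ) ^ j := by
    have h2 : ev n G x y = ev n G x y - ev n F x y := by rw [h0, sub_zero]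
    rw [h2]
    unfold ev
    rw [← sum_sub_distrib]
    push_cast
    refine sum_congr rfl fun i _ => ?_
    rw [← sum_sub_distrib]
    refine sum_congr rfl fun j _ => ?_
    ring
  rw [h1]
  have h2 : ∀ i ∈ range (n + 1), ∀ j ∈ range (n + 1 - i),
      |((G i j - F i j : ℤ) : ℝ) * (x : ℝ) ^ i * (y : ℝ) ^ j| ≤
        2 * Q * (Q : ℝ) ^ (3 * n) * |(x : ℝ)| ^ (n - T) := by
    intro i hi j hj
    simp only [mem_range] at hi hj
    by_cases h : n < i + j + T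
    · rw [hFG i j (by omega) h]
      simp
      positivity
    · rw [abs_mul, abs_mul, abs_pow, abs_pow]
      have e1 : |((G i j - F i j : ℤ) : ℝ)| ≤ 2 * Q := by
        have e2 : |G i j - F i j| ≤ 2 * (Q : ℤ) := by
          have := abs_sub (G i j) (F i j)
          have g1 := hG.bound i j (by omega)
          have g2 := hF.bound i j (by omega)
          linarith
        exact_mod_cast e2
      calc |((G i j - F i j : ℤ) : ℝ)| * |(x : ℝ)| ^ i * |(y : ℝ)| ^ j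
          ≤ 2 * Q * |(x : ℝ)| ^ i * ((Q : ℝ) ^ 3 * |(x : ℝ)|) ^ j := by gcongr
        _ = 2 * Q * (Q : ℝ) ^ (3 * j) * |(x : ℝ)| ^ (i + j) := by
          rw [mul_pow, ← pow_mul, pow_add]
          ring
        _ ≤ 2 * Q * (Q : ℝ) ^ (3 * n) * |(x : ℝ)| ^ (n - T) := by
          have e3 : (Q : ℝ) ^ (3 * j) ≤ (Q : ℝ) ^ (3 * n) := pow_le_pow_right₀ hQ1 (by omega)
          have e4 : |(x : ℝ)| ^ (i + j) ≤ |(x : ℝ)| ^ (n - T) := pow_le_pow_right₀ hx1 (by omega)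
          gcongr
  have h3 : |∑ i ∈ range (n + 1), ∑ j ∈ range (n + 1 - i),
      ((G i j - F i j : ℤ) : ℝ) * (x : ℝ) ^ i * (y : ℝ) ^ j| ≤
      ∑ i ∈ range (n + 1), ∑ j ∈ range (n + 1 - i),
        2 * Q * (Q : ℝ) ^ (3 * n) * |(x : ℝ)| ^ (n - T) := by
    refine (abs_sum_le_sum_abs _ _).trans (sum_le_sum fun i hi => ?_)
    exact (abs_sum_le_sum_abs _ _).trans (sum_le_sum fun j hj => h2 i hi j hj)
  refine h3.trans ?_
  have h4 : ∑ i ∈ range (n + 1), ∑ j ∈ range (n + 1 - i),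
        2 * (Q : ℝ) * (Q : ℝ) ^ (3 * n) * |(x : ℝ)| ^ (n - T) ≤
      ∑ i ∈ range (n + 1), ((n : ℝ) + 1) * (2 * Q * (Q : ℝ) ^ (3 * n) * |(x : ℝ)| ^ (n - T)) := by
    refine sum_le_sum fun i hi => ?_
    rw [sum_const, nsmul_eq_mul, card_range]
    have : ((n + 1 - i : ℕ) : ℝ) ≤ (n : ℝ) + 1 := by
      have : n + 1 - i ≤ n + 1 := Nat.sub_le _ _
      exact_mod_cast this
    gcongr
  refine h4.trans ?_
  rw [sum_const, nsmul_eq_mul, card_range]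
  have hnQ := n_add_one_leR hF.hn hF.hQ
  push_cast
  calc ((n : ℝ) + 1) * (((n : ℝ) + 1) * (2 * Q * (Q : ℝ) ^ (3 * n) * |(x : ℝ)| ^ (n - T)))
      ≤ Q * (Q * (Q * Q * (Q : ℝ) ^ (3 * n) * |(x : ℝ)| ^ (n - T))) := by
        have : (2 : ℝ) ≤ Q := by linarith
        gcongr
    _ = (Q : ℝ) ^ (3 * n + 4) * |(x : ℝ)| ^ (n - T) := by ring
    _ ≤ bb n Q * |(x : ℝ)| ^ (n - T) := by
        have : (Q : ℝ) ^ (3 * n + 4) ≤ bb n Q := Qpow_le_bb hF.hn hF.hQ (by nlinarith)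
        gcongr

theorem expandT (O : Ord ℝ n Q f θ) {F G : ℕ → ℕ → ℤ} (hF : Norml n Q f F)
    (hG : Norml n Q f G) {T : ℕ} (hT1 : 1 ≤ T) (hT : T ≤ n) (hFG : TopT T n F G)
    {v : PowerSeries ℝ} (hv : Xp n G θ v) (x y : ℤ) (hx : bb n Q ^ 5 ≤ |(x : ℝ)|)
    (hy : |(y : ℝ) / x - θ| ≤ 1 / bb n Q) (h0 : ev n F x y = 0) :
    |(y : ℝ) - x * (θ + ∑ i ∈ range T, PowerSeries.coeff i v * (1 / (x : ℝ)) ^ i)| ≤
      bb n Q ^ (4 * T + 4) / |(x : ℝ)| ^ (T - 1) := by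
  obtain ⟨br⟩ := exists_branch O hG
  have hb := bb_pos hF.hn hF.hQ
  have hb1 := one_le_bb hF.hn hF.hQ
  have hx0 : 0 < |(x : ℝ)| := lt_of_lt_of_le (by positivity) hx
  have hxne : (x : ℝ) ≠ 0 := abs_pos.1 hx0
  have hxz : x ≠ 0 := by exact_mod_cast hxne
  have hEq := ev_small_topT O hF hG hT hFG x y hxz hy h0
  have h := exp_main hG br x y hx hy T _ hEq
  have hsum : ∑ i ∈ range T, PowerSeries.coeff i v * (1 / (x : ℝ)) ^ i =
      O.φ O.κ * ∑ i ∈ range T,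
        O.φ (PowerSeries.coeff i br.w) * (1 / O.φ O.κ ^ 2 * (1 / (x : ℝ))) ^ i := by
    rw [mul_sum]
    refine sum_congr rfl fun i _ => ?_
    rw [xp_coeff hG br hv i, mul_pow]
    ring
  have e1 : (y : ℝ) - x * (θ + ∑ i ∈ range T, PowerSeries.coeff i v * (1 / (x : ℝ)) ^ i) =
      x * ((y : ℝ) / x - (θ + O.φ O.κ * ∑ i ∈ range T,
        O.φ (PowerSeries.coeff i br.w) * (1 / O.φ O.κ ^ 2 * (1 / (x : ℝ))) ^ i)) := by
    rw [hsum, mul_sub, mul_div_cancel₀ _ hxne]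
  rw [e1, abs_mul]
  refine (mul_le_mul_of_nonneg_left h hx0.le).trans ?_
  have e3 : bb n Q * |(x : ℝ)| ^ (n - T) / |(x : ℝ)| ^ n = bb n Q / |(x : ℝ)| ^ T := by
    have : |(x : ℝ)| ^ n = |(x : ℝ)| ^ (n - T) * |(x : ℝ)| ^ T := by
      rw [← pow_add]
      congr 1
      omega
    rw [this]
    field_simp
  rw [e3]
  have h2 : (4 : ℝ) ≤ bb n Q := by
    refine le_trans ?_ (Q_le_bb hF.hn hF.hQ)
    linarith [sixteen_leR hF.hn hF.hQ]
  obtain ⟨t, rfl⟩ : ∃ t, T = t + 1 := ⟨T - 1, by omega⟩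
  have e4 : t + 1 - 1 = t := by omega
  rw [e4]
  have hxt : 0 < |(x : ℝ)| ^ t := pow_pos hx0 t
  have e5 : (1 / |(x : ℝ)| * bb n Q ^ 4) ^ (t + 1) =
      (bb n Q ^ 4) ^ (t + 1) / (|(x : ℝ)| ^ t * |(x : ℝ)|) := by
    rw [← pow_succ, mul_pow, one_div, inv_pow]
    field_simp
  rw [e5]
  have e6 : |(x : ℝ)| ^ (t + 1) = |(x : ℝ)| ^ t * |(x : ℝ)| := pow_succ _ _
  rw [e6]
  calc |(x : ℝ)| * (2 * bb n Q * (bb n Q / (|(x : ℝ)| ^ t * |(x : ℝ)|) +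
      bb n Q * ((bb n Q ^ 4) ^ (t + 1) / (|(x : ℝ)| ^ t * |(x : ℝ)|))))
      = (2 * bb n Q ^ 2 + 2 * (bb n Q ^ 2 * (bb n Q ^ 4) ^ (t + 1))) / |(x : ℝ)| ^ t := by
        field_simp
    _ ≤ bb n Q ^ (4 * (t + 1) + 4) / |(x : ℝ)| ^ t := by
        refine div_le_div_of_nonneg_right ?_ hxt.le
        have h5 : (1 : ℝ) ≤ (bb n Q ^ 4) ^ (t + 1) := one_le_pow₀ (one_le_pow₀ hb1)
        have h6 : bb n Q ^ 2 ≤ bb n Q ^ 2 * (bb n Q ^ 4) ^ (t + 1) :=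
          le_mul_of_one_le_right (by positivity) h5
        have h7 : bb n Q ^ (4 * (t + 1) + 4) =
            bb n Q * bb n Q * (bb n Q ^ 2 * (bb n Q ^ 4) ^ (t + 1)) := by
          rw [← pow_mul]
          ring
        rw [h7]
        have h8 : 0 ≤ bb n Q ^ 2 * (bb n Q ^ 4) ^ (t + 1) := by positivity
        have h9 : (4 : ℝ) ≤ bb n Q * bb n Q := by nlinarith
        nlinarith [mul_le_mul_of_nonneg_right h9 h8]

/-- the expansion at a flex of order `r` -/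
theorem expandR (O : Ord ℝ n Q f θ) {F G : ℕ → ℕ → ℤ} (hF : Norml n Q f F)
    (hG : Norml n Q f G) {r : ℕ} (hr : 2 ≤ r) (hrn : r + 3 ≤ n) (hFG : TopT (r + 3) n F G)
    {v : PowerSeries ℝ} (hv : Xp n G θ v) (hz : ∀ k, 2 ≤ k → k ≤ r → PowerSeries.coeff k v = 0)
    (x y : ℤ) (hx : bb n Q ^ 5 ≤ |(x : ℝ)|)
    (hy : |(y : ℝ) / x - θ| ≤ 1 / bb n Q) (h0 : ev n F x y = 0) :
    |(y : ℝ) - (θ * x + PowerSeries.coeff 1 v + PowerSeries.coeff (r + 1) v / (x : ℝ) ^ r +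
      PowerSeries.coeff (r + 2) v / (x : ℝ) ^ (r + 1))| ≤
      bb n Q ^ (4 * r + 16) / |(x : ℝ)| ^ (r + 2) := by
  have hb1 := one_le_bb hF.hn hF.hQ
  have hb := bb_pos hF.hn hF.hQ
  have hx0 : 0 < |(x : ℝ)| := lt_of_lt_of_le (by positivity) hx
  have hxne : (x : ℝ) ≠ 0 := abs_pos.1 hx0
  have h := expandT O hF hG (by omega : 1 ≤ r + 3) hrn hFG hv x y hx hy h0
  have hw0 : PowerSeries.coeff 0 v = 0 := by
    rw [PowerSeries.coeff_zero_eq_constantCoeff_apply, hv.h0]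
  have e1 : ∑ i ∈ range (r + 3), PowerSeries.coeff i v * (1 / (x : ℝ)) ^ i =
      PowerSeries.coeff 1 v * (1 / (x : ℝ)) + PowerSeries.coeff (r + 1) v * (1 / (x : ℝ)) ^ (r + 1) +
      PowerSeries.coeff (r + 2) v * (1 / (x : ℝ)) ^ (r + 2) := by
    rw [sum_range_succ, sum_range_succ]
    congr 2
    rw [sum_eq_single 1]
    · rw [pow_one]
    · intro i hi hi1
      simp only [mem_range] at hi
      rcases Nat.lt_or_ge i 2 with h2 | h2
      · have : i = 0 := by omega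
        subst this
        rw [hw0, zero_mul]
      · rw [hz i h2 (by omega), zero_mul]
    · intro h2
      exact absurd (mem_range.2 (by omega)) h2
  rw [e1] at h
  have e2 : (y : ℝ) - (θ * x + PowerSeries.coeff 1 v + PowerSeries.coeff (r + 1) v / (x : ℝ) ^ r +
      PowerSeries.coeff (r + 2) v / (x : ℝ) ^ (r + 1)) =
      (y : ℝ) - x * (θ + (PowerSeries.coeff 1 v * (1 / (x : ℝ)) +
        PowerSeries.coeff (r + 1) v * (1 / (x : ℝ)) ^ (r + 1) +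
        PowerSeries.coeff (r + 2) v * (1 / (x : ℝ)) ^ (r + 2))) := by
    simp only [one_div, inv_pow]
    field_simp
    ring
  rw [e2]
  have e3 : 4 * (r + 3) + 4 = 4 * r + 16 := by ring
  have e4 : r + 3 - 1 = r + 2 := by omega
  rw [e3, e4] at h
  exact h

end Pool.Agent.H15.FX
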